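import Pool.Agent.K9h38.VG.Itp

/-! # Interpretations of arithmetic in tuples -/

set_option autoImplicit false

namespace Pool.Agent.K9h38.VL

open Function Pool.Agent.Y924.EL Pool.Agent.Y924.UF Pool.Agent.K9h38.VG

variable {K : Type} [CommRing K]

/-- definable relation between three tuples -/
def Df3 (P : Set K) (R : (ℕ → K) → (ℕ → K) → (ℕ → K) → Prop) : Prop :=
  Df P (fun w => R (fun n => w (3 * n)) (fun n => w (3 * n + 1)) (fun n => w (3 * n + 2)))

/-- three tuples in one -/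
def mx3 (x y z : ℕ → K) (n : ℕ) : K :=
  if n % 3 = 0 then x (n / 3) else if n % 3 = 1 then y (n / 3) else z (n / 3)

/-- the variable which is copied to the variable `x_m` -/
def src (V i j k m : ℕ) : ℕ :=
  100 + V * ((if m % 3 = 0 then i else if m % 3 = 1 then j else k) + 3) + m / 3

/-- copies of variables -/
def cpy (V i j k : ℕ) : ℕ → Fm → Fm
  | 0, φ => φ
  | m + 1, φ => .ex m (.and (.eq m (src V i j k m)) (cpy V i j k m φ))

/-- the basic formula for the variables of number `i`, `j`, `k` -/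
def insV (V : ℕ) (φ : Fm) (i j k : ℕ) : Fm := cpy V i j k (3 * V) φ

/-- translation of the formulas of arithmetic -/
def trV (V : ℕ) (fN fE fO fA fM : Fm) : Fm → Fm
  | .eq i j => insV V fE i j j
  | .one i => insV V fO i i i
  | .add i j k => insV V fA i j k
  | .mul i j k => insV V fM i j k
  | .val _ => .ex 0 (.neg (.eq 0 0))
  | .neg ψ => .neg (trV V fN fE fO fA fM ψ)
  | .and ψ χ => .and (trV V fN fE fO fA fM ψ) (trV V fN fE fO fA fM χ)
  | .ex i ψ => exR (100 + V * (i + 3)) V (.and (insV V fN i i i) (trV V fN fE fO fA fM ψ))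

theorem src_ge {V i j k m : ℕ} : 100 + 3 * V ≤ src V i j k m := by
  unfold src
  have : V * 3 ≤ V * ((if m % 3 = 0 then i else if m % 3 = 1 then j else k) + 3) :=
    Nat.mul_le_mul_left _ (by omega)
  omega

theorem sat_cpy (P : Set K) {V i j k : ℕ} (M : ℕ) (hM : M ≤ 3 * V) (φ : Fm) (v : ℕ → K) :
    Sat P (cpy V i j k M φ) v ↔
      Sat P φ (fun m => if m < M then v (src V i j k m) else v m) := by
  induction M generalizing v with
  | zero => simp [cpy]
  | succ M ih =>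
    have hs : ∀ m, src V i j k m ≠ M := fun m => by
      have := src_ge (V := V) (i := i) (j := j) (k := k) (m := m)
      omega
    have key : ∀ a : K, a = v (src V i j k M) →
        (fun m => if m < M then (update v M a) (src V i j k m) else (update v M a) m) =
          fun m => if m < M + 1 then v (src V i j k m) else v m := by
      intro a ha
      funext m
      by_cases h1 : m < M
      · rw [if_pos h1, if_pos (by omega), update_of_ne (hs m)]
      · rw [if_neg h1]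
        by_cases h2 : m = M
        · subst h2
          rw [update_self, if_pos (by omega), ha]
        · rw [update_of_ne h2, if_neg (by omega)]
    change (∃ a, (update v M a) M = (update v M a) (src V i j k M) ∧
      Sat P (cpy V i j k M φ) (update v M a)) ↔ _
    constructor
    · rintro ⟨a, h1, h2⟩
      rw [update_self, update_of_ne (hs M)] at h1
      rw [ih (by omega), key a h1] at h2
      exact h2
    · intro h
      refine ⟨v (src V i j k M), ?_, ?_⟩
      · rw [update_self, update_of_ne (hs M)]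
      · rw [ih (by omega), key _ rfl]
        exact h

theorem fv_cpy {V i j k : ℕ} (M : ℕ) (φ : Fm) (x : ℕ) (hx : x ∈ (cpy V i j k M φ).fv) :
    (∃ m, m < M ∧ x = src V i j k m) ∨ (x ∈ φ.fv ∧ M ≤ x) := by
  induction M with
  | zero => exact Or.inr ⟨hx, by omega⟩
  | succ M ih =>
    simp only [cpy, Fm.fv, Finset.mem_erase, Finset.mem_union, Finset.mem_insert,
      Finset.mem_singleton] at hx
    obtain ⟨h0, (h1 | h1) | h1⟩ := hx
    · exact absurd h1 h0
    · exact Or.inl ⟨M, by omega, h1⟩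
    · rcases ih h1 with ⟨m, h2, h3⟩ | ⟨h2, h3⟩
      · exact Or.inl ⟨m, by omega, h3⟩
      · exact Or.inr ⟨h2, by omega⟩

/-- the block of number `i` -/
def bk (V : ℕ) (v : ℕ → K) (i : ℕ) (n : ℕ) : K := v (100 + V * (i + 3) + n)

omit [CommRing K] in
theorem src_bk {V i j k m : ℕ} (v : ℕ → K) :
    v (src V i j k m) = mx3 (bk V v i) (bk V v j) (bk V v k) m := by
  unfold src mx3 bk
  split_ifs <;> rfl

omit [CommRing K] in
theorem mx3_0 (x y z : ℕ → K) : (fun n => mx3 x y z (3 * n)) = x := by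
  funext n
  unfold mx3
  rw [if_pos (by omega)]
  congr 1
  omega

omit [CommRing K] in
theorem mx3_1 (x y z : ℕ → K) : (fun n => mx3 x y z (3 * n + 1)) = y := by
  funext n
  unfold mx3
  rw [if_neg (by omega), if_pos (by omega)]
  congr 1
  omega

omit [CommRing K] in
theorem mx3_2 (x y z : ℕ → K) : (fun n => mx3 x y z (3 * n + 2)) = z := by
  funext n
  unfold mx3
  rw [if_neg (by omega), if_neg (by omega)]
  congr 1
  omega

/-- `φ` defines `R`, and both depend only on the first `V` entries -/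
def Rep (P : Set K) (V : ℕ) (φ : Fm) (R : (ℕ → K) → (ℕ → K) → (ℕ → K) → Prop) : Prop :=
  (∀ x ∈ φ.fv, x < 3 * V) ∧
  (∀ v, Sat P φ v ↔ R (fun n => v (3 * n)) (fun n => v (3 * n + 1)) (fun n => v (3 * n + 2))) ∧
  ∀ x y z x' y' z', (∀ n, n < V → x n = x' n) → (∀ n, n < V → y n = y' n) →
    (∀ n, n < V → z n = z' n) → (R x y z ↔ R x' y' z')

theorem exists_rep {P : Set K} {R : (ℕ → K) → (ℕ → K) → (ℕ → K) → Prop} (h : Df3 P R) :
    ∃ V0, ∀ V, V0 ≤ V → ∃ φ, Rep P V φ R := by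
  obtain ⟨W, hW⟩ := Df.dep h
  obtain ⟨φ, h⟩ := h
  refine ⟨W, fun V hV => ?_⟩
  obtain ⟨V1, hV1⟩ := Pool.Agent.Y686.UF.t_CLO.1 φ
  have hdep : ∀ x y z x' y' z' : ℕ → K, (∀ n, n < V → x n = x' n) →
      (∀ n, n < V → y n = y' n) → (∀ n, n < V → z n = z' n) → (R x y z ↔ R x' y' z') := by
    intro x y z x' y' z' h1 h2 h3
    have h4 := hW (mx3 x y z) (mx3 x' y' z') (fun n hn => by
      unfold mx3
      split_ifs
      · exact h1 _ (by omega)
      · exact h2 _ (by omega)
      · exact h3 _ (by omega))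
    beta_reduce at h4
    rw [mx3_0, mx3_1, mx3_2, mx3_0, mx3_1, mx3_2] at h4
    exact h4
  refine ⟨exR (3 * V) V1 φ, fun x hx => ?_, fun v => ?_, hdep⟩
  · obtain ⟨h1, h2⟩ := Pool.Agent.Y286.UF.fv_exR (3 * V) φ V1 hx
    have h3 := Pool.Agent.Y686.UF.below_fv V1 φ (hV1 V1 le_rfl) x h1
    by_contra hc
    exact h2 ⟨by omega, by omega⟩
  · rw [Pool.Agent.Y151.UF.t_EXR K P (3 * V) V1]
    constructor
    · rintro ⟨w, hw, h1⟩
      refine (hdep _ _ _ _ _ _ ?_ ?_ ?_).1 ((h w).1 h1)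
      · intro n hn
        exact hw _ (Or.inl (by omega))
      · intro n hn
        exact hw _ (Or.inl (by omega))
      · intro n hn
        exact hw _ (Or.inl (by omega))
    · intro h1
      exact ⟨v, fun _ _ => rfl, (h v).2 h1⟩

theorem sat_insV {P : Set K} {V : ℕ} {φ : Fm} {R : (ℕ → K) → (ℕ → K) → (ℕ → K) → Prop}
    (h : Rep P V φ R) (i j k : ℕ) (v : ℕ → K) :
    Sat P (insV V φ i j k) v ↔ R (bk V v i) (bk V v j) (bk V v k) := by
  obtain ⟨h1, h2, h3⟩ := h
  rw [insV, sat_cpy P _ le_rfl, h2]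
  refine h3 _ _ _ _ _ _ ?_ ?_ ?_
  · intro n hn
    rw [if_pos (by omega), src_bk v]
    exact congrFun (mx3_0 _ _ _) n
  · intro n hn
    rw [if_pos (by omega), src_bk v]
    exact congrFun (mx3_1 _ _ _) n
  · intro n hn
    rw [if_pos (by omega), src_bk v]
    exact congrFun (mx3_2 _ _ _) n

theorem fv_insV {P : Set K} {V : ℕ} {φ : Fm} {R : (ℕ → K) → (ℕ → K) → (ℕ → K) → Prop}
    (h : Rep P V φ R) {i j k x : ℕ} (hx : x ∈ (insV V φ i j k).fv) :
    ∃ n, n < V ∧ (x = 100 + V * (i + 3) + n ∨ x = 100 + V * (j + 3) + n ∨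
      x = 100 + V * (k + 3) + n) := by
  rcases fv_cpy _ _ _ hx with ⟨m, hm, h1⟩ | ⟨h1, h2⟩
  · refine ⟨m / 3, by omega, ?_⟩
    rw [h1]
    unfold src
    split_ifs
    · exact Or.inl rfl
    · exact Or.inr (Or.inl rfl)
    · exact Or.inr (Or.inr rfl)
  · have := h.1 x h1
    omega

theorem prim_trV (V : ℕ) (fN fE fO fA fM : Fm) : ∃ F : ℕ → ℕ, Primrec F ∧
    ∀ ψ : Fm, F ψ.code = (trV V fN fE fO fA fM ψ).code := by
  have P1 : Primrec fun m : ℕ => m.unpair.1 := Primrec.fst.comp Primrec.unpair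
  have P2 : Primrec fun m : ℕ => m.unpair.2 := Primrec.snd.comp Primrec.unpair
  have hpair : ∀ f g : ℕ → ℕ, Primrec f → Primrec g → Primrec fun m => Nat.pair (f m) (g m) :=
    fun f g hf hg => Primrec₂.natPair.comp hf hg
  have hc : ∀ n : ℕ, Primrec fun _ : ℕ => n := fun n => Primrec.const n
  have hsrc : ∀ (f g h : ℕ → ℕ) (n : ℕ), Primrec f → Primrec g → Primrec h →
      Primrec fun m => src V (f m) (g m) (h m) n := by
    intro f g h n hf hg hh
    have h1 : ∀ k : ℕ → ℕ, Primrec k → Primrec fun m => 100 + V * (k m + 3) + n / 3 :=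
      fun k hk => Primrec.nat_add.comp (Primrec.nat_add.comp (Primrec.const 100)
        (Primrec.nat_mul.comp (Primrec.const V) (Primrec.nat_add.comp hk (Primrec.const 3))))
        (Primrec.const (n / 3))
    unfold src
    by_cases h2 : n % 3 = 0
    · simp only [if_pos h2]
      exact h1 f hf
    · by_cases h3 : n % 3 = 1
      · simp only [if_neg h2, if_pos h3]
        exact h1 g hg
      · simp only [if_neg h2, if_neg h3]
        exact h1 h hh
  have hcpy : ∀ (φ : Fm) (f g h : ℕ → ℕ) (M : ℕ), Primrec f → Primrec g → Primrec h →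
      Primrec fun m => (cpy V (f m) (g m) (h m) M φ).code := by
    intro φ f g h M hf hg hh
    induction M with
    | zero => exact hc φ.code
    | succ M ih =>
      simp only [cpy, Fm.code]
      refine hpair _ _ (hc 7) (hpair _ _ (hc M) (hpair _ _ (hc 6) (hpair _ _ ?_ ih)))
      exact hpair _ _ (hc 0) (hpair _ _ (hc M) (hsrc f g h M hf hg hh))
  have hins : ∀ (φ : Fm) (f g h : ℕ → ℕ), Primrec f → Primrec g → Primrec h →
      Primrec fun m => (insV V φ (f m) (g m) (h m)).code :=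
    fun φ f g h hf hg hh => hcpy φ f g h (3 * V) hf hg hh
  have P21 : Primrec fun m : ℕ => m.unpair.2.unpair.1 := Primrec.fst.comp (Primrec.unpair.comp P2)
  have P22 : Primrec fun m : ℕ => m.unpair.2.unpair.2 := Primrec.snd.comp (Primrec.unpair.comp P2)
  obtain ⟨hx1, -, hx3⟩ := Pool.Agent.Y151.UF.t_CMPB
  have hg7 : Primrec fun m : ℕ => exRc (100 + V * (m.unpair.1 + 3)) V (Nat.pair 6 (Nat.pair
      (insV V fN m.unpair.1 m.unpair.1 m.unpair.1).code m.unpair.2)) := by
    have h1 := (hx3 V).comp (hpair (fun m => m.unpair.1 + 3) (fun m => Nat.pair 6 (Nat.pair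
      (insV V fN m.unpair.1 m.unpair.1 m.unpair.1).code m.unpair.2))
      (Primrec.nat_add.comp P1 (Primrec.const 3))
      (hpair _ _ (hc 6) (hpair _ _ (hins fN _ _ _ P1 P1 P1) P2)))
    refine h1.of_eq fun m => ?_
    rw [Nat.unpair_pair]
  obtain ⟨F, hF, h0, h1, h2, h3, h4, h5, h6, h7⟩ := Pool.Agent.Y900.UF.t_REC _ _ _ _ _ _
    (hins fE _ _ _ P1 P2 P2) (hins fO _ _ _ Primrec.id Primrec.id Primrec.id)
    (hins fA _ _ _ P1 P21 P22) (hins fM _ _ _ P1 P21 P22)
    (hc (Fm.ex 0 (.neg (.eq 0 0))).code) hg7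
  refine ⟨F, hF, fun ψ => ?_⟩
  induction ψ with
  | eq i j =>
    change F (Nat.pair 0 (Nat.pair i j)) = _
    rw [h0]
    simp only [Nat.unpair_pair]
    rfl
  | one i =>
    change F (Nat.pair 1 i) = _
    rw [h1]
    rfl
  | add i j k =>
    change F (Nat.pair 2 (Nat.pair i (Nat.pair j k))) = _
    rw [h2]
    simp only [Nat.unpair_pair]
    rfl
  | mul i j k =>
    change F (Nat.pair 3 (Nat.pair i (Nat.pair j k))) = _
    rw [h3]
    simp only [Nat.unpair_pair]
    rfl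
  | val i =>
    change F (Nat.pair 4 i) = _
    rw [h4]
    rfl
  | neg ψ ih =>
    change F (Nat.pair 5 ψ.code) = Nat.pair 5 (trV V fN fE fO fA fM ψ).code
    rw [h5, ih]
  | and ψ χ ih1 ih2 =>
    change F (Nat.pair 6 (Nat.pair ψ.code χ.code)) =
      Nat.pair 6 (Nat.pair (trV V fN fE fO fA fM ψ).code (trV V fN fE fO fA fM χ).code)
    rw [h6, ih1, ih2]
  | ex i ψ ih =>
    change F (Nat.pair 7 (Nat.pair i ψ.code)) = (exR (100 + V * (i + 3)) V (.and (insV V fN i i i)
      (trV V fN fE fO fA fM ψ))).code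
    rw [h7, ih, hx1]
    simp only [Nat.unpair_pair]
    rfl

theorem fv_trV {P : Set K} {V : ℕ} {fN fE fO fA fM : Fm}
    {N E O A M : (ℕ → K) → (ℕ → K) → (ℕ → K) → Prop} (hN : Rep P V fN N) (hE : Rep P V fE E)
    (hO : Rep P V fO O) (hA : Rep P V fA A) (hM : Rep P V fM M) (ψ : Fm) :
    ∀ x ∈ (trV V fN fE fO fA fM ψ).fv, ∃ i ∈ ψ.fv, ∃ n, n < V ∧ x = 100 + V * (i + 3) + n := by
  induction ψ with
  | eq i j =>
    intro x hx
    obtain ⟨n, hn, h | h | h⟩ := fv_insV hE hx
    · exact ⟨i, by simp [Fm.fv], n, hn, h⟩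
    · exact ⟨j, by simp [Fm.fv], n, hn, h⟩
    · exact ⟨j, by simp [Fm.fv], n, hn, h⟩
  | one i =>
    intro x hx
    obtain ⟨n, hn, h | h | h⟩ := fv_insV hO hx <;> exact ⟨i, by simp [Fm.fv], n, hn, h⟩
  | add i j k =>
    intro x hx
    obtain ⟨n, hn, h | h | h⟩ := fv_insV hA hx
    · exact ⟨i, by simp [Fm.fv], n, hn, h⟩
    · exact ⟨j, by simp [Fm.fv], n, hn, h⟩
    · exact ⟨k, by simp [Fm.fv], n, hn, h⟩
  | mul i j k =>
    intro x hx
    obtain ⟨n, hn, h | h | h⟩ := fv_insV hM hx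
    · exact ⟨i, by simp [Fm.fv], n, hn, h⟩
    · exact ⟨j, by simp [Fm.fv], n, hn, h⟩
    · exact ⟨k, by simp [Fm.fv], n, hn, h⟩
  | val i =>
    intro x hx
    simp [trV, Fm.fv] at hx
  | neg ψ ih => exact ih
  | and ψ χ ih1 ih2 =>
    intro x hx
    simp only [trV, Fm.fv, Finset.mem_union] at hx
    rcases hx with hx | hx
    · obtain ⟨i, hi, h⟩ := ih1 x hx
      exact ⟨i, by simp [Fm.fv, hi], h⟩
    · obtain ⟨i, hi, h⟩ := ih2 x hx
      exact ⟨i, by simp [Fm.fv, hi], h⟩
  | ex i ψ ih =>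
    intro x hx
    obtain ⟨h1, h2⟩ := Pool.Agent.Y286.UF.fv_exR _ _ _ hx
    simp only [Fm.fv, Finset.mem_union] at h1
    rcases h1 with h1 | h1
    · exfalso
      obtain ⟨n, hn, h | h | h⟩ := fv_insV hN h1 <;> exact h2 ⟨by omega, by omega⟩
    · obtain ⟨j, hj, n, hn, h⟩ := ih x h1
      refine ⟨j, ?_, n, hn, h⟩
      simp only [Fm.fv, Finset.mem_erase]
      refine ⟨?_, hj⟩
      rintro rfl
      exact h2 ⟨by omega, by omega⟩

/-- an interpretation of arithmetic in tuples gives a reduction of the theory of arithmetic -/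
theorem interpV {P : Set K} {N : (ℕ → K) → Prop} {E : (ℕ → K) → (ℕ → K) → Prop}
    {O : (ℕ → K) → Prop} {A M : (ℕ → K) → (ℕ → K) → (ℕ → K) → Prop} (ν : (ℕ → K) → ℕ)
    (dN : Df3 P (fun x _ _ => N x)) (dE : Df3 P (fun x y _ => E x y))
    (dO : Df3 P (fun x _ _ => O x)) (dA : Df3 P A) (dM : Df3 P M)
    (hE : ∀ x y, N x → N y → (E x y ↔ ν x = ν y)) (hO : ∀ x, N x → (O x ↔ ν x = 1))
    (hA : ∀ x y z, N x → N y → N z → (A x y z ↔ ν x + ν y = ν z))
    (hM : ∀ x y z, N x → N y → N z → (M x y z ↔ ν x * ν y = ν z))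
    (hs : ∀ n : ℕ, ∃ x, N x ∧ ν x = n) :
    ∃ F : ℕ → ℕ, Primrec F ∧ ∀ ψ : Fm, ψ.fv = ∅ → ((∀ n : ℕ → ℕ, Sat (∅ : Set ℕ) ψ n) ↔
      ∃ χ : Fm, χ.code = F ψ.code ∧ χ.fv = ∅ ∧ ∀ v, Sat P χ v) := by
  obtain ⟨V1, h1⟩ := exists_rep dN
  obtain ⟨V2, h2⟩ := exists_rep dE
  obtain ⟨V3, h3⟩ := exists_rep dO
  obtain ⟨V4, h4⟩ := exists_rep dA
  obtain ⟨V5, h5⟩ := exists_rep dM
  set V := V1 + V2 + V3 + V4 + V5 with hV
  obtain ⟨fN, rN⟩ := h1 V (by omega)
  obtain ⟨fE, rE⟩ := h2 V (by omega)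
  obtain ⟨fO, rO⟩ := h3 V (by omega)
  obtain ⟨fA, rA⟩ := h4 V (by omega)
  obtain ⟨fM, rM⟩ := h5 V (by omega)
  obtain ⟨F, hF, hF2⟩ := prim_trV V fN fE fO fA fM
  have tE : ∀ (i j k : ℕ) (v : ℕ → K), Sat P (insV V fE i j k) v ↔ E (bk V v i) (bk V v j) :=
    fun i j k v => sat_insV rE i j k v
  have tO : ∀ (i j k : ℕ) (v : ℕ → K), Sat P (insV V fO i j k) v ↔ O (bk V v i) :=
    fun i j k v => sat_insV rO i j k v
  have tN : ∀ (i j k : ℕ) (v : ℕ → K), Sat P (insV V fN i j k) v ↔ N (bk V v i) :=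
    fun i j k v => sat_insV rN i j k v
  have tA : ∀ (i j k : ℕ) (v : ℕ → K), Sat P (insV V fA i j k) v ↔
      A (bk V v i) (bk V v j) (bk V v k) := fun i j k v => sat_insV rA i j k v
  have tM : ∀ (i j k : ℕ) (v : ℕ → K), Sat P (insV V fM i j k) v ↔
      M (bk V v i) (bk V v j) (bk V v k) := fun i j k v => sat_insV rM i j k v
  have cN : ∀ x x' : ℕ → K, (∀ n, n < V → x n = x' n) → N x → N x' ∧ ν x = ν x' := by
    intro x x' h hx
    have k1 : N x' := (rN.2.2 x x x x' x x h (fun _ _ => rfl) (fun _ _ => rfl)).1 hx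
    refine ⟨k1, ?_⟩
    rw [← hE x x' hx k1]
    exact (rE.2.2 x x x x x' x (fun _ _ => rfl) h (fun _ _ => rfl)).1 ((hE x x hx hx).2 rfl)
  have key : ∀ (ψ : Fm) (v : ℕ → K) (n : ℕ → ℕ),
      (∀ i ∈ ψ.fv, N (bk V v i) ∧ ν (bk V v i) = n i) →
      (Sat P (trV V fN fE fO fA fM ψ) v ↔ Sat (∅ : Set ℕ) ψ n) := by
    intro ψ
    induction ψ with
    | eq i j =>
      intro v n h
      obtain ⟨a1, a2⟩ := h i (by simp [Fm.fv])
      obtain ⟨b1, b2⟩ := h j (by simp [Fm.fv])
      rw [trV, tE, hE _ _ a1 b1, a2, b2]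
      rfl
    | one i =>
      intro v n h
      obtain ⟨a1, a2⟩ := h i (by simp [Fm.fv])
      rw [trV, tO, hO _ a1, a2]
      rfl
    | add i j k =>
      intro v n h
      obtain ⟨a1, a2⟩ := h i (by simp [Fm.fv])
      obtain ⟨b1, b2⟩ := h j (by simp [Fm.fv])
      obtain ⟨c1, c2⟩ := h k (by simp [Fm.fv])
      rw [trV, tA, hA _ _ _ a1 b1 c1, a2, b2, c2]
      rfl
    | mul i j k =>
      intro v n h
      obtain ⟨a1, a2⟩ := h i (by simp [Fm.fv])
      obtain ⟨b1, b2⟩ := h j (by simp [Fm.fv])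
      obtain ⟨c1, c2⟩ := h k (by simp [Fm.fv])
      rw [trV, tM, hM _ _ _ a1 b1 c1, a2, b2, c2]
      rfl
    | val i =>
      intro v n h
      simp [trV, Sat]
    | neg ψ ih =>
      intro v n h
      exact not_congr (ih v n h)
    | and ψ χ ih1 ih2 =>
      intro v n h
      exact and_congr (ih1 v n fun i hi => h i (by simp [Fm.fv, hi]))
        (ih2 v n fun i hi => h i (by simp [Fm.fv, hi]))
    | ex i ψ ih =>
      intro v n h
      have hw : ∀ (w : ℕ → K), (∀ j, (j < 100 + V * (i + 3) ∨ 100 + V * (i + 3) + V ≤ j) →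
          w j = v j) → N (bk V w i) → ∀ j ∈ ψ.fv, N (bk V w j) ∧
            ν (bk V w j) = update n i (ν (bk V w i)) j := by
        intro w hw hN j hj
        by_cases hji : j = i
        · subst hji
          rw [update_self]
          exact ⟨hN, rfl⟩
        · rw [update_of_ne hji]
          obtain ⟨k1, k2⟩ := h j (by simp [Fm.fv, hj, hji])
          have k3 : ∀ m, m < V → bk V v j m = bk V w j m := by
            intro m hm
            unfold bk
            refine (hw _ ?_).symm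
            rcases lt_or_gt_of_ne hji with h5 | h5
            · left
              have : V * (j + 3) + V ≤ V * (i + 3) := by nlinarith
              omega
            · right
              have : V * (i + 3) + V ≤ V * (j + 3) := by nlinarith
              omega
          obtain ⟨k4, k5⟩ := cN _ _ k3 k1
          exact ⟨k4, by rw [← k5, k2]⟩
      change Sat P (exR (100 + V * (i + 3)) V (.and (insV V fN i i i)
        (trV V fN fE fO fA fM ψ))) v ↔ ∃ m, Sat (∅ : Set ℕ) ψ (update n i m)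
      rw [Pool.Agent.Y151.UF.t_EXR K P (100 + V * (i + 3)) V]
      constructor
      · rintro ⟨w, h6, h7, h8⟩
        rw [tN] at h7
        exact ⟨ν (bk V w i), (ih _ _ (hw w h6 h7)).1 h8⟩
      · rintro ⟨m, h6⟩
        obtain ⟨a, ha, rfl⟩ := hs m
        let w : ℕ → K := fun j => if 100 + V * (i + 3) ≤ j ∧ j < 100 + V * (i + 3) + V then
          a (j - (100 + V * (i + 3))) else v j
        have h7 : ∀ j, (j < 100 + V * (i + 3) ∨ 100 + V * (i + 3) + V ≤ j) → w j = v j := by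
          intro j hj
          simp only [w]
          rw [if_neg (by omega)]
        have h8 : ∀ m, m < V → a m = bk V w i m := by
          intro m hm
          simp only [bk, w]
          rw [if_pos (by omega)]
          congr 1
          omega
        obtain ⟨h9, h10⟩ := cN _ _ h8 ha
        refine ⟨w, h7, ?_, ?_⟩
        · rw [tN]
          exact h9
        · refine (ih w _ (hw w h7 h9)).2 ?_
          rw [← h10]
          exact h6
  refine ⟨F, hF, fun ψ hψ => ?_⟩
  have h1 : ∀ (v : ℕ → K) (n : ℕ → ℕ),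
      (Sat P (trV V fN fE fO fA fM ψ) v ↔ Sat (∅ : Set ℕ) ψ n) :=
    fun v n => key ψ v n fun i hi => by simp [hψ] at hi
  constructor
  · intro h
    refine ⟨_, (hF2 ψ).symm, ?_, fun v => (h1 v 0).2 (h 0)⟩
    refine Finset.eq_empty_of_forall_notMem fun x hx => ?_
    obtain ⟨i, hi, -⟩ := fv_trV rN rE rO rA rM ψ x hx
    simp [hψ] at hi
  · rintro ⟨χ, h2, -, h3⟩ n
    have h4 : χ = trV V fN fE fO fA fM ψ := Pool.Agent.Y988.UF.t_CINJ _ _ (h2.trans (hF2 ψ))
    rw [h4] at h3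
    exact (h1 0 n).1 (h3 0)

end Pool.Agent.K9h38.VL
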