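import Pool.Agent.K9h38.VG.Sec2
import Pool.Agent.K9h38.VL.IntV

/-! # Definable relations between tuples -/

set_option autoImplicit false

namespace Pool.Agent.K9h38.VL

open Function Pool.Agent.Y924.EL Pool.Agent.Y924.UF Pool.Agent.K9h38.VG

section

variable {K : Type} [CommRing K]

/-- definable relation on a sequence of tuples -/
def DB (P : Set K) (R : (ℕ → ℕ → K) → Prop) : Prop :=
  Df P (fun v => R (fun i n => v (Nat.pair i n)))

variable {P : Set K} {R R' : (ℕ → ℕ → K) → Prop}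

theorem DB.use (h : DB P R) (s : ℕ → ℕ → ℕ) : Df P (fun v => R (fun i n => v (s i n))) := by
  have h1 := Df.sub h (fun m => s m.unpair.1 m.unpair.2)
  refine h1.congr fun v => ?_
  have : (fun i n => v (s (Nat.pair i n).unpair.1 (Nat.pair i n).unpair.2)) =
      fun i n => v (s i n) := by
    funext i n
    rw [Nat.unpair_pair]
  rw [this]

theorem DB.not (h : DB P R) : DB P (fun b => ¬ R b) := Df.not h

theorem DB.and (h : DB P R) (h' : DB P R') : DB P (fun b => R b ∧ R' b) := Df.and h h'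

theorem DB.imp (h : DB P R) (h' : DB P R') : DB P (fun b => R b → R' b) := Df.imp h h'

/-- renaming of tuples -/
theorem DB.ren (h : DB P R) (σ : ℕ → ℕ) : DB P (fun b => R (fun i => b (σ i))) :=
  h.use fun i n => Nat.pair (σ i) n

theorem DB.ex {R : (ℕ → K) → (ℕ → ℕ → K) → Prop} (h : DB P (fun b => R (b 0) (fun i => b (i + 1)))) :
    DB P (fun b => ∃ u, R u b) := by
  refine Df.exs (R := fun v u => R u (fun i n => v (Nat.pair i n))) ?_
  exact h.use (cns (fun n => 2 * n + 1) (fun i n => 2 * Nat.pair i n))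

theorem DB.all {R : (ℕ → K) → (ℕ → ℕ → K) → Prop}
    (h : DB P (fun b => R (b 0) (fun i => b (i + 1)))) : DB P (fun b => ∀ u, R u b) := by
  refine (DB.ex (R := fun u b => ¬ R u b) h.not).not.congr fun v => ?_
  push Not
  rfl

theorem DB.d3 {R : (ℕ → K) → (ℕ → K) → (ℕ → K) → Prop}
    (h : DB P (fun b => R (b 0) (b 1) (b 2))) : Df3 P R :=
  h.use (fun i n => 3 * n + i)

theorem df_BB (p : ℕ) {f1 f2 f3 f4 f5 f6 : (ℕ → K) → K} (h1 : DFn P f1) (h2 : DFn P f2)
    (h3 : DFn P f3) (h4 : DFn P f4) (h5 : DFn P f5) (h6 : DFn P f6) :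
    Df P (fun v => BB (f1 v) p (f2 v) (f3 v) (f4 v) (f5 v) (f6 v)) := by
  have h0 : Df P (fun v => BB (v 0) p (v 1) (v 2) (v 3) (v 4) (v 5)) := by
    refine Df.ex1 (R := fun z v => z * ((v 1 - v 4) * (v 2 - v 5)) = v 3 ∧ HH (v 0) p z) ?_
    exact (Df.eq ((DFn.var 0).mul (((DFn.var 2).sub' (DFn.var 5)).mul
      ((DFn.var 3).sub' (DFn.var 6)))) (DFn.var 4)).and (df_HH p (DFn.var 1) (DFn.var 0))
  refine Df.comp h0 (F := cns f1 (cns f2 (cns f3 (cns f4 (cns f5 (fun _ => f6)))))) fun i => ?_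
  rcases i with _ | _ | _ | _ | _ | i
  · exact h1
  · exact h2
  · exact h3
  · exact h4
  · exact h5
  · exact h6

end

end Pool.Agent.K9h38.VL
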