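import Pool.Agent.K9h38.VL.Snd
import Pool.Agent.Y528.UF.Cod

/-! # Thick finite sets: codes of relations -/

set_option autoImplicit false

namespace Pool.Agent.K9h38.VL

open Function Pool.Agent.Y924.EL Pool.Agent.Y924.UF Pool.Agent.K9h38.VG

variable {p : ℕ} [Fact p.Prime]

/-- the power `t ^ r` -/
noncomputable def tp (r : ℤ) : LaurentSeries (ZMod p) := HahnSeries.single r 1

theorem tp_ne (r : ℤ) : (tp r : LaurentSeries (ZMod p)) ≠ 0 :=
  HahnSeries.single_ne_zero one_ne_zero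

theorem tp_ord (r : ℤ) : (tp r : LaurentSeries (ZMod p)).order = r :=
  HahnSeries.order_single one_ne_zero

theorem le_tp {r : ℤ} {x : LaurentSeries (ZMod p)} : Le (tp r) x ↔ ∀ k < r, x.coeff k = 0 :=
  le_single

theorem le_tp_sub {r : ℤ} {x y : LaurentSeries (ZMod p)} :
    Le (tp r) (x - y) ↔ ∀ k < r, x.coeff k = y.coeff k :=
  le_single_sub

theorem le_tp_of {c : LaurentSeries (ZMod p)} (hc : c ≠ 0) {r : ℤ} (h : c.order ≤ r)
    {x : LaurentSeries (ZMod p)} (hx : Le (tp r) x) : Le c x :=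
  le_trans' (le_of_ord hc h) hx

theorem le_tp_tp {r s : ℤ} (h : r ≤ s) {x : LaurentSeries (ZMod p)} (hx : Le (tp s) x) :
    Le (tp r) x :=
  le_tp_of (tp_ne r) (by rw [tp_ord]; exact h) hx

theorem sub_small {A δ : LaurentSeries (ZMod p)} (hA : A ≠ 0) {h : ℤ} (hh : A.order < h)
    (hδ : Le (tp h) δ) : A - δ ≠ 0 ∧ (A - δ).order = A.order := by
  rw [le_tp] at hδ
  have h1 : (A - δ).coeff A.order ≠ 0 := by
    rw [HahnSeries.coeff_sub, hδ _ hh, sub_zero]
    exact HahnSeries.coeff_order_eq_zero.not.2 hA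
  have h2 : A - δ ≠ 0 := fun h0 => h1 (by rw [h0, HahnSeries.coeff_zero])
  refine ⟨h2, le_antisymm (HahnSeries.order_le_of_coeff_ne_zero h1) ?_⟩
  by_contra hc
  push Not at hc
  have h3 : (A - δ).coeff (A - δ).order = 0 := by
    rw [HahnSeries.coeff_sub, hδ _ (by omega), HahnSeries.coeff_eq_zero_of_lt_order hc, sub_zero]
  exact h2 (HahnSeries.coeff_order_eq_zero.1 h3)

theorem le_mul_tp {q δ : LaurentSeries (ZMod p)} {h : ℤ} (hq : q ≠ 0) (hh : 1 ≤ h + q.order)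
    (hδ : Le (tp h) δ) : Le (tp 1) (δ * q) := by
  obtain ⟨z, hz, rfl⟩ := hδ
  have h1 : Le (tp 1) (tp h * q : LaurentSeries (ZMod p)) := by
    rw [le_iff (tp_ne 1) (mul_ne_zero (tp_ne h) hq),
      Pool.Agent.Y748.UF.ord_mul (tp_ne h) hq, tp_ord, tp_ord]
    exact hh
  have h2 := Le.mul hz h1
  have h3 : z * (tp h * q) = tp h * z * q := by ring
  rwa [h3] at h2

theorem bb_iff {u w s x y : LaurentSeries (ZMod p)} (hx : u - x ≠ 0) (hy : w - y ≠ 0) :
    BB (tt p) p u w s x y ↔ (s / ((u - x) * (w - y))).coeff 0 = 0 := by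
  have h5 : (u - x) * (w - y) ≠ 0 := mul_ne_zero hx hy
  constructor
  · rintro ⟨z, h6, h7⟩
    have h8 : z = s / ((u - x) * (w - y)) := by rw [eq_div_iff h5, h6]
    rw [← h8]
    exact (Pool.Agent.Y15.UF.t_RES p z).1 h7
  · intro h6
    exact ⟨s / ((u - x) * (w - y)), div_mul_cancel₀ _ h5, (Pool.Agent.Y15.UF.t_RES p _).2 h6⟩

/-- a coded relation is locally constant -/
theorem bb_cont {u w s a b : LaurentSeries (ZMod p)} (hu : u - a ≠ 0) (hw : w - b ≠ 0) :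
    ∀ᶠ h : ℕ in Filter.atTop, ∀ x y : LaurentSeries (ZMod p), Le (tp h) (x - a) →
      Le (tp h) (y - b) → (BB (tt p) p u w s x y ↔ BB (tt p) p u w s a b) := by
  rw [Filter.eventually_atTop]
  refine ⟨(1 + 2 * |(u - a).order| + 2 * |(w - b).order| + |s.order|).toNat, fun h hh x y hx hy => ?_⟩
  have h0 : 1 + 2 * |(u - a).order| + 2 * |(w - b).order| + |s.order| ≤ (h : ℤ) :=
    Int.toNat_le.1 hh
  have i1 := abs_nonneg s.order
  have i2 := neg_abs_le s.order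
  have i3 := abs_nonneg (u - a).order
  have i4 := le_abs_self (u - a).order
  have i5 := abs_nonneg (w - b).order
  have i6 := le_abs_self (w - b).order
  obtain ⟨k1, k2⟩ := sub_small hu (by omega) hx
  obtain ⟨k3, k4⟩ := sub_small hw (by omega) hy
  have e1 : u - a - (x - a) = u - x := by ring
  have e2 : w - b - (y - b) = w - y := by ring
  rw [e1] at k1 k2
  rw [e2] at k3 k4
  rw [bb_iff k1 k3, bb_iff hu hw]
  by_cases hs : s = 0
  · rw [hs, zero_div, zero_div]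
  have key : Le (tp 1) (s / ((u - x) * (w - y)) - s / ((u - a) * (w - b))) := by
    have q1 : s / ((u - a) * (u - x) * (w - y)) ≠ 0 :=
      div_ne_zero hs (mul_ne_zero (mul_ne_zero hu k1) k3)
    have q2 : s / ((u - a) * (w - b) * (w - y)) ≠ 0 :=
      div_ne_zero hs (mul_ne_zero (mul_ne_zero hu hw) k3)
    have o1 : (s / ((u - a) * (u - x) * (w - y))).order =
        s.order - 2 * (u - a).order - (w - b).order := by
      have := Pool.Agent.Y748.UF.ord_mul q1 (mul_ne_zero (mul_ne_zero hu k1) k3)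
      rw [div_mul_cancel₀ _ (mul_ne_zero (mul_ne_zero hu k1) k3),
        Pool.Agent.Y748.UF.ord_mul (mul_ne_zero hu k1) k3, Pool.Agent.Y748.UF.ord_mul hu k1,
        k2, k4] at this
      omega
    have o2 : (s / ((u - a) * (w - b) * (w - y))).order =
        s.order - (u - a).order - 2 * (w - b).order := by
      have := Pool.Agent.Y748.UF.ord_mul q2 (mul_ne_zero (mul_ne_zero hu hw) k3)
      rw [div_mul_cancel₀ _ (mul_ne_zero (mul_ne_zero hu hw) k3),
        Pool.Agent.Y748.UF.ord_mul (mul_ne_zero hu hw) k3, Pool.Agent.Y748.UF.ord_mul hu hw,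
        k4] at this
      omega
    have l1 := le_mul_tp q1 (by rw [o1]; omega) hx
    have l2 := le_mul_tp q2 (by rw [o2]; omega) hy
    have l3 := l1.add l2
    have e3 : (x - a) * (s / ((u - a) * (u - x) * (w - y))) +
        (y - b) * (s / ((u - a) * (w - b) * (w - y))) =
        s / ((u - x) * (w - y)) - s / ((u - a) * (w - b)) := by
      field_simp
      ring
    rwa [e3] at l3
  rw [le_tp_sub] at key
  rw [key 0 (by norm_num)]

/-- all relations on a finite set are coded, also near the set -/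
theorem code_near (S : Set (LaurentSeries (ZMod p))) (hS : S.Finite) :
    ∃ u w : LaurentSeries (ZMod p), ∀ Rel : LaurentSeries (ZMod p) → LaurentSeries (ZMod p) → Prop,
      ∃ s, ∀ᶠ h : ℕ in Filter.atTop, ∀ a ∈ S, ∀ b ∈ S, ∀ x y, Le (tp h) (x - a) →
        Le (tp h) (y - b) → (BB (tt p) p u w s x y ↔ Rel a b) := by
  obtain ⟨u, w, h1, h2⟩ := Pool.Agent.Y528.UF.t_COD p (LaurentSeries (ZMod p)) (lam p)
    (lam_nondeg p) hS.toFinset
  have hu : ∀ a ∈ S, u - a ≠ 0 := fun a ha => sub_ne_zero.2 (h1 a (hS.mem_toFinset.2 ha)).1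
  have hw : ∀ a ∈ S, w - a ≠ 0 := fun a ha => sub_ne_zero.2 (h1 a (hS.mem_toFinset.2 ha)).2
  refine ⟨u, w, fun Rel => ?_⟩
  obtain ⟨s, hs⟩ := h2 Rel
  refine ⟨s, ?_⟩
  have h3 : ∀ᶠ h : ℕ in Filter.atTop, ∀ a ∈ hS.toFinset, ∀ b ∈ hS.toFinset, ∀ x y,
      Le (tp h) (x - a) → Le (tp h) (y - b) →
        (BB (tt p) p u w s x y ↔ BB (tt p) p u w s a b) := by
    rw [Filter.eventually_all_finset]
    intro a ha
    rw [Filter.eventually_all_finset]
    intro b hb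
    exact bb_cont (hu a (hS.mem_toFinset.1 ha)) (hw b (hS.mem_toFinset.1 hb))
  refine h3.mono fun h h4 a ha b hb x y hx hy => ?_
  rw [h4 a (hS.mem_toFinset.2 ha) b (hS.mem_toFinset.2 hb) x y hx hy,
    ← hs a (hS.mem_toFinset.2 ha) b (hS.mem_toFinset.2 hb), bb_iff (hu a ha) (hw b hb)]
  rfl

/-! ### sets near finite sets -/

/-- `X` and `S` have the same elements modulo `t ^ h` -/
def NearS (X S : Set (LaurentSeries (ZMod p))) (h : ℕ) : Prop :=
  (∀ x ∈ X, ∃ a ∈ S, Le (tp h) (x - a)) ∧ ∀ a ∈ S, ∃ x ∈ X, Le (tp h) (x - a)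

/-- the elements of `S` are not congruent modulo `c` -/
def Sep (c : LaurentSeries (ZMod p)) (S : Set (LaurentSeries (ZMod p))) : Prop :=
  ∀ a ∈ S, ∀ b ∈ S, Le c (a - b) → a = b

theorem sep_iff {c : LaurentSeries (ZMod p)} (hc : c ≠ 0) {S : Set (LaurentSeries (ZMod p))}
    (hS : Sep c S) {h : ℕ} (hh : c.order ≤ h) {a b x y : LaurentSeries (ZMod p)} (ha : a ∈ S)
    (hb : b ∈ S) (hx : Le (tp h) (x - a)) (hy : Le (tp h) (y - b)) : Le c (x - y) ↔ a = b := by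
  have hx' := le_tp_of hc hh hx
  have hy' := le_tp_of hc hh hy
  constructor
  · intro h1
    exact hS a ha b hb (cg_trans (cg_symm hx') (cg_trans h1 hy'))
  · rintro rfl
    exact cg_trans hx' (cg_symm hy')

theorem ev_le (z : ℤ) : ∀ᶠ h : ℕ in Filter.atTop, z ≤ (h : ℤ) := by
  rw [Filter.eventually_atTop]
  exact ⟨z.toNat, fun h hh => Int.toNat_le.1 hh⟩

/-- a finite set is separated -/
theorem ev_sep {S : Set (LaurentSeries (ZMod p))} (hS : S.Finite) :
    ∀ᶠ h : ℕ in Filter.atTop, Sep (tp h) S := by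
  have h3 : ∀ᶠ h : ℕ in Filter.atTop, ∀ a ∈ hS.toFinset, ∀ b ∈ hS.toFinset,
      Le (tp h) (a - b) → a = b := by
    rw [Filter.eventually_all_finset]
    intro a _
    rw [Filter.eventually_all_finset]
    intro b _
    refine (ev_le ((a - b).order + 1)).mono fun h h1 h2 => ?_
    by_contra hc
    rw [le_iff (tp_ne _) (sub_ne_zero.2 hc), tp_ord] at h2
    omega
  exact h3.mono fun h h4 a ha b hb => h4 a (hS.mem_toFinset.2 ha) b (hS.mem_toFinset.2 hb)

variable {R : LaurentSeries (ZMod p) → (ℕ → LaurentSeries (ZMod p)) → Prop}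

theorem nu_near {S : Set (LaurentSeries (ZMod p))} {r : ℕ → LaurentSeries (ZMod p)}
    (hr : r 0 ≠ 0) (hS : Sep (r 0) S) {h : ℕ} (hh : (r 0).order ≤ h)
    (hn : NearS {x | Mm R x r} S h) : nu R r = S.ncard := by
  refine ncard_rel (fun α a => ∃ x, Mm R x r ∧ α = (Quotient.mk (sd (r 0)) x) ∧
    Le (tp h) (x - a)) ?_ ?_ ?_
  · rintro _ ⟨x, hx, rfl⟩
    obtain ⟨a, ha, hxa⟩ := hn.1 x hx
    exact ⟨a, ha, x, hx, rfl, hxa⟩
  · intro a ha
    obtain ⟨x, hx, hxa⟩ := hn.2 a ha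
    exact ⟨_, ⟨x, hx, rfl⟩, x, hx, rfl, hxa⟩
  · rintro _ - _ - a ha b hb ⟨x, hx, rfl, hxa⟩ ⟨y, hy, rfl, hyb⟩
    rw [mk_eq]
    exact sep_iff hr hS hh ha hb hxa hyb

theorem E0_near {S : Set (LaurentSeries (ZMod p))} (hS : S.Finite) {c : LaurentSeries (ZMod p)}
    (hc : c ≠ 0) (hsep : Sep c S) : ∀ᶠ h : ℕ in Filter.atTop,
      ∀ r r' : ℕ → LaurentSeries (ZMod p), r 0 = c → r' 0 = c → NearS {x | Mm R x r} S h →
        NearS {x | Mm R x r'} S h → E0 R r r' := by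
  obtain ⟨u, w, h1⟩ := code_near S hS
  obtain ⟨s, h2⟩ := h1 (fun a b => a = b)
  filter_upwards [h2, ev_le c.order] with h h3 h4 r r' hr hr' hn hn'
  refine ⟨cns (tt p) (cns u (cns w (fun _ => s))), fun e he => ?_, fun f hf => ?_,
    fun e he0 he1 he2 he3 hb hb' => ?_⟩
  · obtain ⟨a, ha, hxa⟩ := hn.1 _ he
    obtain ⟨y, hy, hya⟩ := hn'.2 a ha
    exact ⟨fun _ => y, hy, (h3 a ha a ha _ _ hxa hya).2 rfl⟩
  · obtain ⟨a, ha, hya⟩ := hn'.1 _ hf
    obtain ⟨x, hx, hxa⟩ := hn.2 a ha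
    exact ⟨fun _ => x, hx, (h3 a ha a ha _ _ hxa hya).2 rfl⟩
  · obtain ⟨a0, ha0, k0⟩ := hn.1 _ he0
    obtain ⟨a1, ha1, k1⟩ := hn.1 _ he1
    obtain ⟨a2, ha2, k2⟩ := hn'.1 _ he2
    obtain ⟨a3, ha3, k3⟩ := hn'.1 _ he3
    have b1 : a0 = a2 := (h3 a0 ha0 a2 ha2 _ _ k0 k2).1 hb
    have b2 : a1 = a3 := (h3 a1 ha1 a3 ha3 _ _ k1 k3).1 hb'
    rw [hr, hr', sep_iff hc hsep h4 ha0 ha1 k0 k1, sep_iff hc hsep h4 ha2 ha3 k2 k3, b1, b2]
    exact ⟨id, id⟩

end Pool.Agent.K9h38.VL
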