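import Pool.Agent.K9h38.VL.Lim

/-! # Finite limits of definable families -/

set_option autoImplicit false

namespace Pool.Agent.K9h38.VL

open Function Pool.Agent.Y924.EL Pool.Agent.Y924.UF Pool.Agent.K9h38.VG

variable {p : ℕ} [Fact p.Prime]

/-- the family with coded subsets -/
def Sb (R0 : LaurentSeries (ZMod p) → (ℕ → LaurentSeries (ZMod p)) → Prop)
    (x : LaurentSeries (ZMod p)) (u : ℕ → LaurentSeries (ZMod p)) : Prop :=
  R0 x (fun n => u (n + 4)) ∧ BB (u 0) p (u 1) (u 2) (u 3) x x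

theorem df_Sb {P : Set (LaurentSeries (ZMod p))}
    {R0 : LaurentSeries (ZMod p) → (ℕ → LaurentSeries (ZMod p)) → Prop}
    (hR : Df P (fun w => R0 (w 0) (fun n => w (n + 1)))) :
    Df P (fun w => Sb R0 (w 0) (fun n => w (n + 1))) :=
  (df_R hR (DFn.var 0) (fun n => n + 5)).and (df_BB p (DFn.var 1) (DFn.var 2) (DFn.var 3)
    (DFn.var 4) (DFn.var 0) (DFn.var 0))

theorem exists_good {R0 : LaurentSeries (ZMod p) → (ℕ → LaurentSeries (ZMod p)) → Prop}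
    (h : ∀ n : ℕ, ∃ S : Set (LaurentSeries (ZMod p)), S.Finite ∧ n ≤ S.ncard ∧
      ∀ h : ℕ, ∃ u, NearS {x | x ∈ OO p ∧ R0 x u} S h) (n : ℕ) :
    ∃ r, Good (Sb R0) r ∧ nu (Sb R0) r = n := by
  obtain ⟨S, hS, hnS, hlim⟩ := h n
  obtain ⟨S', hS'S, hS'n⟩ := Set.exists_subset_card_eq hnS
  have hS' : S'.Finite := hS.subset hS'S
  obtain ⟨u, w, hcode⟩ := code_near S hS
  obtain ⟨s, hs⟩ := hcode (fun a _ => a ∈ S')
  obtain ⟨h1, hsep⟩ := (ev_sep hS').exists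
  have hE := E0_near (R := Sb R0) hS' (tp_ne h1) hsep
  choose v hv using hlim
  let r : ℕ → ℕ → LaurentSeries (ZMod p) := fun h =>
    cns (tp h1) (cns (tt p) (cns u (cns w (cns s (v h)))))
  have hnear : ∀ᶠ h : ℕ in Filter.atTop, NearS {x | Mm (Sb R0) x (r h)} S' h := by
    refine hs.mono fun h h2 => ?_
    refine ⟨?_, fun a ha => ?_⟩
    · rintro x ⟨hx1, hx2, hx3⟩
      obtain ⟨a, ha, hxa⟩ := (hv h).1 x ⟨hx1, hx2⟩
      exact ⟨a, (h2 a ha a ha x x hxa hxa).1 hx3, hxa⟩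
    · obtain ⟨x, ⟨hx1, hx2⟩, hxa⟩ := (hv h).2 a (hS'S ha)
      exact ⟨x, ⟨hx1, hx2, (h2 a (hS'S ha) a (hS'S ha) x x hxa hxa).2 ha⟩, hxa⟩
  obtain ⟨N, hN⟩ := Filter.eventually_atTop.1 ((hnear.and hE).and (ev_le (tp h1 :
    LaurentSeries (ZMod p)).order))
  obtain ⟨⟨a1, a2⟩, a3⟩ := hN N le_rfl
  refine ⟨r N, ⟨tp_ne h1, fun d hd => ?_⟩, ?_⟩
  · obtain ⟨M, hM1, hM2⟩ : ∃ M : ℕ, N ≤ M ∧ (d 0).order ≤ M :=
      ⟨N + (d 0).order.toNat, by omega, by have := Int.self_le_toNat (d 0).order; push_cast; omega⟩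
    obtain ⟨⟨b1, b2⟩, b3⟩ := hN M hM1
    have a1' : NearS {x | Mm (Sb R0) x (r M)} S' N := by
      refine ⟨fun x hx => ?_, fun a ha => ?_⟩
      · obtain ⟨a, ha, hxa⟩ := b1.1 x hx
        exact ⟨a, ha, le_tp_tp (by exact_mod_cast hM1) hxa⟩
      · obtain ⟨x, hx, hxa⟩ := b1.2 a ha
        exact ⟨x, hx, le_tp_tp (by exact_mod_cast hM1) hxa⟩
    refine ⟨r M, ⟨rfl, a2 (r N) (r M) rfl rfl a1 a1'⟩, fun e he0 he1 hle => ?_⟩
    obtain ⟨x0, hx0, k0⟩ := b1.1 _ he0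
    obtain ⟨x1, hx1, k1⟩ := b1.1 _ he1
    have h5 : x0 = x1 := (sep_iff (tp_ne h1) hsep b3 hx0 hx1 k0 k1).1 hle
    subst h5
    have h6 : Le (tp (M : ℤ)) (e 0 - e 1) := cg_trans k0 (cg_symm k1)
    exact le_tp_of hd hM2 h6
  · rw [nu_near (R := Sb R0) (r := r N) (S := S') (tp_ne h1) hsep a3 a1, hS'n]

/-- `X` is contained in at most `C` classes modulo `t ^ r` -/
def FewC (C : ℕ) (r : ℤ) (X : Set (LaurentSeries (ZMod p))) : Prop :=
  ∃ G : Finset (LaurentSeries (ZMod p)), G.card ≤ C ∧ ∀ x ∈ X, ∃ y ∈ G, Le (tp r) (x - y)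

theorem enum {C : ℕ} {G : Finset (LaurentSeries (ZMod p))} (hG : G.card ≤ C) :
    ∃ g : Fin C → LaurentSeries (ZMod p), ∀ y ∈ G, ∃ i, g i = y := by
  classical
  refine ⟨fun i => if h : (i : ℕ) < G.card then (G.equivFin.symm ⟨i, h⟩ : LaurentSeries (ZMod p))
    else 0, fun y hy => ?_⟩
  refine ⟨⟨(G.equivFin ⟨y, hy⟩ : ℕ), lt_of_lt_of_le (G.equivFin ⟨y, hy⟩).2 hG⟩, ?_⟩
  beta_reduce
  rw [dif_pos (G.equivFin ⟨y, hy⟩).2]
  simp

/-- either arithmetic is reducible, or the numbers of classes grow -/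
theorem growth {P : Set (LaurentSeries (ZMod p))}
    {R0 : LaurentSeries (ZMod p) → (ℕ → LaurentSeries (ZMod p)) → Prop}
    (hR : Df P (fun w => R0 (w 0) (fun n => w (n + 1)))) :
    (∃ F : ℕ → ℕ, Primrec F ∧ ∀ ψ : Fm, ψ.fv = ∅ → ((∀ n : ℕ → ℕ, Sat (∅ : Set ℕ) ψ n) ↔
      ∃ χ : Fm, χ.code = F ψ.code ∧ χ.fv = ∅ ∧ ∀ v, Sat P χ v)) ∨
    ∃ N : ℕ, ∀ D : ℕ, ∃ h : ℕ, ∀ u, FewC D h {x | x ∈ OO p ∧ R0 x u} →
      FewC N D {x | x ∈ OO p ∧ R0 x u} := by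
  classical
  by_cases h : ∀ n : ℕ, ∃ S : Set (LaurentSeries (ZMod p)), S.Finite ∧ n ≤ S.ncard ∧
      ∀ h : ℕ, ∃ u, NearS {x | x ∈ OO p ∧ R0 x u} S h
  · exact Or.inl (arith_of_good (df_Sb hR) (exists_good h))
  · right
    push Not at h
    obtain ⟨N, hN⟩ := h
    refine ⟨N, fun D => ?_⟩
    by_contra hc
    push Not at hc
    choose u hu1 hu2 using hc
    have hne : ∀ k, ∃ x, x ∈ OO p ∧ R0 x (u k) := by
      intro k
      by_contra h1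
      push Not at h1
      exact hu2 k ⟨∅, by simp, fun x hx => absurd hx.2 (h1 x hx.1)⟩
    have h1 : ∀ k, ∃ f : Fin D → LaurentSeries (ZMod p),
        (∀ i, f i ∈ OO p ∧ R0 (f i) (u k)) ∧
        ∀ x, x ∈ OO p → R0 x (u k) → ∃ i, Le (tp k) (x - f i) := by
      intro k
      obtain ⟨G, hG, hG2⟩ := hu1 k
      obtain ⟨g, hg⟩ := enum hG
      obtain ⟨x0, hx0⟩ := hne k
      refine ⟨fun i => if h : ∃ x, (x ∈ OO p ∧ R0 x (u k)) ∧ Le (tp k) (x - g i) then h.choose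
        else x0, fun i => ?_, fun x hx hx2 => ?_⟩
      · beta_reduce
        split_ifs with h
        · exact h.choose_spec.1
        · exact hx0
      · obtain ⟨y, hy, hxy⟩ := hG2 x ⟨hx, hx2⟩
        obtain ⟨i, rfl⟩ := hg y hy
        have h : ∃ x, (x ∈ OO p ∧ R0 x (u k)) ∧ Le (tp k) (x - g i) := ⟨x, ⟨hx, hx2⟩, hxy⟩
        refine ⟨i, ?_⟩
        beta_reduce
        rw [dif_pos h]
        exact cg_trans hxy (cg_symm h.choose_spec.2)
    choose f hf hf2 using h1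
    obtain ⟨y, hy, hy2⟩ := exists_lims f fun k i => (hf k i).1
    have hnear : ∀ h k : ℕ, h ≤ k → (∀ i, Le (tp h) (f k i - y i)) →
        NearS {x | x ∈ OO p ∧ R0 x (u k)} (Set.range y) h := by
      intro h k hk hk2
      refine ⟨fun x hx => ?_, ?_⟩
      · obtain ⟨i, hi⟩ := hf2 k x hx.1 hx.2
        exact ⟨y i, ⟨i, rfl⟩, cg_trans (le_tp_tp (by exact_mod_cast hk) hi) (hk2 i)⟩
      · rintro _ ⟨i, rfl⟩
        exact ⟨f k i, hf k i, hk2 i⟩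
    have hcard : (Set.range y).ncard < N := by
      by_contra hc
      push Not at hc
      obtain ⟨h0, hh0⟩ := hN (Set.range y) (Set.finite_range y) hc
      obtain ⟨k, hk, hk2⟩ := hy2 h0
      exact hh0 (u k) (hnear h0 k hk hk2)
    obtain ⟨k, hk, hk2⟩ := hy2 D
    refine hu2 k ⟨(Set.finite_range y).toFinset, ?_, fun x hx => ?_⟩
    · rw [← Set.ncard_eq_toFinset_card _ (Set.finite_range y)]
      exact hcard.le
    · obtain ⟨a, ha, hxa⟩ := (hnear D k hk hk2).1 x hx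
      exact ⟨a, (Set.finite_range y).mem_toFinset.2 ha, hxa⟩

end Pool.Agent.K9h38.VL
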