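import Pool.Agent.K9h38.VL.Prd

/-! # Thick finite sets: limits -/

set_option autoImplicit false

namespace Pool.Agent.K9h38.VL

open Function Pool.Agent.Y924.EL Pool.Agent.Y924.UF Pool.Agent.K9h38.VG

variable {p : ℕ} [Fact p.Prime]

/-- limits of sequences in the valuation ring -/
theorem exists_lim (x : ℕ → LaurentSeries (ZMod p)) (hx : ∀ k, x k ∈ OO p) :
    ∃ y : LaurentSeries (ZMod p), y ∈ OO p ∧
      ∀ h : ℕ, ∀ᶠ k in (Filter.hyperfilter ℕ : Filter ℕ), Le (tp h) (x k - y) := by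
  have h1 : ∀ i : ℕ, ∃ a : ZMod p, ∀ᶠ k in (Filter.hyperfilter ℕ : Filter ℕ),
      (x k).coeff (i : ℤ) = a := by
    intro i
    obtain ⟨a, ha⟩ := Ultrafilter.eq_pure_of_finite
      ((Filter.hyperfilter ℕ).map fun k => (x k).coeff (i : ℤ))
    refine ⟨a, ?_⟩
    have h2 : ({a} : Set (ZMod p)) ∈ (Filter.hyperfilter ℕ).map fun k => (x k).coeff (i : ℤ) := by
      rw [ha]
      exact Set.mem_singleton a
    exact h2
  choose a ha using h1
  refine ⟨algebraMap (PowerSeries (ZMod p)) (LaurentSeries (ZMod p)) (PowerSeries.mk a),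
    ⟨_, rfl⟩, fun h => ?_⟩
  have h2 : ∀ᶠ k in (Filter.hyperfilter ℕ : Filter ℕ), ∀ i ∈ Finset.range h,
      (x k).coeff (i : ℤ) = a i := by
    rw [Filter.eventually_all_finset]
    exact fun i _ => ha i
  refine h2.mono fun k hk => ?_
  rw [le_tp_sub]
  intro n hn
  rw [LaurentSeries.coe_algebraMap, PowerSeries.coeff_coe]
  split_ifs with h0
  · exact (Pool.Agent.Y155.UF.mem_OO _).1 (hx k) _ h0
  · obtain ⟨i, rfl⟩ := Int.eq_ofNat_of_zero_le (not_lt.1 h0)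
    rw [PowerSeries.coeff_mk]
    exact hk i (by simpa using hn)

theorem ev_ge (n : ℕ) : ∀ᶠ k in (Filter.hyperfilter ℕ : Filter ℕ), n ≤ k :=
  (Filter.eventually_ge_atTop n).filter_mono Nat.hyperfilter_le_atTop

/-- limits of sequences of families of elements -/
theorem exists_lims {ι : Type} [Finite ι] (x : ℕ → ι → LaurentSeries (ZMod p))
    (hx : ∀ k i, x k i ∈ OO p) : ∃ y : ι → LaurentSeries (ZMod p), (∀ i, y i ∈ OO p) ∧
      ∀ h : ℕ, ∃ k, h ≤ k ∧ ∀ i, Le (tp h) (x k i - y i) := by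
  choose y hy hy2 using fun i => exists_lim (fun k => x k i) fun k => hx k i
  refine ⟨y, hy, fun h => ?_⟩
  have h1 : ∀ᶠ k in (Filter.hyperfilter ℕ : Filter ℕ), ∀ i, Le (tp h) (x k i - y i) :=
    Filter.eventually_all.2 fun i => hy2 i h
  obtain ⟨k, h2, h3⟩ := ((ev_ge h).and h1).exists
  exact ⟨k, h2, h3⟩

variable {R : LaurentSeries (ZMod p) → (ℕ → LaurentSeries (ZMod p)) → Prop}

/-- representatives of the classes -/
theorem reps {r : ℕ → LaurentSeries (ZMod p)} (hr : r 0 ≠ 0) {n : ℕ} (hn : nu R r = n) :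
    ∃ f : Fin n → LaurentSeries (ZMod p), (∀ i, Mm R (f i) r) ∧
      (∀ i j, Le (r 0) (f i - f j) → i = j) ∧ ∀ x, Mm R x r → ∃ i, Le (r 0) (x - f i) := by
  classical
  have hfin := fin_nu (R := R) hr
  have := hfin.to_subtype
  have hcard : Nat.card (Cl (r 0) {x | Mm R x r}) = n := by
    rw [Nat.card_coe_set_eq]
    exact hn
  let e := (Finite.equivFinOfCardEq hcard).symm
  choose f hf hf2 using fun i => (e i).2
  refine ⟨f, hf, fun i j hij => ?_, fun x hx => ?_⟩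
  · have h1 := mk_eq.2 hij
    have h2 : (e i : Quotient (sd (r 0))) = e j := by
      rw [← hf2 i, ← hf2 j]
      exact h1
    exact e.injective (Subtype.ext h2)
  · let α : Cl (r 0) {x | Mm R x r} := ⟨Quotient.mk (sd (r 0)) x, x, hx, rfl⟩
    refine ⟨e.symm α, ?_⟩
    have h1 := hf2 (e.symm α)
    rw [Equiv.apply_symm_apply] at h1
    exact cg_symm (mk_eq.1 h1)

theorem good_lim {r : ℕ → LaurentSeries (ZMod p)} (hg : Good R r) :
    ∃ S : Set (LaurentSeries (ZMod p)), S.Finite ∧ S.ncard = nu R r ∧ Sep (r 0) S ∧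
      ∀ h : ℕ, ∃ r', Ch R r r' ∧ NearS {x | Mm R x r'} S h := by
  obtain ⟨hr, hg⟩ := hg
  have h1 : ∀ k : ℕ, ∃ r', Ch R r r' ∧ (∀ x y, Mm R x r' → Mm R y r' → Le (r' 0) (x - y) →
      Le (tp k) (x - y)) ∧ ∃ f : Fin (nu R r) → LaurentSeries (ZMod p), (∀ i, Mm R (f i) r') ∧
      (∀ i j, Le (r' 0) (f i - f j) → i = j) ∧ ∀ x, Mm R x r' → ∃ i, Le (r' 0) (x - f i) := by
    intro k
    obtain ⟨r', h2, h3⟩ := hg (fun _ => tp k) (tp_ne _)
    refine ⟨r', h2, fun x y hx hy hxy => h3 (cns x (fun _ => y)) hx hy hxy, ?_⟩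
    exact reps (by rw [h2.1]; exact hr) h2.2.nu_eq.symm
  choose r' hc hd f hf hf2 hf3 using h1
  obtain ⟨y, hy, hy2⟩ := exists_lims f fun k i => (hf k i).1
  have hinj : ∀ i j, Le (r 0) (y i - y j) → i = j := by
    intro i j hij
    obtain ⟨k, -, hk⟩ := hy2 (r 0).order.toNat
    have h2 : (r 0).order ≤ (r 0).order.toNat := Int.self_le_toNat _
    refine hf2 k i j ?_
    rw [(hc k).1]
    exact cg_trans (le_tp_of hr h2 (hk i)) (cg_trans hij (cg_symm (le_tp_of hr h2 (hk j))))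
  refine ⟨Set.range y, Set.finite_range y, ?_, ?_, fun h => ?_⟩
  · have hi : Injective y := fun i j hij => hinj i j (by rw [hij, sub_self]; exact Le.zero)
    rw [← Set.image_univ, Set.ncard_image_of_injective _ hi, Set.ncard_univ, Nat.card_fin]
  · rintro _ ⟨i, rfl⟩ _ ⟨j, rfl⟩ hij
    rw [hinj i j hij]
  · obtain ⟨k, hk, hk2⟩ := hy2 h
    refine ⟨r' k, hc k, fun x hx => ?_, ?_⟩
    · obtain ⟨i, hi⟩ := hf3 k x hx
      refine ⟨y i, ⟨i, rfl⟩, ?_⟩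
      exact cg_trans (le_tp_tp (by exact_mod_cast hk) (hd k x (f k i) hx (hf k i) hi)) (hk2 i)
    · rintro _ ⟨i, rfl⟩
      exact ⟨f k i, hf k i, hk2 i⟩

theorem T_of {r1 r2 r3 r4 : ℕ → LaurentSeries (ZMod p)} (g1 : Good R r1) (g2 : Good R r2)
    (g3 : Good R r3) (g4 : Good R r4) (h : nu R r1 * nu R r2 + nu R r3 = nu R r4) :
    T R r1 r2 r3 r4 := by
  obtain ⟨S1, f1, n1, s1, l1⟩ := good_lim g1
  obtain ⟨S2, f2, n2, s2, l2⟩ := good_lim g2
  obtain ⟨S3, f3, n3, s3, l3⟩ := good_lim g3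
  obtain ⟨S4, f4, n4, s4, l4⟩ := good_lim g4
  have h1 := T0_near (R := R) f1 f2 f3 f4 (by rw [n1, n2, n3, n4, h]) g1.1 g2.1 g3.1 g4.1 s1 s2
    s3 s4
  obtain ⟨N, h2⟩ := h1.exists
  obtain ⟨a, ha, ha2⟩ := l1 N
  obtain ⟨b, hb, hb2⟩ := l2 N
  obtain ⟨c, hc, hc2⟩ := l3 N
  obtain ⟨d, hd, hd2⟩ := l4 N
  exact ⟨a, ha, b, hb, c, hc, d, hd, h2 a b c d ha.1 hb.1 hc.1 hd.1 ha2 hb2 hc2 hd2⟩

/-- true arithmetic is reducible to the theory if there are good tuples for all numbers -/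
theorem arith_of_good {P : Set (LaurentSeries (ZMod p))}
    (hR : Df P (fun w => R (w 0) (fun n => w (n + 1)))) (hs : ∀ n : ℕ, ∃ r, Good R r ∧ nu R r = n) :
    ∃ F : ℕ → ℕ, Primrec F ∧ ∀ ψ : Fm, ψ.fv = ∅ → ((∀ n : ℕ → ℕ, Sat (∅ : Set ℕ) ψ n) ↔
      ∃ χ : Fm, χ.code = F ψ.code ∧ χ.fv = ∅ ∧ ∀ v, Sat P χ v) := by
  obtain ⟨e, he, he1⟩ := hs 1
  obtain ⟨z, hz, hz1⟩ := hs 0
  refine interpV (P := P) (N := Good R) (E := REq R) (O := On R) (A := RAdd R) (M := RMul R)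
    (nu R) (df_Good hR) (df_REq hR) (df_On hR) (df_RAdd hR) (df_RMul hR) ?_ ?_ ?_ ?_ hs
  · intro x y hx hy
    constructor
    · rintro ⟨e, ⟨ge, oe⟩, z, ⟨gz, oz⟩, h⟩
      have h1 := h.nu_eq hy.1
      rw [on_iff.1 oe, (zr_iff gz.1).1 oz] at h1
      omega
    · intro h
      refine ⟨e, ⟨he, on_iff.2 he1⟩, z, ⟨hz, (zr_iff hz.1).2 hz1⟩, T_of he hx hz hy ?_⟩
      rw [he1, hz1]
      omega
  · intro x hx
    exact on_iff
  · intro x y z' hx hy hz'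
    constructor
    · rintro ⟨e, ⟨ge, oe⟩, h⟩
      have h1 := h.nu_eq hz'.1
      rw [on_iff.1 oe] at h1
      omega
    · intro h
      refine ⟨e, ⟨he, on_iff.2 he1⟩, T_of he hx hy hz' ?_⟩
      rw [he1]
      omega
  · intro x y z' hx hy hz'
    constructor
    · rintro ⟨z, ⟨gz, oz⟩, h⟩
      have h1 := h.nu_eq hz'.1
      rw [(zr_iff gz.1).1 oz] at h1
      omega
    · intro h
      refine ⟨z, ⟨hz, (zr_iff hz.1).2 hz1⟩, T_of hx hy hz hz' ?_⟩
      rw [hz1]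
      omega

end Pool.Agent.K9h38.VL
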