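import Pool.Agent.K9h38.VG.Lin
import Pool.Agent.K9h38.VG.Gap
import Pool.Agent.K9h38.VL.Cnt

/-! # Definable sets with linear growth, the proof -/

set_option autoImplicit false

namespace Pool.Agent.K9h38.VL

open Function Pool.Agent.Y924.EL Pool.Agent.Y924.UF Pool.Agent.K9h38.VG

variable {p : ℕ} [Fact p.Prime] {P : Set (LaurentSeries (ZMod p))}
  {R : LaurentSeries (ZMod p) → (ℕ → LaurentSeries (ZMod p)) → Prop}

theorem enumN {G : Finset (LaurentSeries (ZMod p))} {K : ℕ} (hG : G.card ≤ K) :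
    ∃ f : ℕ → LaurentSeries (ZMod p), ∀ y ∈ G, ∃ l, l < K ∧ f l = y := by
  classical
  refine ⟨fun l => if h : l < G.card then (G.equivFin.symm ⟨l, h⟩ : LaurentSeries (ZMod p))
    else 0, fun y hy => ?_⟩
  refine ⟨G.equivFin ⟨y, hy⟩, lt_of_lt_of_le (G.equivFin ⟨y, hy⟩).2 hG, ?_⟩
  beta_reduce
  rw [dif_pos (G.equivFin ⟨y, hy⟩).2]
  simp

/-- the elements of order `i` are in at most `K` classes -/
def Cov (R : LaurentSeries (ZMod p) → (ℕ → LaurentSeries (ZMod p)) → Prop) (K : ℕ)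
    (b y : LaurentSeries (ZMod p)) (i : ℤ) (u : ℕ → LaurentSeries (ZMod p)) : Prop :=
  ∃ G : Finset (LaurentSeries (ZMod p)), G.card ≤ K ∧
    ∀ x, R (b * x) u → x ≠ 0 → x.order = i → ∃ z ∈ G, Le y (x - z)

theorem aw_iff {K : ℕ} {b y w : LaurentSeries (ZMod p)} {u : ℕ → LaurentSeries (ZMod p)}
    (hw : w ≠ 0) : Aw R K b y w u ↔ Cov R K b y w.order u := by
  classical
  constructor
  · rintro ⟨f, hf⟩
    refine ⟨(Finset.range K).image f, Finset.card_image_le.trans (by rw [Finset.card_range]),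
      fun x h1 h2 h3 => ?_⟩
    obtain ⟨l, hl, h4⟩ := hf x h1 h2 ((eqv_iff h2 hw).2 h3)
    exact ⟨f l, Finset.mem_image_of_mem _ (Finset.mem_range.2 hl), h4⟩
  · rintro ⟨G, hG, h⟩
    obtain ⟨f, hf⟩ := enumN hG
    refine ⟨f, fun x h1 h2 h3 => ?_⟩
    obtain ⟨z, hz, h4⟩ := h x h1 h2 ((eqv_iff h2 hw).1 h3)
    obtain ⟨l, hl, rfl⟩ := hf z hz
    exact ⟨l, hl, h4⟩

/-- most valuations have few classes -/
theorem few_bad {b : LaurentSeries (ZMod p)} {u : ℕ → LaurentSeries (ZMod p)} {C h : ℕ}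
    {G : Finset (LaurentSeries (ZMod p))} (hG : G.card ≤ C * (16 * h))
    (hcov : ∀ x, R (b * x) u → x ≠ 0 → 0 ≤ x.order → x.order < (16 * h : ℕ) →
      ∃ z ∈ G, Le (tp ((16 * h : ℕ) : ℤ)) (x - z)) (Bd : Finset ℕ)
    (hBd : ∀ n ∈ Bd, n < 16 * h ∧ ¬ Cov R (16 * C) b (tp ((16 * h : ℕ) : ℤ)) n u) :
    Bd.card ≤ h := by
  classical
  let F : ℕ → Finset (LaurentSeries (ZMod p)) := fun n => G.filter fun z => z.order = (n : ℤ)
  have h1 : ∀ n ∈ Bd, 16 * C + 1 ≤ (F n).card := by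
    intro n hn
    by_contra hc
    push Not at hc
    refine (hBd n hn).2 ⟨F n, by omega, fun x hx hx0 hxn => ?_⟩
    obtain ⟨z, hz, hxz⟩ := hcov x hx hx0 (by omega) (by
      rw [hxn]; exact_mod_cast (hBd n hn).1)
    refine ⟨z, Finset.mem_filter.2 ⟨hz, ?_⟩, hxz⟩
    have h2 := (sub_small hx0 (h := ((16 * h : ℕ) : ℤ)) (by
      rw [hxn]; exact_mod_cast (hBd n hn).1) hxz).2
    have e : x - (x - z) = z := by ring
    rw [e] at h2
    rw [h2, hxn]
  have h2 : (Bd.biUnion F).card = ∑ n ∈ Bd, (F n).card := by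
    refine Finset.card_biUnion fun m _ n _ hmn => ?_
    rw [Function.onFun, Finset.disjoint_left]
    intro z hz hz'
    have h3 := (Finset.mem_filter.1 hz).2
    have h4 := (Finset.mem_filter.1 hz').2
    exact hmn (by exact_mod_cast h3.symm.trans h4)
  have h3 : (Bd.biUnion F).card ≤ G.card := by
    refine Finset.card_le_card fun z hz => ?_
    obtain ⟨n, -, hzn⟩ := Finset.mem_biUnion.1 hz
    exact (Finset.mem_filter.1 hzn).1
  have h4 : Bd.card * (16 * C + 1) ≤ ∑ n ∈ Bd, (F n).card := by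
    rw [← smul_eq_mul]
    exact Finset.card_nsmul_le_sum _ _ _ h1
  have h5 : Bd.card * (16 * C + 1) ≤ h * (16 * C + 1) := by
    have : h * (16 * C + 1) = C * (16 * h) + h := by ring
    omega
  exact Nat.le_of_mul_le_mul_right h5 (by omega)

/-- each large valuation is a sum of two valuations with few classes -/
theorem exists_sum {h n : ℕ} {Q : ℕ → Prop}
    (hQ : ∀ Bd : Finset ℕ, (∀ m ∈ Bd, m < 16 * h ∧ ¬ Q m) → Bd.card ≤ h) (hn : 16 * h ≤ n)
    (hn2 : n < 17 * h) : ∃ a, h ≤ a ∧ a + h ≤ n ∧ Q a ∧ Q (n - a) := by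
  classical
  by_contra hc
  push Not at hc
  let B1 : Finset ℕ := (Finset.Icc h (15 * h)).filter fun a => ¬ Q a
  let B2 : Finset ℕ := (Finset.Icc h (15 * h)).filter fun a => ¬ Q (n - a)
  have h1 : B1.card ≤ h := hQ B1 fun m hm => by
    obtain ⟨h1, h2⟩ := Finset.mem_filter.1 hm
    rw [Finset.mem_Icc] at h1
    exact ⟨by omega, h2⟩
  have h2 : B2.card ≤ h := by
    have h3 : (B2.image fun a => n - a).card ≤ h := hQ _ fun m hm => by
      obtain ⟨a, ha, rfl⟩ := Finset.mem_image.1 hm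
      obtain ⟨h1, h2⟩ := Finset.mem_filter.1 ha
      rw [Finset.mem_Icc] at h1
      exact ⟨by omega, h2⟩
    rwa [Finset.card_image_of_injOn] at h3
    intro a ha b hb hab
    have h4 := (Finset.mem_filter.1 (Finset.mem_coe.1 ha)).1
    have h5 := (Finset.mem_filter.1 (Finset.mem_coe.1 hb)).1
    rw [Finset.mem_Icc] at h4 h5
    beta_reduce at hab
    omega
  have h3 : Finset.Icc h (15 * h) ⊆ B1 ∪ B2 := by
    intro a ha
    have ha' := Finset.mem_Icc.1 ha
    rw [Finset.mem_union]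
    by_cases hq : Q a
    · exact Or.inr (Finset.mem_filter.2 ⟨ha, hc a ha'.1 (by omega) hq⟩)
    · exact Or.inl (Finset.mem_filter.2 ⟨ha, hq⟩)
  have h4 := (Finset.card_le_card h3).trans (Finset.card_union_le _ _)
  rw [Nat.card_Icc] at h4
  omega

theorem arith_of_linear1 (hR : Df P (fun w => R (w 0) (fun n => w (n + 1)))) (C : ℕ)
    (hyp : ∀ h : ℕ, ∃ (u : ℕ → LaurentSeries (ZMod p)) (b : LaurentSeries (ZMod p)), 
      (∀ n : ℕ, n < 16 * h → ∃ x, R (b * x) u ∧ x ≠ 0 ∧ x.order = n) ∧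
      ∃ G : Finset (LaurentSeries (ZMod p)), G.card ≤ C * (16 * h) ∧
        ∀ x, R (b * x) u → x ≠ 0 → 0 ≤ x.order → x.order < (16 * h : ℕ) →
          ∃ z ∈ G, Le (tp ((16 * h : ℕ) : ℤ)) (x - z)) :
    ∃ F : ℕ → ℕ, Primrec F ∧ ∀ ψ : Fm, ψ.fv = ∅ → ((∀ n : ℕ → ℕ, Sat (∅ : Set ℕ) ψ n) ↔
      ∃ χ : Fm, χ.code = F ψ.code ∧ χ.fv = ∅ ∧ ∀ v, Sat P χ v) := by
  classical
  obtain ⟨φ2, hφ2⟩ := df_Pr (P := P) hR (16 * C)
  refine arith_of_sections φ2 (16 * C * (16 * C)) fun h => ?_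
  obtain ⟨u, b, hne, G, hG, hcov⟩ := hyp h
  have hbad := fun Bd => few_bad hG hcov Bd
  let Q : ℕ → Prop := fun n => Cov R (16 * C) b (tp ((16 * h : ℕ) : ℤ)) n u
  let u' : ℕ → LaurentSeries (ZMod p) := fun n => if n = 1 then b else if n = 2 then tp (h : ℤ) else
    if n = 3 then tp ((16 * h : ℕ) : ℤ) else u (n - 4)
  have hu' : ∀ z, (Sat P φ2 (update u' 0 z) ↔
      Pr R (16 * C) z b (tp (h : ℤ)) (tp ((16 * h : ℕ) : ℤ)) u) := by
    intro z
    rw [hφ2]
    have e : (fun n => update u' 0 z (n + 4)) = u := by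
      funext n
      rw [update_of_ne (by omega)]
      simp only [u']
      rw [if_neg (by omega), if_neg (by omega), if_neg (by omega)]
      congr 1
    change Pr R (16 * C) (update u' 0 z 0) (update u' 0 z 1) (update u' 0 z 2) (update u' 0 z 3)
      (fun n => update u' 0 z (n + 4)) ↔ _
    rw [e, update_self, update_of_ne (by omega), update_of_ne (by omega),
      update_of_ne (by omega)]
    exact Iff.rfl
  have om : ∀ {s t : LaurentSeries (ZMod p)}, s ≠ 0 → t ≠ 0 → (s * t).order = s.order + t.order :=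
    fun hs ht => Pool.Agent.Y748.UF.ord_mul hs ht
  have lt : ∀ {r : ℤ} {x : LaurentSeries (ZMod p)}, x ≠ 0 → (Le (tp r) x ↔ r ≤ x.order) :=
    fun hx => by rw [le_iff (tp_ne _) hx, tp_ord]
  refine ⟨u', ((16 * h : ℕ) : ℤ), fun i hi1 hi2 => ?_⟩
  obtain ⟨n, rfl⟩ := Int.eq_ofNat_of_zero_le (show (0 : ℤ) ≤ i by omega)
  have hn1 : 16 * h ≤ n := by exact_mod_cast hi1
  have hn2 : n < 17 * h := by
    have : (n : ℤ) < ((16 * h : ℕ) : ℤ) + h := hi2
    push_cast at this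
    omega
  have hex : ∃ a, h ≤ a ∧ a + h ≤ n ∧ Q a ∧ Q (n - a) := exists_sum (Q := Q) hbad hn1 hn2
  let a := Nat.find hex
  obtain ⟨ha1, ha2, ha3, ha4⟩ := Nat.find_spec hex
  change h ≤ a at ha1
  change a + h ≤ n at ha2
  change Cov R (16 * C) b (tp ((16 * h : ℕ) : ℤ)) (a : ℕ) u at ha3
  change Cov R (16 * C) b (tp ((16 * h : ℕ) : ℤ)) (n - a : ℕ) u at ha4
  have hmin : ∀ w w' : LaurentSeries (ZMod p), w ≠ 0 → w' ≠ 0 → w.order + w'.order = n →
      Le (tp (h : ℤ)) w → Le (tp (h : ℤ)) w' → Aw R (16 * C) b (tp ((16 * h : ℕ) : ℤ)) w u →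
      Aw R (16 * C) b (tp ((16 * h : ℕ) : ℤ)) w' u → (a : ℤ) ≤ w.order := by
    intro w w' hw hw' h1 h2 h3 h4 h5
    rw [lt hw] at h2
    rw [lt hw'] at h3
    rw [aw_iff hw] at h4
    rw [aw_iff hw'] at h5
    obtain ⟨k, hk⟩ := Int.eq_ofNat_of_zero_le (show (0 : ℤ) ≤ w.order by omega)
    have hk' : w'.order = ((n - k : ℕ) : ℤ) := by omega
    rw [hk] at h4
    rw [hk'] at h5
    have h6 : a ≤ k := Nat.find_min' hex ⟨by omega, by omega, h4, h5⟩
    omega
  refine ⟨?_, ?_⟩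
  · obtain ⟨x, hx, hx0, hxa⟩ := hne a (by omega)
    obtain ⟨x', hx', hx0', hxa'⟩ := hne (n - a) (by omega)
    refine ⟨x * x', (hu' _).2 ⟨x, hx0, x', hx0', rfl, hx, hx', (lt hx0).2 (by omega),
      (lt hx0').2 (by omega), (aw_iff hx0).2 (by rw [hxa]; exact ha3),
      (aw_iff hx0').2 (by rw [hxa']; exact ha4), ?_⟩, mul_ne_zero hx0 hx0', ?_⟩
    · intro w hw w' hw' h1 h2 h3 h4 h5
      rw [eqv_iff (mul_ne_zero hw hw') (mul_ne_zero hx0 hx0'), om hw hw', om hx0 hx0', hxa,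
        hxa'] at h1
      rw [le_iff hx0 hw, hxa]
      exact hmin w w' hw hw' (by omega) h2 h3 h4 h5
    · rw [om hx0 hx0', hxa, hxa']
      omega
  · obtain ⟨G1, hG1, hc1⟩ := ha3
    obtain ⟨G2, hG2, hc2⟩ := ha4
    refine ⟨Finset.image₂ (fun y y' => y * y') G1 G2,
      (Finset.card_image₂_le _ _ _).trans (Nat.mul_le_mul hG1 hG2), fun z hz hz0 hzn => ?_⟩
    obtain ⟨x, hx0, x', hx0', rfl, hx, hx', b1, b2, b3, b4, b5⟩ := (hu' _).1 hz
    rw [om hx0 hx0'] at hzn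
    have c1 := hmin x x' hx0 hx0' hzn b1 b2 b3 b4
    obtain ⟨w, hw, hwa⟩ := exists_ord (p := p) (a : ℤ)
    obtain ⟨w', hw', hwa'⟩ := exists_ord (p := p) ((n - a : ℕ) : ℤ)
    have c2 := b5 w hw w' hw' (by
      rw [eqv_iff (mul_ne_zero hw hw') (mul_ne_zero hx0 hx0'), om hw hw', om hx0 hx0', hwa, hwa']
      omega) ((lt hw).2 (by omega)) ((lt hw').2 (by omega))
      ((aw_iff hw).2 (by rw [hwa]; exact ⟨G1, hG1, hc1⟩))
      ((aw_iff hw').2 (by rw [hwa']; exact ⟨G2, hG2, hc2⟩))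
    rw [le_iff hx0 hw, hwa] at c2
    have c3 : x.order = a := by omega
    have c4 : x'.order = ((n - a : ℕ) : ℤ) := by omega
    obtain ⟨y, hy, hxy⟩ := hc1 x hx hx0 c3
    obtain ⟨y', hy', hxy'⟩ := hc2 x' hx' hx0' c4
    refine ⟨y * y', Finset.mem_image₂_of_mem hy hy', le_tp_sub.1 ?_⟩
    have key : ∀ {s t : LaurentSeries (ZMod p)}, Le (tp (h : ℤ)) s →
        Le (tp ((16 * h : ℕ) : ℤ)) t → Le (tp (((16 * h : ℕ) : ℤ) + h)) (s * t) := by
      rintro s t ⟨s', hs', rfl⟩ ⟨t', ht', rfl⟩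
      refine ⟨s' * t', O_mul hs' ht', ?_⟩
      have : (tp (((16 * h : ℕ) : ℤ) + h) : LaurentSeries (ZMod p)) =
          tp (h : ℤ) * tp ((16 * h : ℕ) : ℤ) := by
        rw [tp, tp, tp, HahnSeries.single_mul_single, one_mul, add_comm]
      rw [this]
      ring
    have d1 : Le (tp (h : ℤ)) y' := by
      have h6 : Le (tp (h : ℤ)) (x' - y') := le_tp_tp (by push_cast; omega) hxy'
      have h7 := b2.add h6.neg
      have e : x' + -(x' - y') = y' := by ring
      rwa [e] at h7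
    have d2 := (key b1 hxy').add (key d1 hxy)
    have e : x * (x' - y') + y' * (x - y) = x * x' - y * y' := by ring
    rwa [e] at d2

theorem tp_mul (r s : ℤ) (x : LaurentSeries (ZMod p)) : tp r * (tp s * x) = tp (r + s) * x := by
  rw [tp, tp, tp, ← mul_assoc, HahnSeries.single_mul_single, one_mul]

theorem tp_zero_mul (x : LaurentSeries (ZMod p)) : tp 0 * x = x := by
  rw [tp, HahnSeries.single_zero_one, one_mul]

theorem le_tp_mul (r s : ℤ) {x : LaurentSeries (ZMod p)} (h : Le (tp r) x) :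
    Le (tp (s + r)) (tp s * x) := by
  obtain ⟨z, hz, rfl⟩ := h
  exact ⟨z, hz, by rw [tp_mul, ← tp_mul s r z, tp_mul]⟩

theorem tt_pow (j : ℕ) : (tt p) ^ j = tp (j : ℤ) := by
  rw [tt, HahnSeries.single_pow, one_pow, tp]
  congr 1
  simp

/-- true arithmetic is reducible to the theory if the sets of a definable family, with valuations
in all short intervals, have linear growth -/
theorem arith_of_linear (φ : Fm) (C g : ℕ)
    (hyp : ∀ H : ℕ, ∃ (u : ℕ → LaurentSeries (ZMod p)) (m : ℤ),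
      (∀ i : ℤ, m ≤ i → i + g ≤ m + H → ∃ j : ℤ, i ≤ j ∧ j < i + g ∧
        ∃ x, Sat P φ (update u 0 x) ∧ x ≠ 0 ∧ x.order = j) ∧
      ∃ G : Finset (LaurentSeries (ZMod p)), G.card ≤ C * H ∧
        ∀ x, Sat P φ (update u 0 x) → x ≠ 0 → m ≤ x.order → x.order < m + H →
          ∃ y ∈ G, ∀ k < m + H, x.coeff k = y.coeff k) :
    ∃ F : ℕ → ℕ, Primrec F ∧ ∀ ψ : Fm, ψ.fv = ∅ → ((∀ n : ℕ → ℕ, Sat (∅ : Set ℕ) ψ n) ↔
      ∃ χ : Fm, χ.code = F ψ.code ∧ χ.fv = ∅ ∧ ∀ v, Sat P χ v) := by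
  classical
  refine arith_of_linear1 (P := P)
    (R := fun x u => GapR (fun z u => Sat P φ (update u 0 z)) g x (u 0) (fun n => u (n + 1)))
    (df_GapR (P := P) (R := fun z u => Sat P φ (update u 0 z)) (df_sat φ) g)
    (g * C * (1 + g)) fun h => ?_
  obtain ⟨u, m, h1, G, hG, h2⟩ := hyp (16 * h + g)
  have om : ∀ {s t : LaurentSeries (ZMod p)}, s ≠ 0 → t ≠ 0 → (s * t).order = s.order + t.order :=
    fun hs ht => Pool.Agent.Y748.UF.ord_mul hs ht
  simp only [Nat.cast_add, Nat.cast_mul, Nat.cast_ofNat] at h1 h2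
  refine ⟨cns (tt p) u, tp (m + g), fun n hn => ?_, ?_⟩
  · have hg : 0 < g := by
      rcases Nat.eq_zero_or_pos g with h0 | h0
      · subst h0
        obtain ⟨j, h3, h4, -⟩ := h1 m le_rfl (by push_cast; omega)
        push_cast at h4
        omega
      · exact h0
    obtain ⟨j, h3, h4, x, h5, h6, h7⟩ := h1 (m + g + n - g + 1) (by omega) (by omega)
    obtain ⟨l, hl⟩ := Int.eq_ofNat_of_zero_le (show 0 ≤ m + g + n - j by omega)
    have e : tp (m + g) * (tp (-(m + g)) * (tp (l : ℤ) * x)) = tp (l : ℤ) * x := by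
      rw [tp_mul, add_neg_cancel, tp_zero_mul]
    refine ⟨tp (-(m + g)) * (tp (l : ℤ) * x), ?_,
      mul_ne_zero (tp_ne _) (mul_ne_zero (tp_ne _) h6), ?_⟩
    · rw [e]
      exact ⟨l, by omega, x, h5, by rw [← tt_pow]; rfl⟩
    · rw [om (tp_ne _) (mul_ne_zero (tp_ne _) h6), om (tp_ne _) h6, tp_ord, tp_ord, h7]
      omega
  · rcases Nat.eq_zero_or_pos h with h0 | h0
    · subst h0
      refine ⟨∅, by simp, fun x _ _ h3 h4 => ?_⟩
      push_cast at h4
      omega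
    · refine ⟨(Finset.range g).biUnion fun j => G.image fun y => tp (-(m + g)) * (tp (j : ℤ) * y),
        ?_, fun x hx hx0 hx1 hx2 => ?_⟩
      · refine (Finset.card_biUnion_le_card_mul _ _ (C * (16 * h + g)) fun j _ =>
          Finset.card_image_le.trans hG).trans ?_
        rw [Finset.card_range]
        have h3 : 16 * h + g ≤ (1 + g) * (16 * h) := by nlinarith
        calc g * (C * (16 * h + g)) ≤ g * (C * ((1 + g) * (16 * h))) :=
              Nat.mul_le_mul_left _ (Nat.mul_le_mul_left _ h3)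
          _ = g * C * (1 + g) * (16 * h) := by ring
      · obtain ⟨j, hj, x', hx', hxx⟩ := hx
        have hxx' : tp (m + g) * x = tp (j : ℤ) * x' := by
          rw [hxx]
          change (tt p) ^ j * x' = _
          rw [tt_pow]
        have hx'0 : x' ≠ 0 := by
          rintro rfl
          rw [mul_zero] at hxx'
          exact mul_ne_zero (tp_ne _) hx0 hxx'
        have ho : m + g + x.order = j + x'.order := by
          have := congrArg HahnSeries.order hxx'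
          rw [om (tp_ne _) hx0, om (tp_ne _) hx'0, tp_ord, tp_ord] at this
          exact this
        push_cast at hx2
        obtain ⟨y, hy, hxy⟩ := h2 x' hx' hx'0 (by omega) (by omega)
        refine ⟨tp (-(m + g)) * (tp (j : ℤ) * y), ?_, ?_⟩
        · rw [Finset.mem_biUnion]
          exact ⟨j, Finset.mem_range.2 hj, Finset.mem_image_of_mem _ hy⟩
        · have e1 : x - tp (-(m + g)) * (tp (j : ℤ) * y) =
              tp (-(m + g)) * (tp (j : ℤ) * (x' - y)) := by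
            have e2 : x = tp (-(m + g)) * (tp (j : ℤ) * x') := by
              rw [← hxx', tp_mul, neg_add_cancel, tp_zero_mul]
            rw [mul_sub, mul_sub, ← e2]
          rw [e1]
          have h3 : Le (tp (m + (16 * h + g))) (x' - y) := le_tp_sub.2 hxy
          have h4 := le_tp_mul _ (-(m + g)) (le_tp_mul _ (j : ℤ) h3)
          exact le_tp_tp (by push_cast; omega) h4

/-- it is sufficient to have linear growth on infinitely many intervals -/
theorem arith_of_linear_inf (φ : Fm) (C g : ℕ)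
    (hyp : ∀ H0 : ℕ, ∃ H : ℕ, H0 ≤ H ∧ ∃ (u : ℕ → LaurentSeries (ZMod p)) (m : ℤ),
      (∀ i : ℤ, m ≤ i → i + g ≤ m + H → ∃ j : ℤ, i ≤ j ∧ j < i + g ∧
        ∃ x, Sat P φ (update u 0 x) ∧ x ≠ 0 ∧ x.order = j) ∧
      ∃ G : Finset (LaurentSeries (ZMod p)), G.card ≤ C * H ∧
        ∀ x, Sat P φ (update u 0 x) → x ≠ 0 → m ≤ x.order → x.order < m + H →
          ∃ y ∈ G, ∀ k < m + H, x.coeff k = y.coeff k) :
    ∃ F : ℕ → ℕ, Primrec F ∧ ∀ ψ : Fm, ψ.fv = ∅ → ((∀ n : ℕ → ℕ, Sat (∅ : Set ℕ) ψ n) ↔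
      ∃ χ : Fm, χ.code = F ψ.code ∧ χ.fv = ∅ ∧ ∀ v, Sat P χ v) := by
  classical
  refine arith_of_linear φ (2 * C) g fun H => ?_
  rcases Nat.eq_zero_or_pos H with hH | hH
  · subst hH
    obtain ⟨H', -, u, m, h1, G, hG, h2⟩ := hyp 0
    refine ⟨u, m, fun i hi hi2 => h1 i hi (by push_cast at hi2; omega), ∅, by simp,
      fun x _ _ h3 h4 => ?_⟩
    push_cast at h4
    omega
  obtain ⟨H', hH', u, m, h1, G, hG, h2⟩ := hyp H
  have hk1 : H' < (H' / H + 1) * H := by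
    rw [mul_comm]
    exact Nat.lt_mul_div_succ H' hH
  have hk2 : H' / H * H ≤ H' := Nat.div_mul_le_self _ _
  have hk0 : 1 ≤ H' / H := (Nat.one_le_div_iff hH).2 hH'
  set k := H' / H with hk
  let F : ℕ → Finset (LaurentSeries (ZMod p)) := fun s => G.filter fun z =>
    m + ((s * H : ℕ) : ℤ) ≤ z.order ∧ z.order < m + (((s + 1) * H : ℕ) : ℤ)
  obtain ⟨s, hs, hsF⟩ : ∃ s, s < k ∧ (F s).card ≤ 2 * C * H := by
    by_contra hc
    push Not at hc
    have a1 : ((Finset.range k).biUnion F).card = ∑ s ∈ Finset.range k, (F s).card := by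
      refine Finset.card_biUnion fun a _ b _ hab => ?_
      rw [Function.onFun, Finset.disjoint_left]
      intro z hz hz'
      obtain ⟨-, b1, b2⟩ := Finset.mem_filter.1 hz
      obtain ⟨-, b3, b4⟩ := Finset.mem_filter.1 hz'
      rcases lt_or_gt_of_ne hab with h | h
      · have h5 : (a + 1) * H ≤ b * H := Nat.mul_le_mul_right _ h
        have h6 : (((a + 1) * H : ℕ) : ℤ) ≤ ((b * H : ℕ) : ℤ) := by exact_mod_cast h5
        omega
      · have h5 : (b + 1) * H ≤ a * H := Nat.mul_le_mul_right _ h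
        have h6 : (((b + 1) * H : ℕ) : ℤ) ≤ ((a * H : ℕ) : ℤ) := by exact_mod_cast h5
        omega
    have a2 : ((Finset.range k).biUnion F).card ≤ G.card := by
      refine Finset.card_le_card fun z hz => ?_
      obtain ⟨n, -, hzn⟩ := Finset.mem_biUnion.1 hz
      exact (Finset.mem_filter.1 hzn).1
    have a3 : (Finset.range k).card * (2 * C * H + 1) ≤ ∑ s ∈ Finset.range k, (F s).card := by
      rw [← smul_eq_mul]
      exact Finset.card_nsmul_le_sum _ _ _ fun s hs => hc s (Finset.mem_range.1 hs)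
    rw [Finset.card_range] at a3
    have a4 : H' ≤ 2 * (k * H) := by nlinarith
    have a5 : C * H' ≤ C * (2 * (k * H)) := Nat.mul_le_mul_left _ a4
    have a6 : k * (2 * C * H + 1) = C * (2 * (k * H)) + k := by ring
    omega
  have hsk : (s + 1) * H ≤ k * H := Nat.mul_le_mul_right _ hs
  have hend : (((s + 1) * H : ℕ) : ℤ) ≤ H' := by exact_mod_cast hsk.trans hk2
  have hend2 : (((s + 1) * H : ℕ) : ℤ) = ((s * H : ℕ) : ℤ) + H := by push_cast; ring
  refine ⟨u, m + ((s * H : ℕ) : ℤ), fun i hi hi2 => h1 i (by omega) (by omega), F s, hsF,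
    fun x hx hx0 h3 h4 => ?_⟩
  obtain ⟨y, hy, hxy⟩ := h2 x hx hx0 (by omega) (by omega)
  refine ⟨y, Finset.mem_filter.2 ⟨hy, ?_⟩, fun j hj => hxy j (by omega)⟩
  have h5 := (sub_small hx0 (h := m + H') (by omega) (le_tp_sub.2 hxy)).2
  have e : x - (x - y) = y := by ring
  rw [e] at h5
  rw [h5]
  exact ⟨h3, by omega⟩

end Pool.Agent.K9h38.VL
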