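import Pool.Agent.K9h38.VL.Quad
import Mathlib.Algebra.Group.ForwardDiff

/-! # Polynomial functions on the value group, reduction to degree two -/

set_option autoImplicit false

namespace Pool.Agent.K9h38.VL

open Function Pool.Agent.Y924.EL Pool.Agent.Y924.UF Pool.Agent.K9h38.VG

variable {p : ℕ} [Fact p.Prime] {P : Set (LaurentSeries (ZMod p))}

theorem arith_of_quad
    {R : LaurentSeries (ZMod p) → LaurentSeries (ZMod p) → (ℕ → LaurentSeries (ZMod p)) → Prop}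
    (hR : D2 P R)
    (hq : ∀ H : ℕ, ∃ (u : ℕ → LaurentSeries (ZMod p)) (m : ℤ) (f : ℤ → ℤ) (c : ℤ),
      c ≠ 0 ∧ (∀ i, m ≤ i → i < m + H → ∀ j, VR R u i j ↔ j = f i) ∧
      ∀ i, m ≤ i → i + 2 < m + H → f i + f (i + 2) = c + 2 * f (i + 1)) :
    ∃ F : ℕ → ℕ, Primrec F ∧ ∀ ψ : Fm, ψ.fv = ∅ → ((∀ n : ℕ → ℕ, Sat (∅ : Set ℕ) ψ n) ↔
      ∃ χ : Fm, χ.code = F ψ.code ∧ χ.fv = ∅ ∧ ∀ v, Sat P χ v) := by
  have hnn : ∀ x : LaurentSeries (ZMod p), Nn x → ((x.order.toNat : ℕ) : ℤ) = x.order :=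
    fun x hx => Int.toNat_of_nonneg hx.nonneg
  refine interp (P := P) (N := Nn) (E := Eqv) (O := Un) (A := fun x y z => Eqv (x * y) z)
    (M := MQ R) (fun x => x.order.toNat) (df_Nn (DFn.var 0)) (df_Eqv (DFn.var 0) (DFn.var 1))
    (df_Un (DFn.var 0)) (df_Eqv ((DFn.var 0).mul (DFn.var 1)) (DFn.var 2)) (df_MQ hR)
    ?_ ?_ ?_ ?_ ?_
  · intro x y hx hy
    rw [eqv_iff hx.1 hy.1]
    have h1 := hnn x hx
    have h2 := hnn y hy
    omega
  · intro x hx
    rw [un_iff]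
    have := hnn x hx
    constructor
    · rintro ⟨-, h1⟩
      omega
    · intro h1
      exact ⟨hx.1, by omega⟩
  · intro x y z hx hy hz
    rw [eqv_iff (mul_ne_zero hx.1 hy.1) hz.1, Pool.Agent.Y748.UF.ord_mul hx.1 hy.1]
    have h1 := hnn x hx
    have h2 := hnn y hy
    have h3 := hnn z hz
    omega
  · intro x y z hx hy hz
    rw [mq_iff hq hx hy hz, ← hnn x hx, ← hnn y hy, ← hnn z hz]
    simp only [Int.toNat_natCast]
    exact_mod_cast Iff.rfl
  · intro n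
    obtain ⟨x, hx, hx1⟩ := exists_ord (p := p) n
    exact ⟨x, (nn_iff hx).2 (by omega), by rw [hx1]; simp⟩

/-- true arithmetic is reducible to the theory if a definable relation is on long intervals the
graph of a polynomial function of degree `e + 2` -/
theorem arith_of_poly (e : ℕ) :
    ∀ {R : LaurentSeries (ZMod p) → LaurentSeries (ZMod p) → (ℕ → LaurentSeries (ZMod p)) → Prop},
    D2 P R →
    (∀ H : ℕ, ∃ (u : ℕ → LaurentSeries (ZMod p)) (m : ℤ) (f : ℤ → ℤ) (c : ℤ),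
      c ≠ 0 ∧ (∀ i, m ≤ i → i < m + H → ∀ j, VR R u i j ↔ j = f i) ∧
      ∀ i, m ≤ i → i + ((e + 2 : ℕ) : ℤ) < m + H → (fwdDiff 1)^[e + 2] f i = c) →
    ∃ F : ℕ → ℕ, Primrec F ∧ ∀ ψ : Fm, ψ.fv = ∅ → ((∀ n : ℕ → ℕ, Sat (∅ : Set ℕ) ψ n) ↔
      ∃ χ : Fm, χ.code = F ψ.code ∧ χ.fv = ∅ ∧ ∀ v, Sat P χ v) := by
  induction e with
  | zero =>
    intro R hR hq
    refine arith_of_quad hR fun H => ?_
    obtain ⟨u, m, f, c, hc, h1, h2⟩ := hq H
    refine ⟨u, m, f, c, hc, h1, fun i hi hi2 => ?_⟩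
    have h3 := h2 i hi (by push_cast; omega)
    simp only [zero_add, iterate_succ_apply, iterate_zero, id, fwdDiff] at h3
    have e1 : i + 1 + 1 = i + 2 := by ring
    rw [e1] at h3
    linarith
  | succ e ih =>
    intro R hR hq
    refine ih (R := DR R) hR.dr fun H => ?_
    obtain ⟨u, m, f, c, hc, h1, h2⟩ := hq (H + 1)
    push_cast at h1 h2
    refine ⟨u, m, fwdDiff 1 f, c, hc, fun i hi hi2 j => ?_, fun i hi hi2 => ?_⟩
    · rw [vr_dr]
      constructor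
      · rintro ⟨j1, j2, h3, h4, h5⟩
        rw [h1 _ (by omega) (by omega)] at h3 h4
        rw [fwdDiff, ← h3, ← h4, ← h5]
        ring
      · intro h3
        refine ⟨f (i + 1), f i, (h1 _ (by omega) (by omega) _).2 rfl,
          (h1 _ (by omega) (by omega) _).2 rfl, ?_⟩
        rw [h3, fwdDiff]
        ring
    · have h3 := h2 i hi (by push_cast at hi2; omega)
      rw [show e + 1 + 2 = (e + 2) + 1 by ring, iterate_succ_apply] at h3
      exact h3

end Pool.Agent.K9h38.VL
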