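import Pool.Agent.K9h38.VL.Cnt

/-! # Thick finite sets: sums and products -/

set_option autoImplicit false

namespace Pool.Agent.K9h38.VL

open Function Pool.Agent.Y924.EL Pool.Agent.Y924.UF Pool.Agent.K9h38.VG

variable {p : ℕ} [Fact p.Prime]

variable {R : LaurentSeries (ZMod p) → (ℕ → LaurentSeries (ZMod p)) → Prop}

theorem exists_equiv {α : Type} {S1 S2 S3 S4 : Set α} (h1 : S1.Finite) (h2 : S2.Finite)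
    (h3 : S3.Finite) (h4 : S4.Finite) (h : S1.ncard * S2.ncard + S3.ncard = S4.ncard) :
    Nonempty (S4 ≃ (S1 × S2) ⊕ S3) := by
  have := h1.to_subtype
  have := h2.to_subtype
  have := h3.to_subtype
  have := h4.to_subtype
  rw [← Finite.card_eq, Nat.card_sum, Nat.card_prod, Nat.card_coe_set_eq, Nat.card_coe_set_eq,
    Nat.card_coe_set_eq, Nat.card_coe_set_eq, h]

theorem T0_near {S1 S2 S3 S4 : Set (LaurentSeries (ZMod p))} (h1 : S1.Finite) (h2 : S2.Finite)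
    (h3 : S3.Finite) (h4 : S4.Finite) (h : S1.ncard * S2.ncard + S3.ncard = S4.ncard)
    {c1 c2 c3 c4 : LaurentSeries (ZMod p)} (hc1 : c1 ≠ 0) (hc2 : c2 ≠ 0) (hc3 : c3 ≠ 0)
    (hc4 : c4 ≠ 0) (s1 : Sep c1 S1) (s2 : Sep c2 S2) (s3 : Sep c3 S3) (s4 : Sep c4 S4) :
    ∀ᶠ h : ℕ in Filter.atTop, ∀ r1 r2 r3 r4 : ℕ → LaurentSeries (ZMod p),
      r1 0 = c1 → r2 0 = c2 → r3 0 = c3 → r4 0 = c4 → NearS {x | Mm R x r1} S1 h →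
      NearS {x | Mm R x r2} S2 h → NearS {x | Mm R x r3} S3 h → NearS {x | Mm R x r4} S4 h →
      T0 R r1 r2 r3 r4 := by
  classical
  obtain ⟨e⟩ := exists_equiv h1 h2 h3 h4 h
  obtain ⟨u, w, hcode⟩ := code_near (S1 ∪ S2 ∪ S3 ∪ S4) (((h1.union h2).union h3).union h4)
  obtain ⟨q3, k3⟩ := hcode (fun a b => ∃ (ha : a ∈ S4) (hb : b ∈ S1) (y : S2),
    e ⟨a, ha⟩ = Sum.inl (⟨b, hb⟩, y))
  obtain ⟨q4, k4⟩ := hcode (fun a b => ∃ (ha : a ∈ S4) (hb : b ∈ S2) (x : S1),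
    e ⟨a, ha⟩ = Sum.inl (x, ⟨b, hb⟩))
  obtain ⟨q5, k5⟩ := hcode (fun a b => ∃ (ha : a ∈ S4) (hb : b ∈ S3),
    e ⟨a, ha⟩ = Sum.inr ⟨b, hb⟩)
  obtain ⟨q6, k6⟩ := hcode (fun a _ => ∃ (ha : a ∈ S4) (y : S1 × S2), e ⟨a, ha⟩ = Sum.inl y)
  have m1 : ∀ a, a ∈ S1 → a ∈ S1 ∪ S2 ∪ S3 ∪ S4 := fun a ha => Or.inl (Or.inl (Or.inl ha))
  have m2 : ∀ a, a ∈ S2 → a ∈ S1 ∪ S2 ∪ S3 ∪ S4 := fun a ha => Or.inl (Or.inl (Or.inr ha))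
  have m3 : ∀ a, a ∈ S3 → a ∈ S1 ∪ S2 ∪ S3 ∪ S4 := fun a ha => Or.inl (Or.inr ha)
  have m4 : ∀ a, a ∈ S4 → a ∈ S1 ∪ S2 ∪ S3 ∪ S4 := fun a ha => Or.inr ha
  filter_upwards [k3, k4, k5, k6, ev_le c1.order, ev_le c2.order, ev_le c3.order,
    ev_le c4.order] with h k3 k4 k5 k6 o1 o2 o3 o4 r1 r2 r3 r4 e1 e2 e3 e4 n1 n2 n3 n4
  refine ⟨cns (tt p) (cns u (cns w (cns q3 (cns q4 (cns q5 (fun _ => q6)))))), ?_⟩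
  have b3 : ∀ a ∈ S4, ∀ b ∈ S1, ∀ x y, Le (tp h) (x - a) → Le (tp h) (y - b) →
      (BB (tt p) p u w q3 x y ↔ ∃ (ha : a ∈ S4) (hb : b ∈ S1) (y : S2),
        e ⟨a, ha⟩ = Sum.inl (⟨b, hb⟩, y)) := fun a ha b hb => k3 a (m4 a ha) b (m1 b hb)
  have b4 : ∀ a ∈ S4, ∀ b ∈ S2, ∀ x y, Le (tp h) (x - a) → Le (tp h) (y - b) →
      (BB (tt p) p u w q4 x y ↔ ∃ (ha : a ∈ S4) (hb : b ∈ S2) (x : S1),
        e ⟨a, ha⟩ = Sum.inl (x, ⟨b, hb⟩)) := fun a ha b hb => k4 a (m4 a ha) b (m2 b hb)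
  have b5 : ∀ a ∈ S4, ∀ b ∈ S3, ∀ x y, Le (tp h) (x - a) → Le (tp h) (y - b) →
      (BB (tt p) p u w q5 x y ↔ ∃ (ha : a ∈ S4) (hb : b ∈ S3),
        e ⟨a, ha⟩ = Sum.inr ⟨b, hb⟩) := fun a ha b hb => k5 a (m4 a ha) b (m3 b hb)
  have b6 : ∀ a ∈ S4, ∀ x, Le (tp h) (x - a) → (BB (tt p) p u w q6 x x ↔
      ∃ (ha : a ∈ S4) (y : S1 × S2), e ⟨a, ha⟩ = Sum.inl y) :=
    fun a ha x hx => k6 a (m4 a ha) a (m4 a ha) x x hx hx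
  refine ⟨?_, ?_, ?_, ?_, ?_, ?_, ?_, ?_⟩
  · intro f f0 f1 hf hb
    obtain ⟨a, ha, xa⟩ := n4.1 _ f0
    obtain ⟨a', ha', xa'⟩ := n4.1 _ f1
    rw [e4, sep_iff hc4 s4 o4 ha ha' xa xa'] at hf
    subst hf
    have hb1 := (b6 a ha _ xa).1 hb
    exact (b6 a ha' _ xa').2 hb1
  · intro f f0 hb
    obtain ⟨a, ha, xa⟩ := n4.1 _ f0
    obtain ⟨_, ⟨⟨b, hb1⟩, ⟨b', hb1'⟩⟩, hy⟩ := (b6 a ha _ xa).1 hb
    obtain ⟨y, hy1, hy2⟩ := n1.2 b hb1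
    exact ⟨fun _ => y, hy1, (b3 a ha b hb1 _ _ xa hy2).2 ⟨ha, hb1, _, hy⟩⟩
  · intro f f0 hb
    obtain ⟨a, ha, xa⟩ := n4.1 _ f0
    obtain ⟨_, ⟨⟨b, hb1⟩, ⟨b', hb1'⟩⟩, hy⟩ := (b6 a ha _ xa).1 hb
    obtain ⟨y, hy1, hy2⟩ := n2.2 b' hb1'
    exact ⟨fun _ => y, hy1, (b4 a ha b' hb1' _ _ xa hy2).2 ⟨ha, hb1', _, hy⟩⟩
  · intro f f0 f1
    obtain ⟨b, hb, xb⟩ := n1.1 _ f0
    obtain ⟨b', hb', xb'⟩ := n2.1 _ f1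
    obtain ⟨⟨a, ha⟩, hae⟩ : ∃ a, e a = Sum.inl (⟨b, hb⟩, ⟨b', hb'⟩) :=
      ⟨e.symm _, e.apply_symm_apply _⟩
    obtain ⟨x, hx, xa⟩ := n4.2 a ha
    exact ⟨fun _ => x, hx, (b6 a ha _ xa).2 ⟨ha, _, hae⟩,
      (b3 a ha b hb _ _ xa xb).2 ⟨ha, hb, _, hae⟩,
      (b4 a ha b' hb' _ _ xa xb').2 ⟨ha, hb', _, hae⟩⟩
  · intro f f0 f1 f2 f3 f4 f5 g0 g1 g2 g3 g4 g5
    obtain ⟨a0, ha0, x0⟩ := n4.1 _ f0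
    obtain ⟨a1, ha1, x1⟩ := n4.1 _ f1
    obtain ⟨a2, ha2, x2⟩ := n1.1 _ f2
    obtain ⟨a3, ha3, x3⟩ := n1.1 _ f3
    obtain ⟨a4, ha4, x4⟩ := n2.1 _ f4
    obtain ⟨a5, ha5, x5⟩ := n2.1 _ f5
    obtain ⟨_, _, y2, j2⟩ := (b3 a0 ha0 a2 ha2 _ _ x0 x2).1 g2
    obtain ⟨_, _, y3, j3⟩ := (b3 a1 ha1 a3 ha3 _ _ x1 x3).1 g3
    obtain ⟨_, _, y4, j4⟩ := (b4 a0 ha0 a4 ha4 _ _ x0 x4).1 g4
    obtain ⟨_, _, y5, j5⟩ := (b4 a1 ha1 a5 ha5 _ _ x1 x5).1 g5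
    rw [e4, e1, e2, sep_iff hc4 s4 o4 ha0 ha1 x0 x1, sep_iff hc1 s1 o1 ha2 ha3 x2 x3,
      sep_iff hc2 s2 o2 ha4 ha5 x4 x5]
    rw [j2, Sum.inl.injEq, Prod.mk.injEq] at j4
    rw [j3, Sum.inl.injEq, Prod.mk.injEq] at j5
    constructor
    · rintro rfl
      rw [j2, Sum.inl.injEq, Prod.mk.injEq] at j3
      refine ⟨congrArg Subtype.val j3.1, ?_⟩
      have := j4.2.symm.trans (j3.2.trans j5.2)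
      exact congrArg Subtype.val this
    · rintro rfl rfl
      have h6 : e ⟨a0, ha0⟩ = e ⟨a1, ha1⟩ := by
        rw [j2, j3, j4.2, j5.2]
      exact congrArg Subtype.val (e.injective h6)
  · intro f f0 hb
    obtain ⟨a, ha, xa⟩ := n4.1 _ f0
    have hb1 : ¬ ∃ (ha : a ∈ S4) (y : S1 × S2), e ⟨a, ha⟩ = Sum.inl y :=
      fun h => hb ((b6 a ha _ xa).2 h)
    cases hea : e ⟨a, ha⟩ with
    | inl y => exact absurd ⟨ha, y, hea⟩ hb1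
    | inr y =>
      obtain ⟨b, hb2⟩ := y
      obtain ⟨y, hy1, hy2⟩ := n3.2 b hb2
      exact ⟨fun _ => y, hy1, (b5 a ha b hb2 _ _ xa hy2).2 ⟨ha, hb2, hea⟩⟩
  · intro f f0
    obtain ⟨b, hb, xb⟩ := n3.1 _ f0
    obtain ⟨⟨a, ha⟩, hae⟩ : ∃ a, e a = Sum.inr ⟨b, hb⟩ :=
      ⟨e.symm _, e.apply_symm_apply _⟩
    obtain ⟨x, hx, xa⟩ := n4.2 a ha
    refine ⟨fun _ => x, hx, fun h => ?_, (b5 a ha b hb _ _ xa xb).2 ⟨ha, hb, hae⟩⟩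
    obtain ⟨_, y, hy⟩ := (b6 a ha _ xa).1 h
    rw [hae] at hy
    exact absurd hy (by simp)
  · intro f f0 f1 f2 f3 g0 g1 g2 g3
    obtain ⟨a0, ha0, x0⟩ := n4.1 _ f0
    obtain ⟨a1, ha1, x1⟩ := n4.1 _ f1
    obtain ⟨a2, ha2, x2⟩ := n3.1 _ f2
    obtain ⟨a3, ha3, x3⟩ := n3.1 _ f3
    obtain ⟨_, _, j2⟩ := (b5 a0 ha0 a2 ha2 _ _ x0 x2).1 g2
    obtain ⟨_, _, j3⟩ := (b5 a1 ha1 a3 ha3 _ _ x1 x3).1 g3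
    rw [e4, e3, sep_iff hc4 s4 o4 ha0 ha1 x0 x1, sep_iff hc3 s3 o3 ha2 ha3 x2 x3]
    constructor
    · rintro rfl
      rw [j2, Sum.inr.injEq] at j3
      exact congrArg Subtype.val j3
    · rintro rfl
      have h6 : e ⟨a0, ha0⟩ = e ⟨a1, ha1⟩ := by rw [j2, j3]
      exact congrArg Subtype.val (e.injective h6)

end Pool.Agent.K9h38.VL
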