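import Pool.Agent.K9h38.VG.Pat

/-! # Polynomial functions on the value group -/

set_option autoImplicit false

namespace Pool.Agent.K9h38.VL

open Function Pool.Agent.Y924.EL Pool.Agent.Y924.UF Pool.Agent.K9h38.VG

variable {p : ℕ} [Fact p.Prime] {P : Set (LaurentSeries (ZMod p))}

/-- definable relation with two arguments and a tuple of parameters -/
def D2 (P : Set (LaurentSeries (ZMod p)))
    (R : LaurentSeries (ZMod p) → LaurentSeries (ZMod p) → (ℕ → LaurentSeries (ZMod p)) → Prop) :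
    Prop :=
  Df P (fun w => R (w 0) (w 1) (fun n => w (n + 2)))

/-- the relation between the valuations -/
def VR (R : LaurentSeries (ZMod p) → LaurentSeries (ZMod p) → (ℕ → LaurentSeries (ZMod p)) → Prop)
    (u : ℕ → LaurentSeries (ZMod p)) (i j : ℤ) : Prop :=
  ∃ x y, x ≠ 0 ∧ y ≠ 0 ∧ x.order = i ∧ y.order = j ∧ R x y u

/-- the same relation for elements -/
def ER (R : LaurentSeries (ZMod p) → LaurentSeries (ZMod p) → (ℕ → LaurentSeries (ZMod p)) → Prop)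
    (x y : LaurentSeries (ZMod p)) (u : ℕ → LaurentSeries (ZMod p)) : Prop :=
  ∃ x' y', x' ≠ 0 ∧ y' ≠ 0 ∧ Eqv x' x ∧ Eqv y' y ∧ R x' y' u

variable {R : LaurentSeries (ZMod p) → LaurentSeries (ZMod p) → (ℕ → LaurentSeries (ZMod p)) → Prop}

theorem er_iff {x y : LaurentSeries (ZMod p)} (hx : x ≠ 0) (hy : y ≠ 0)
    (u : ℕ → LaurentSeries (ZMod p)) : ER R x y u ↔ VR R u x.order y.order := by
  constructor
  · rintro ⟨x', y', h1, h2, h3, h4, h5⟩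
    exact ⟨x', y', h1, h2, (eqv_iff h1 hx).1 h3, (eqv_iff h2 hy).1 h4, h5⟩
  · rintro ⟨x', y', h1, h2, h3, h4, h5⟩
    exact ⟨x', y', h1, h2, (eqv_iff h1 hx).2 h3, (eqv_iff h2 hy).2 h4, h5⟩

theorem D2.use (hR : D2 P R) {f g : (ℕ → LaurentSeries (ZMod p)) → LaurentSeries (ZMod p)}
    (hf : DFn P f) (hg : DFn P g) (σ : ℕ → ℕ) : Df P (fun v => R (f v) (g v) (fun n => v (σ n))) :=
  Df.comp hR (F := cns f (cns g (fun n w => w (σ n)))) fun i => by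
    rcases i with _ | _ | i
    · exact hf
    · exact hg
    · exact DFn.var _

theorem D2.er (hR : D2 P R) : D2 P (ER R) := by
  refine Df.ex1 (R := fun x' w => ∃ y', x' ≠ 0 ∧ y' ≠ 0 ∧ Eqv x' (w 0) ∧ Eqv y' (w 1) ∧
    R x' y' (fun n => w (n + 2))) ?_
  refine Df.ex1 (R := fun y' w => w 0 ≠ 0 ∧ y' ≠ 0 ∧ Eqv (w 0) (w 1) ∧ Eqv y' (w 2) ∧
    R (w 0) y' (fun n => w (n + 3))) ?_
  exact (Df.ne (DFn.var 1) DFn.zero).and ((Df.ne (DFn.var 0) DFn.zero).and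
    ((df_Eqv (DFn.var 1) (DFn.var 2)).and ((df_Eqv (DFn.var 0) (DFn.var 3)).and
    (hR.use (DFn.var 1) (DFn.var 0) (fun n => n + 4)))))

/-- the graph of the difference -/
def DR (R : LaurentSeries (ZMod p) → LaurentSeries (ZMod p) → (ℕ → LaurentSeries (ZMod p)) → Prop)
    (x y : LaurentSeries (ZMod p)) (u : ℕ → LaurentSeries (ZMod p)) : Prop :=
  ∃ τ, Un τ ∧ ∃ y1, y1 ≠ 0 ∧ ∃ y2, y2 ≠ 0 ∧ ER R (x * τ) y1 u ∧ ER R x y2 u ∧ Eqv (y * y2) y1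

theorem D2.dr (hR : D2 P R) : D2 P (DR R) := by
  refine Df.ex1 (R := fun τ w => Un τ ∧ ∃ y1, y1 ≠ 0 ∧ ∃ y2, y2 ≠ 0 ∧
    ER R (w 0 * τ) y1 (fun n => w (n + 2)) ∧ ER R (w 0) y2 (fun n => w (n + 2)) ∧
    Eqv (w 1 * y2) y1) ?_
  refine (df_Un (DFn.var 0)).and ?_
  refine Df.ex1 (R := fun y1 w => y1 ≠ 0 ∧ ∃ y2, y2 ≠ 0 ∧
    ER R (w 1 * w 0) y1 (fun n => w (n + 3)) ∧ ER R (w 1) y2 (fun n => w (n + 3)) ∧
    Eqv (w 2 * y2) y1) ?_
  refine (Df.ne (DFn.var 0) DFn.zero).and ?_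
  refine Df.ex1 (R := fun y2 w => y2 ≠ 0 ∧
    ER R (w 2 * w 1) (w 0) (fun n => w (n + 4)) ∧ ER R (w 2) y2 (fun n => w (n + 4)) ∧
    Eqv (w 3 * y2) (w 0)) ?_
  refine (Df.ne (DFn.var 0) DFn.zero).and ?_
  exact (hR.er.use ((DFn.var 3).mul (DFn.var 2)) (DFn.var 1) (fun n => n + 5)).and
    ((hR.er.use (DFn.var 3) (DFn.var 0) (fun n => n + 5)).and
    (df_Eqv ((DFn.var 4).mul (DFn.var 0)) (DFn.var 1)))

theorem vr_dr (u : ℕ → LaurentSeries (ZMod p)) (i j : ℤ) :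
    VR (DR R) u i j ↔ ∃ j1 j2, VR R u (i + 1) j1 ∧ VR R u i j2 ∧ j + j2 = j1 := by
  constructor
  · rintro ⟨x, y, hx, hy, rfl, rfl, τ, hτ, y1, h1, y2, h2, h3, h4, h5⟩
    obtain ⟨hτ0, hτ1⟩ := (un_iff τ).1 hτ
    rw [er_iff (mul_ne_zero hx hτ0) h1, Pool.Agent.Y748.UF.ord_mul hx hτ0, hτ1] at h3
    rw [er_iff hx h2] at h4
    rw [eqv_iff (mul_ne_zero hy h2) h1, Pool.Agent.Y748.UF.ord_mul hy h2] at h5
    exact ⟨_, _, h3, h4, h5⟩
  · rintro ⟨j1, j2, h1, h2, h3⟩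
    obtain ⟨x, hx, hx1⟩ := exists_ord (p := p) i
    obtain ⟨y, hy, hy1⟩ := exists_ord (p := p) j
    obtain ⟨τ, hτ, hτ1⟩ := exists_ord (p := p) 1
    obtain ⟨y1, k1, k2⟩ := exists_ord (p := p) j1
    obtain ⟨y2, k3, k4⟩ := exists_ord (p := p) j2
    refine ⟨x, y, hx, hy, hx1, hy1, τ, (un_iff τ).2 ⟨hτ, hτ1⟩, y1, k1, y2, k3, ?_, ?_, ?_⟩
    · rw [er_iff (mul_ne_zero hx hτ) k1, Pool.Agent.Y748.UF.ord_mul hx hτ, hτ1, hx1, k2]
      exact h1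
    · rw [er_iff hx k3, hx1, k4]
      exact h2
    · rw [eqv_iff (mul_ne_zero hy k3) k1, Pool.Agent.Y748.UF.ord_mul hy k3, hy1, k4, k2]
      exact h3

/-- `e` and `l` give an interval on which the relation is the graph of a quadratic function -/
def QI (R : LaurentSeries (ZMod p) → LaurentSeries (ZMod p) → (ℕ → LaurentSeries (ZMod p)) → Prop)
    (e l τ : LaurentSeries (ZMod p)) (u : ℕ → LaurentSeries (ZMod p)) : Prop :=
  (∀ w, w ≠ 0 → Le e w → ¬ Le (e * l) w → ∃ y, y ≠ 0 ∧ ER R w y u ∧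
    ∀ y', y' ≠ 0 → ER R w y' u → Eqv y' y) ∧
  ∃ g, g ≠ 0 ∧ ¬ Eqv g 1 ∧ ∀ w, w ≠ 0 → Le e w → ¬ Le (e * l) (w * τ * τ) →
    ∀ y0, y0 ≠ 0 → ∀ y1, y1 ≠ 0 → ∀ y2, y2 ≠ 0 → ER R w y0 u → ER R (w * τ) y1 u →
      ER R (w * τ * τ) y2 u → Eqv (y0 * y2) (g * y1 * y1)

/-- multiplication of valuations by quadratic functions -/
def MQ (R : LaurentSeries (ZMod p) → LaurentSeries (ZMod p) → (ℕ → LaurentSeries (ZMod p)) → Prop)
    (x y z : LaurentSeries (ZMod p)) : Prop :=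
  ∃ u : ℕ → LaurentSeries (ZMod p), ∃ e, e ≠ 0 ∧ ∃ l, Nn l ∧ ∃ τ, Un τ ∧ QI R e l τ u ∧
    ¬ Le l (x * y) ∧ ¬ Le l (z * τ) ∧
    ∃ y1, y1 ≠ 0 ∧ ∃ y2, y2 ≠ 0 ∧ ∃ y3, y3 ≠ 0 ∧ ∃ y4, y4 ≠ 0 ∧ ∃ y5, y5 ≠ 0 ∧ ∃ y6, y6 ≠ 0 ∧
      ER R (e * (x * y)) y1 u ∧ ER R (e * x) y2 u ∧ ER R (e * y) y3 u ∧
      ER R (e * (z * τ)) y4 u ∧ ER R (e * z) y5 u ∧ ER R (e * τ) y6 u ∧
      Eqv (y1 * y5 * y6) (y4 * y2 * y3)

theorem df_QI (hR : D2 P R) : Df P (fun v => QI R (v 0) (v 1) (v 2) (fun n => v (n + 3))) := by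
  refine Df.and ?_ ?_
  · refine Df.all1 (R := fun w v => w ≠ 0 → Le (v 0) w → ¬ Le (v 0 * v 1) w → ∃ y, y ≠ 0 ∧
      ER R w y (fun n => v (n + 3)) ∧ ∀ y', y' ≠ 0 → ER R w y' (fun n => v (n + 3)) →
        Eqv y' y) ?_
    refine (Df.ne (DFn.var 0) DFn.zero).imp ((df_Le (DFn.var 1) (DFn.var 0)).imp
      ((df_Le ((DFn.var 1).mul (DFn.var 2)) (DFn.var 0)).not.imp ?_))
    refine Df.ex1 (R := fun y v => y ≠ 0 ∧ ER R (v 0) y (fun n => v (n + 4)) ∧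
      ∀ y', y' ≠ 0 → ER R (v 0) y' (fun n => v (n + 4)) → Eqv y' y) ?_
    refine (Df.ne (DFn.var 0) DFn.zero).and
      ((hR.er.use (DFn.var 1) (DFn.var 0) (fun n => n + 5)).and ?_)
    refine Df.all1 (R := fun y' v => y' ≠ 0 → ER R (v 1) y' (fun n => v (n + 5)) →
      Eqv y' (v 0)) ?_
    exact (Df.ne (DFn.var 0) DFn.zero).imp
      ((hR.er.use (DFn.var 2) (DFn.var 0) (fun n => n + 6)).imp (df_Eqv (DFn.var 0) (DFn.var 1)))
  · refine Df.ex1 (R := fun g v => g ≠ 0 ∧ ¬ Eqv g 1 ∧ ∀ w, w ≠ 0 → Le (v 0) w →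
      ¬ Le (v 0 * v 1) (w * v 2 * v 2) → ∀ y0, y0 ≠ 0 → ∀ y1, y1 ≠ 0 → ∀ y2, y2 ≠ 0 →
      ER R w y0 (fun n => v (n + 3)) → ER R (w * v 2) y1 (fun n => v (n + 3)) →
      ER R (w * v 2 * v 2) y2 (fun n => v (n + 3)) → Eqv (y0 * y2) (g * y1 * y1)) ?_
    refine (Df.ne (DFn.var 0) DFn.zero).and ((df_Eqv (DFn.var 0) DFn.one).not.and ?_)
    refine Df.all1 (R := fun w v => w ≠ 0 → Le (v 1) w →
      ¬ Le (v 1 * v 2) (w * v 3 * v 3) → ∀ y0, y0 ≠ 0 → ∀ y1, y1 ≠ 0 → ∀ y2, y2 ≠ 0 →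
      ER R w y0 (fun n => v (n + 4)) → ER R (w * v 3) y1 (fun n => v (n + 4)) →
      ER R (w * v 3 * v 3) y2 (fun n => v (n + 4)) → Eqv (y0 * y2) (v 0 * y1 * y1)) ?_
    refine (Df.ne (DFn.var 0) DFn.zero).imp ((df_Le (DFn.var 2) (DFn.var 0)).imp
      ((df_Le ((DFn.var 2).mul (DFn.var 3)) (((DFn.var 0).mul (DFn.var 4)).mul
      (DFn.var 4))).not.imp ?_))
    refine Df.all1 (R := fun y0 v => y0 ≠ 0 → ∀ y1, y1 ≠ 0 → ∀ y2, y2 ≠ 0 →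
      ER R (v 0) y0 (fun n => v (n + 5)) → ER R (v 0 * v 4) y1 (fun n => v (n + 5)) →
      ER R (v 0 * v 4 * v 4) y2 (fun n => v (n + 5)) → Eqv (y0 * y2) (v 1 * y1 * y1)) ?_
    refine (Df.ne (DFn.var 0) DFn.zero).imp ?_
    refine Df.all1 (R := fun y1 v => y1 ≠ 0 → ∀ y2, y2 ≠ 0 →
      ER R (v 1) (v 0) (fun n => v (n + 6)) → ER R (v 1 * v 5) y1 (fun n => v (n + 6)) →
      ER R (v 1 * v 5 * v 5) y2 (fun n => v (n + 6)) → Eqv (v 0 * y2) (v 2 * y1 * y1)) ?_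
    refine (Df.ne (DFn.var 0) DFn.zero).imp ?_
    refine Df.all1 (R := fun y2 v => y2 ≠ 0 →
      ER R (v 2) (v 1) (fun n => v (n + 7)) → ER R (v 2 * v 6) (v 0) (fun n => v (n + 7)) →
      ER R (v 2 * v 6 * v 6) y2 (fun n => v (n + 7)) → Eqv (v 1 * y2) (v 3 * v 0 * v 0)) ?_
    exact (Df.ne (DFn.var 0) DFn.zero).imp
      ((hR.er.use (DFn.var 3) (DFn.var 2) (fun n => n + 8)).imp
      ((hR.er.use ((DFn.var 3).mul (DFn.var 7)) (DFn.var 1) (fun n => n + 8)).imp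
      ((hR.er.use (((DFn.var 3).mul (DFn.var 7)).mul (DFn.var 7)) (DFn.var 0)
        (fun n => n + 8)).imp
      (df_Eqv ((DFn.var 2).mul (DFn.var 0))
        (((DFn.var 4).mul (DFn.var 1)).mul (DFn.var 1))))))

theorem df_MQ (hR : D2 P R) : Df P (fun v => MQ R (v 0) (v 1) (v 2)) := by
  refine Df.exs (R := fun v u => ∃ e, e ≠ 0 ∧ ∃ l, Nn l ∧ ∃ τ, Un τ ∧ QI R e l τ u ∧
    ¬ Le l (v 0 * v 1) ∧ ¬ Le l (v 2 * τ) ∧
    ∃ y1, y1 ≠ 0 ∧ ∃ y2, y2 ≠ 0 ∧ ∃ y3, y3 ≠ 0 ∧ ∃ y4, y4 ≠ 0 ∧ ∃ y5, y5 ≠ 0 ∧ ∃ y6, y6 ≠ 0 ∧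
      ER R (e * (v 0 * v 1)) y1 u ∧ ER R (e * v 0) y2 u ∧ ER R (e * v 1) y3 u ∧
      ER R (e * (v 2 * τ)) y4 u ∧ ER R (e * v 2) y5 u ∧ ER R (e * τ) y6 u ∧
      Eqv (y1 * y5 * y6) (y4 * y2 * y3)) ?_
  refine Df.ex1 (R := fun e v => e ≠ 0 ∧ ∃ l, Nn l ∧ ∃ τ, Un τ ∧
    QI R e l τ (fun n => v (2 * n + 1)) ∧ ¬ Le l (v 0 * v 2) ∧ ¬ Le l (v 4 * τ) ∧
    ∃ y1, y1 ≠ 0 ∧ ∃ y2, y2 ≠ 0 ∧ ∃ y3, y3 ≠ 0 ∧ ∃ y4, y4 ≠ 0 ∧ ∃ y5, y5 ≠ 0 ∧ ∃ y6, y6 ≠ 0 ∧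
      ER R (e * (v 0 * v 2)) y1 (fun n => v (2 * n + 1)) ∧
      ER R (e * v 0) y2 (fun n => v (2 * n + 1)) ∧ ER R (e * v 2) y3 (fun n => v (2 * n + 1)) ∧
      ER R (e * (v 4 * τ)) y4 (fun n => v (2 * n + 1)) ∧
      ER R (e * v 4) y5 (fun n => v (2 * n + 1)) ∧ ER R (e * τ) y6 (fun n => v (2 * n + 1)) ∧
      Eqv (y1 * y5 * y6) (y4 * y2 * y3)) ?_
  refine (Df.ne (DFn.var 0) DFn.zero).and ?_
  refine Df.ex1 (R := fun l v => Nn l ∧ ∃ τ, Un τ ∧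
    QI R (v 0) l τ (fun n => v (2 * n + 2)) ∧ ¬ Le l (v 1 * v 3) ∧ ¬ Le l (v 5 * τ) ∧
    ∃ y1, y1 ≠ 0 ∧ ∃ y2, y2 ≠ 0 ∧ ∃ y3, y3 ≠ 0 ∧ ∃ y4, y4 ≠ 0 ∧ ∃ y5, y5 ≠ 0 ∧ ∃ y6, y6 ≠ 0 ∧
      ER R (v 0 * (v 1 * v 3)) y1 (fun n => v (2 * n + 2)) ∧
      ER R (v 0 * v 1) y2 (fun n => v (2 * n + 2)) ∧ ER R (v 0 * v 3) y3 (fun n => v (2 * n + 2)) ∧
      ER R (v 0 * (v 5 * τ)) y4 (fun n => v (2 * n + 2)) ∧
      ER R (v 0 * v 5) y5 (fun n => v (2 * n + 2)) ∧ ER R (v 0 * τ) y6 (fun n => v (2 * n + 2)) ∧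
      Eqv (y1 * y5 * y6) (y4 * y2 * y3)) ?_
  refine (df_Nn (DFn.var 0)).and ?_
  refine Df.ex1 (R := fun τ v => Un τ ∧
    QI R (v 1) (v 0) τ (fun n => v (2 * n + 3)) ∧ ¬ Le (v 0) (v 2 * v 4) ∧ ¬ Le (v 0) (v 6 * τ) ∧
    ∃ y1, y1 ≠ 0 ∧ ∃ y2, y2 ≠ 0 ∧ ∃ y3, y3 ≠ 0 ∧ ∃ y4, y4 ≠ 0 ∧ ∃ y5, y5 ≠ 0 ∧ ∃ y6, y6 ≠ 0 ∧
      ER R (v 1 * (v 2 * v 4)) y1 (fun n => v (2 * n + 3)) ∧
      ER R (v 1 * v 2) y2 (fun n => v (2 * n + 3)) ∧ ER R (v 1 * v 4) y3 (fun n => v (2 * n + 3)) ∧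
      ER R (v 1 * (v 6 * τ)) y4 (fun n => v (2 * n + 3)) ∧
      ER R (v 1 * v 6) y5 (fun n => v (2 * n + 3)) ∧ ER R (v 1 * τ) y6 (fun n => v (2 * n + 3)) ∧
      Eqv (y1 * y5 * y6) (y4 * y2 * y3)) ?_
  refine (df_Un (DFn.var 0)).and (Df.and ?_ ((df_Le (DFn.var 1) ((DFn.var 3).mul
    (DFn.var 5))).not.and ((df_Le (DFn.var 1) ((DFn.var 7).mul (DFn.var 0))).not.and ?_)))
  · exact (df_QI hR).sub (cns 2 (cns 1 (cns 0 (fun n => 2 * n + 4))))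
  refine Df.ex1 (R := fun y1 v => y1 ≠ 0 ∧ ∃ y2, y2 ≠ 0 ∧ ∃ y3, y3 ≠ 0 ∧ ∃ y4, y4 ≠ 0 ∧
    ∃ y5, y5 ≠ 0 ∧ ∃ y6, y6 ≠ 0 ∧
      ER R (v 2 * (v 3 * v 5)) y1 (fun n => v (2 * n + 4)) ∧
      ER R (v 2 * v 3) y2 (fun n => v (2 * n + 4)) ∧ ER R (v 2 * v 5) y3 (fun n => v (2 * n + 4)) ∧
      ER R (v 2 * (v 7 * v 0)) y4 (fun n => v (2 * n + 4)) ∧
      ER R (v 2 * v 7) y5 (fun n => v (2 * n + 4)) ∧ ER R (v 2 * v 0) y6 (fun n => v (2 * n + 4)) ∧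
      Eqv (y1 * y5 * y6) (y4 * y2 * y3)) ?_
  refine (Df.ne (DFn.var 0) DFn.zero).and ?_
  refine Df.ex1 (R := fun y2 v => y2 ≠ 0 ∧ ∃ y3, y3 ≠ 0 ∧ ∃ y4, y4 ≠ 0 ∧
    ∃ y5, y5 ≠ 0 ∧ ∃ y6, y6 ≠ 0 ∧
      ER R (v 3 * (v 4 * v 6)) (v 0) (fun n => v (2 * n + 5)) ∧
      ER R (v 3 * v 4) y2 (fun n => v (2 * n + 5)) ∧ ER R (v 3 * v 6) y3 (fun n => v (2 * n + 5)) ∧
      ER R (v 3 * (v 8 * v 1)) y4 (fun n => v (2 * n + 5)) ∧
      ER R (v 3 * v 8) y5 (fun n => v (2 * n + 5)) ∧ ER R (v 3 * v 1) y6 (fun n => v (2 * n + 5)) ∧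
      Eqv (v 0 * y5 * y6) (y4 * y2 * y3)) ?_
  refine (Df.ne (DFn.var 0) DFn.zero).and ?_
  refine Df.ex1 (R := fun y3 v => y3 ≠ 0 ∧ ∃ y4, y4 ≠ 0 ∧
    ∃ y5, y5 ≠ 0 ∧ ∃ y6, y6 ≠ 0 ∧
      ER R (v 4 * (v 5 * v 7)) (v 1) (fun n => v (2 * n + 6)) ∧
      ER R (v 4 * v 5) (v 0) (fun n => v (2 * n + 6)) ∧
      ER R (v 4 * v 7) y3 (fun n => v (2 * n + 6)) ∧
      ER R (v 4 * (v 9 * v 2)) y4 (fun n => v (2 * n + 6)) ∧
      ER R (v 4 * v 9) y5 (fun n => v (2 * n + 6)) ∧ ER R (v 4 * v 2) y6 (fun n => v (2 * n + 6)) ∧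
      Eqv (v 1 * y5 * y6) (y4 * v 0 * y3)) ?_
  refine (Df.ne (DFn.var 0) DFn.zero).and ?_
  refine Df.ex1 (R := fun y4 v => y4 ≠ 0 ∧
    ∃ y5, y5 ≠ 0 ∧ ∃ y6, y6 ≠ 0 ∧
      ER R (v 5 * (v 6 * v 8)) (v 2) (fun n => v (2 * n + 7)) ∧
      ER R (v 5 * v 6) (v 1) (fun n => v (2 * n + 7)) ∧
      ER R (v 5 * v 8) (v 0) (fun n => v (2 * n + 7)) ∧
      ER R (v 5 * (v 10 * v 3)) y4 (fun n => v (2 * n + 7)) ∧
      ER R (v 5 * v 10) y5 (fun n => v (2 * n + 7)) ∧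
      ER R (v 5 * v 3) y6 (fun n => v (2 * n + 7)) ∧
      Eqv (v 2 * y5 * y6) (y4 * v 1 * v 0)) ?_
  refine (Df.ne (DFn.var 0) DFn.zero).and ?_
  refine Df.ex1 (R := fun y5 v => y5 ≠ 0 ∧ ∃ y6, y6 ≠ 0 ∧
      ER R (v 6 * (v 7 * v 9)) (v 3) (fun n => v (2 * n + 8)) ∧
      ER R (v 6 * v 7) (v 2) (fun n => v (2 * n + 8)) ∧
      ER R (v 6 * v 9) (v 1) (fun n => v (2 * n + 8)) ∧
      ER R (v 6 * (v 11 * v 4)) (v 0) (fun n => v (2 * n + 8)) ∧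
      ER R (v 6 * v 11) y5 (fun n => v (2 * n + 8)) ∧
      ER R (v 6 * v 4) y6 (fun n => v (2 * n + 8)) ∧
      Eqv (v 3 * y5 * y6) (v 0 * v 2 * v 1)) ?_
  refine (Df.ne (DFn.var 0) DFn.zero).and ?_
  refine Df.ex1 (R := fun y6 v => y6 ≠ 0 ∧
      ER R (v 7 * (v 8 * v 10)) (v 4) (fun n => v (2 * n + 9)) ∧
      ER R (v 7 * v 8) (v 3) (fun n => v (2 * n + 9)) ∧
      ER R (v 7 * v 10) (v 2) (fun n => v (2 * n + 9)) ∧
      ER R (v 7 * (v 12 * v 5)) (v 1) (fun n => v (2 * n + 9)) ∧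
      ER R (v 7 * v 12) (v 0) (fun n => v (2 * n + 9)) ∧
      ER R (v 7 * v 5) y6 (fun n => v (2 * n + 9)) ∧
      Eqv (v 4 * v 0 * y6) (v 1 * v 3 * v 2)) ?_
  have t : ∀ {f g : (ℕ → LaurentSeries (ZMod p)) → LaurentSeries (ZMod p)}, DFn P f → DFn P g →
      Df P (fun v => ER R (f v) (g v) (fun n => v (2 * n + 10))) :=
    fun hf hg => hR.er.use hf hg (fun n => 2 * n + 10)
  refine (Df.ne (DFn.var 0) DFn.zero).and ?_
  refine (t ((DFn.var 8).mul ((DFn.var 9).mul (DFn.var 11))) (DFn.var 5)).and ?_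
  refine (t ((DFn.var 8).mul (DFn.var 9)) (DFn.var 4)).and ?_
  refine (t ((DFn.var 8).mul (DFn.var 11)) (DFn.var 3)).and ?_
  refine (t ((DFn.var 8).mul ((DFn.var 13).mul (DFn.var 6))) (DFn.var 2)).and ?_
  refine (t ((DFn.var 8).mul (DFn.var 13)) (DFn.var 1)).and ?_
  refine (t ((DFn.var 8).mul (DFn.var 6)) (DFn.var 0)).and ?_
  exact df_Eqv (((DFn.var 5).mul (DFn.var 1)).mul (DFn.var 0))
    (((DFn.var 2).mul (DFn.var 4)).mul (DFn.var 3))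

/-- mixed differences of quadratic functions -/
theorem mixed {f : ℤ → ℤ} {c m l : ℤ}
    (h : ∀ i, m ≤ i → i + 2 < m + l → f i + f (i + 2) = c + 2 * f (i + 1)) (a b : ℕ)
    (hab : (a : ℤ) + b < l) :
    f (m + (a + b)) + f m = f (m + a) + f (m + b) + c * (a * b) := by
  have h1 : ∀ n : ℕ, (n : ℤ) + 1 < l → f (m + n + 1) - f (m + n) = f (m + 1) - f m + c * n := by
    intro n
    induction n with
    | zero => intro _; simp
    | succ n ih =>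
      intro hn
      push_cast at hn ih ⊢
      have h2 := ih (by omega)
      have h3 := h (m + n) (by omega) (by omega)
      have e1 : m + (n : ℤ) + 2 = m + (n + 1) + 1 := by ring
      have e2 : m + (n : ℤ) + 1 = m + (n + 1) := by ring
      rw [e1, e2] at h3
      rw [e2] at h2
      linear_combination h3 + h2
  have h2 : ∀ n : ℕ, (n : ℤ) < l →
      2 * f (m + n) = 2 * f m + 2 * n * (f (m + 1) - f m) + c * (n * (n - 1)) := by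
    intro n
    induction n with
    | zero => intro _; simp
    | succ n ih =>
      intro hn
      push_cast at hn ih ⊢
      have h3 := ih (by omega)
      have h4 := h1 n (by omega)
      have e2 : m + ((n : ℤ) + 1) = m + n + 1 := by ring
      rw [e2]
      linear_combination h3 + 2 * h4
  have h3 := h2 a (by omega)
  have h4 := h2 b (by omega)
  have h5 := h2 (a + b) (by push_cast; omega)
  push_cast at h5
  have h6 : 2 * (f (m + (a + b)) + f m) = 2 * (f (m + a) + f (m + b) + c * (a * b)) := by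
    linear_combination h5 - h3 - h4
  linarith

theorem mq_iff (hq : ∀ H : ℕ, ∃ (u : ℕ → LaurentSeries (ZMod p)) (m : ℤ) (f : ℤ → ℤ) (c : ℤ),
      c ≠ 0 ∧ (∀ i, m ≤ i → i < m + H → ∀ j, VR R u i j ↔ j = f i) ∧
      ∀ i, m ≤ i → i + 2 < m + H → f i + f (i + 2) = c + 2 * f (i + 1))
    {x y z : LaurentSeries (ZMod p)} (hx : Nn x) (hy : Nn y) (hz : Nn z) :
    MQ R x y z ↔ x.order * y.order = z.order := by
  have hx0 := hx.nonneg
  have hy0 := hy.nonneg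
  have hz0 := hz.nonneg
  obtain ⟨a, ha⟩ := Int.eq_ofNat_of_zero_le hx0
  obtain ⟨b, hb⟩ := Int.eq_ofNat_of_zero_le hy0
  obtain ⟨k, hk⟩ := Int.eq_ofNat_of_zero_le hz0
  have om : ∀ {s t : LaurentSeries (ZMod p)}, s ≠ 0 → t ≠ 0 → (s * t).order = s.order + t.order :=
    fun hs ht => Pool.Agent.Y748.UF.ord_mul hs ht
  constructor
  · rintro ⟨u, e, he, l, hl, τ, hτ, ⟨q1, g, hg, hg1, q2⟩, c1, c2, y1, n1, y2, n2, y3, n3, y4, n4,
      y5, n5, y6, n6, r1, r2, r3, r4, r5, r6, r7⟩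
    obtain ⟨hτ0, hτ1⟩ := (un_iff τ).1 hτ
    have hl0 := hl.1
    have hel : e * l ≠ 0 := mul_ne_zero he hl0
    rw [le_iff hl0 (mul_ne_zero hx.1 hy.1), om hx.1 hy.1] at c1
    rw [le_iff hl0 (mul_ne_zero hz.1 hτ0), om hz.1 hτ0, hτ1] at c2
    -- the function
    have hf : ∀ i : ℤ, ∃ j : ℤ, e.order ≤ i → i < e.order + l.order → VR R u i j ∧
        ∀ j', VR R u i j' → j' = j := by
      intro i
      by_cases h : e.order ≤ i ∧ i < e.order + l.order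
      · obtain ⟨w, hw, hw1⟩ := exists_ord (p := p) i
        obtain ⟨y, hy, hwy, huy⟩ := q1 w hw ((le_iff he hw).2 (by omega)) (by
          rw [le_iff hel hw, om he hl0]; omega)
        refine ⟨y.order, fun _ _ => ⟨?_, fun j' hj' => ?_⟩⟩
        · rw [er_iff hw hy, hw1] at hwy
          exact hwy
        · obtain ⟨y', hy', hy1⟩ := exists_ord (p := p) j'
          have h1 := huy y' hy' (by rw [er_iff hw hy', hw1, hy1]; exact hj')
          rw [eqv_iff hy' hy, hy1] at h1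
          exact h1
      · exact ⟨0, fun h1 h2 => absurd ⟨h1, h2⟩ h⟩
    choose f hf using hf
    have hfe : ∀ {s t : LaurentSeries (ZMod p)}, s ≠ 0 → t ≠ 0 → e.order ≤ s.order →
        s.order < e.order + l.order → ER R s t u → t.order = f s.order := by
      intro s t hs ht h1 h2 h3
      rw [er_iff hs ht] at h3
      exact (hf _ h1 h2).2 _ h3
    have hsec : ∀ i, e.order ≤ i → i + 2 < e.order + l.order →
        f i + f (i + 2) = g.order + 2 * f (i + 1) := by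
      intro i h1 h2
      obtain ⟨w, hw, hw1⟩ := exists_ord (p := p) i
      obtain ⟨y0, hy0, k0⟩ := exists_ord (p := p) (f i)
      obtain ⟨y1, hy1, k1⟩ := exists_ord (p := p) (f (i + 1))
      obtain ⟨y2, hy2, k2⟩ := exists_ord (p := p) (f (i + 2))
      have hwτ := mul_ne_zero hw hτ0
      have hwττ := mul_ne_zero hwτ hτ0
      have o1 : (w * τ).order = i + 1 := by rw [om hw hτ0, hw1, hτ1]
      have o2 : (w * τ * τ).order = i + 2 := by rw [om hwτ hτ0, o1, hτ1]; ring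
      have h3 := q2 w hw ((le_iff he hw).2 (by omega)) (by
          rw [le_iff hel hwττ, om he hl0, o2]; omega) y0 hy0 y1 hy1 y2 hy2
          (by rw [er_iff hw hy0, hw1, k0]; exact (hf i (by omega) (by omega)).1)
          (by rw [er_iff hwτ hy1, o1, k1]; exact (hf (i + 1) (by omega) (by omega)).1)
          (by rw [er_iff hwττ hy2, o2, k2]; exact (hf (i + 2) (by omega) (by omega)).1)
      rw [eqv_iff (mul_ne_zero hy0 hy2) (mul_ne_zero (mul_ne_zero hg hy1) hy1), om hy0 hy2,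
        om (mul_ne_zero hg hy1) hy1, om hg hy1, k0, k1, k2] at h3
      linarith
    have m1 := mixed hsec a b (by omega)
    have m2 := mixed hsec k 1 (by push_cast; omega)
    have hxy := mul_ne_zero hx.1 hy.1
    have hzτ := mul_ne_zero hz.1 hτ0
    have o1 : (e * (x * y)).order = e.order + (a + b) := by
      rw [om he hxy, om hx.1 hy.1, ha, hb]
    have o2 : (e * x).order = e.order + a := by rw [om he hx.1, ha]
    have o3 : (e * y).order = e.order + b := by rw [om he hy.1, hb]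
    have o4 : (e * (z * τ)).order = e.order + (k + 1) := by
      rw [om he hzτ, om hz.1 hτ0, hk, hτ1]
    have o5 : (e * z).order = e.order + k := by rw [om he hz.1, hk]
    have o6 : (e * τ).order = e.order + 1 := by rw [om he hτ0, hτ1]
    have p1 := hfe (mul_ne_zero he hxy) n1 (by omega) (by omega) r1
    have p2 := hfe (mul_ne_zero he hx.1) n2 (by omega) (by omega) r2
    have p3 := hfe (mul_ne_zero he hy.1) n3 (by omega) (by omega) r3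
    have p4 := hfe (mul_ne_zero he hzτ) n4 (by omega) (by omega) r4
    have p5 := hfe (mul_ne_zero he hz.1) n5 (by omega) (by omega) r5
    have p6 := hfe (mul_ne_zero he hτ0) n6 (by omega) (by omega) r6
    rw [o1] at p1
    rw [o2] at p2
    rw [o3] at p3
    rw [o4] at p4
    rw [o5] at p5
    rw [o6] at p6
    rw [eqv_iff (mul_ne_zero (mul_ne_zero n1 n5) n6) (mul_ne_zero (mul_ne_zero n4 n2) n3),
      om (mul_ne_zero n1 n5) n6, om n1 n5, om (mul_ne_zero n4 n2) n3, om n4 n2,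
      p1, p2, p3, p4, p5, p6] at r7
    push_cast at m2
    have hg2 : g.order ≠ 0 := by
      intro h
      apply hg1
      rw [eqv_iff hg one_ne_zero, h, ord_one]
    have h9 : g.order * ((a : ℤ) * b - k) = 0 := by linarith
    have h10 : (a : ℤ) * b - k = 0 := (mul_eq_zero.1 h9).resolve_left hg2
    rw [ha, hb, hk]
    linarith
  · intro h
    rw [ha, hb, hk] at h
    obtain ⟨u, m, f, c, hc, h1, h2⟩ := hq (a + b + k + 2)
    obtain ⟨e, he, he1⟩ := exists_ord (p := p) m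
    obtain ⟨l, hl, hl1⟩ := exists_ord (p := p) ((a + b + k + 2 : ℕ) : ℤ)
    obtain ⟨τ, hτ0, hτ1⟩ := exists_ord (p := p) 1
    obtain ⟨g, hg, hg1⟩ := exists_ord (p := p) c
    have hel : e * l ≠ 0 := mul_ne_zero he hl
    have hxy := mul_ne_zero hx.1 hy.1
    have hzτ := mul_ne_zero hz.1 hτ0
    push_cast at hl1 h1 h2
    have hle : (0 : ℤ) ≤ a ∧ (0 : ℤ) ≤ b ∧ (0 : ℤ) ≤ k := ⟨by omega, by omega, by omega⟩
    refine ⟨u, e, he, l, (nn_iff hl).2 (by omega), τ, (un_iff τ).2 ⟨hτ0, hτ1⟩, ⟨?_, g, hg, ?_, ?_⟩,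
      ?_, ?_, ?_⟩
    · intro w hw h3 h4
      rw [le_iff he hw, he1] at h3
      rw [le_iff hel hw, om he hl, he1, hl1] at h4
      obtain ⟨y, hy, hy1⟩ := exists_ord (p := p) (f w.order)
      refine ⟨y, hy, ?_, fun y' hy' h5 => ?_⟩
      · rw [er_iff hw hy, h1 _ h3 (by omega), hy1]
      · rw [er_iff hw hy', h1 _ h3 (by omega)] at h5
        rw [eqv_iff hy' hy, h5, hy1]
    · rw [eqv_iff hg one_ne_zero, hg1, ord_one]
      exact hc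
    · intro w hw h3 h4 y0 hy0 y1 hy1 y2 hy2 r0 r1 r2
      have hwτ := mul_ne_zero hw hτ0
      have hwττ := mul_ne_zero hwτ hτ0
      have o1 : (w * τ).order = w.order + 1 := by rw [om hw hτ0, hτ1]
      have o2 : (w * τ * τ).order = w.order + 2 := by rw [om hwτ hτ0, o1, hτ1]; ring
      rw [le_iff he hw, he1] at h3
      rw [le_iff hel hwττ, om he hl, he1, hl1, o2] at h4
      rw [er_iff hw hy0, h1 _ (by omega) (by omega)] at r0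
      rw [er_iff hwτ hy1, o1, h1 _ (by omega) (by omega)] at r1
      rw [er_iff hwττ hy2, o2, h1 _ (by omega) (by omega)] at r2
      rw [eqv_iff (mul_ne_zero hy0 hy2) (mul_ne_zero (mul_ne_zero hg hy1) hy1), om hy0 hy2,
        om (mul_ne_zero hg hy1) hy1, om hg hy1, r0, r1, r2, hg1]
      have := h2 w.order h3 (by omega)
      linarith
    · rw [le_iff hl hxy, om hx.1 hy.1, hl1, ha, hb]
      push_cast
      omega
    · rw [le_iff hl hzτ, om hz.1 hτ0, hl1, hk, hτ1]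
      push_cast
      omega
    · have o1 : (e * (x * y)).order = m + (a + b) := by
        rw [om he hxy, om hx.1 hy.1, ha, hb, he1]
      have o2 : (e * x).order = m + a := by rw [om he hx.1, ha, he1]
      have o3 : (e * y).order = m + b := by rw [om he hy.1, hb, he1]
      have o4 : (e * (z * τ)).order = m + (k + 1) := by
        rw [om he hzτ, om hz.1 hτ0, hk, hτ1, he1]
      have o5 : (e * z).order = m + k := by rw [om he hz.1, hk, he1]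
      have o6 : (e * τ).order = m + 1 := by rw [om he hτ0, hτ1, he1]
      obtain ⟨y1, n1, k1⟩ := exists_ord (p := p) (f (m + (a + b)))
      obtain ⟨y2, n2, k2⟩ := exists_ord (p := p) (f (m + a))
      obtain ⟨y3, n3, k3⟩ := exists_ord (p := p) (f (m + b))
      obtain ⟨y4, n4, k4⟩ := exists_ord (p := p) (f (m + (k + 1)))
      obtain ⟨y5, n5, k5⟩ := exists_ord (p := p) (f (m + k))
      obtain ⟨y6, n6, k6⟩ := exists_ord (p := p) (f (m + 1))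
      have m1 := mixed (l := (a : ℤ) + b + k + 2) h2 a b (by omega)
      have m2 := mixed (l := (a : ℤ) + b + k + 2) h2 k 1 (by push_cast; omega)
      push_cast at m2
      refine ⟨y1, n1, y2, n2, y3, n3, y4, n4, y5, n5, y6, n6, ?_, ?_, ?_, ?_, ?_, ?_, ?_⟩
      · rw [er_iff (mul_ne_zero he hxy) n1, o1, h1 _ (by omega) (by omega), k1]
      · rw [er_iff (mul_ne_zero he hx.1) n2, o2, h1 _ (by omega) (by omega), k2]
      · rw [er_iff (mul_ne_zero he hy.1) n3, o3, h1 _ (by omega) (by omega), k3]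
      · rw [er_iff (mul_ne_zero he hzτ) n4, o4, h1 _ (by omega) (by omega), k4]
      · rw [er_iff (mul_ne_zero he hz.1) n5, o5, h1 _ (by omega) (by omega), k5]
      · rw [er_iff (mul_ne_zero he hτ0) n6, o6, h1 _ (by omega) (by omega), k6]
      · rw [eqv_iff (mul_ne_zero (mul_ne_zero n1 n5) n6) (mul_ne_zero (mul_ne_zero n4 n2) n3),
          om (mul_ne_zero n1 n5) n6, om n1 n5, om (mul_ne_zero n4 n2) n3, om n4 n2,
          k1, k2, k3, k4, k5, k6]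
        have h' : (a : ℤ) * b = k := h
        rw [h'] at m1
        linarith

end Pool.Agent.K9h38.VL
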