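import Pool.Agent.K9h38.VL.Thk

/-! # Thick finite sets: counting -/

set_option autoImplicit false

namespace Pool.Agent.K9h38.VL

open Function Pool.Agent.Y924.EL Pool.Agent.Y924.UF Pool.Agent.K9h38.VG

/-- a relation which is a bijection gives equality of the numbers of elements -/
theorem ncard_rel {α β : Type} {A : Set α} {B : Set β} (r : α → β → Prop)
    (h1 : ∀ a ∈ A, ∃ b ∈ B, r a b) (h2 : ∀ b ∈ B, ∃ a ∈ A, r a b)
    (h3 : ∀ a ∈ A, ∀ a' ∈ A, ∀ b ∈ B, ∀ b' ∈ B, r a b → r a' b' → (a = a' ↔ b = b')) :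
    A.ncard = B.ncard := by
  choose f hf using h1
  refine Set.ncard_congr (fun a ha => f a ha) (fun a ha => (hf a ha).1) ?_ ?_
  · intro a b ha hb hab
    exact (h3 a ha b hb _ (hf a ha).1 _ (hf b hb).1 (hf a ha).2 (hf b hb).2).2 hab
  · intro b hb
    obtain ⟨a, ha, hab⟩ := h2 b hb
    exact ⟨a, ha, (h3 a ha a ha _ (hf a ha).1 _ hb (hf a ha).2 hab).1 rfl⟩

variable {p : ℕ} [Fact p.Prime]

/-- congruence modulo `c` -/
def sd (c : LaurentSeries (ZMod p)) : Setoid (LaurentSeries (ZMod p)) where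
  r x y := Le c (x - y)
  iseqv := ⟨fun x => by rw [sub_self]; exact Le.zero, fun h => cg_symm h,
    fun h h' => cg_trans h h'⟩

/-- the classes -/
def Cl (c : LaurentSeries (ZMod p)) (X : Set (LaurentSeries (ZMod p))) :
    Set (Quotient (sd c)) := (fun x => (Quotient.mk (sd c) x)) '' X

theorem mk_eq {c x y : LaurentSeries (ZMod p)} :
    (Quotient.mk (sd c) x) = (Quotient.mk (sd c) y) ↔ Le c (x - y) := by
  rw [Quotient.eq]
  rfl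

/-- the polynomial with given coefficients -/
noncomputable def pol (N : ℕ) (a : Fin N → ZMod p) : LaurentSeries (ZMod p) :=
  algebraMap (PowerSeries (ZMod p)) (LaurentSeries (ZMod p))
    (PowerSeries.mk fun i => if h : i < N then a ⟨i, h⟩ else 0)

theorem pol_coeff (N : ℕ) (a : Fin N → ZMod p) (i : ℕ) :
    (pol N a).coeff (i : ℤ) = if h : i < N then a ⟨i, h⟩ else 0 := by
  unfold pol
  rw [LaurentSeries.coe_algebraMap, PowerSeries.coeff_coe, if_neg (by omega),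
    PowerSeries.coeff_mk]
  simp

theorem pol_neg (N : ℕ) (a : Fin N → ZMod p) (n : ℤ) (hn : n < 0) : (pol N a).coeff n = 0 := by
  unfold pol
  rw [LaurentSeries.coe_algebraMap, PowerSeries.coeff_coe, if_pos hn]

/-- congruence of elements and of coefficients -/
theorem le_single {r : ℤ} {x : LaurentSeries (ZMod p)} :
    Le (HahnSeries.single r (1 : ZMod p)) x ↔ ∀ k < r, x.coeff k = 0 := by
  constructor
  · rintro ⟨z, hz, rfl⟩ k hk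
    rw [HahnSeries.coeff_single_mul, one_mul]
    exact (Pool.Agent.Y155.UF.mem_OO z).1 hz _ (by omega)
  · intro h
    refine ⟨HahnSeries.single (-r) 1 * x, ?_, ?_⟩
    · rw [Pool.Agent.Y155.UF.mem_OO]
      intro n hn
      rw [HahnSeries.coeff_single_mul, one_mul]
      exact h _ (by omega)
    · rw [← mul_assoc, HahnSeries.single_mul_single, add_neg_cancel, one_mul,
        HahnSeries.single_zero_one, one_mul]

theorem le_single_sub {r : ℤ} {x y : LaurentSeries (ZMod p)} :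
    Le (HahnSeries.single r (1 : ZMod p)) (x - y) ↔ ∀ k < r, x.coeff k = y.coeff k := by
  rw [le_single]
  refine forall_congr' fun k => forall_congr' fun _ => ?_
  rw [HahnSeries.coeff_sub, sub_eq_zero]

theorem le_trans' {c d x : LaurentSeries (ZMod p)} (h : Le c d) (h' : Le d x) : Le c x := by
  obtain ⟨z, hz, rfl⟩ := h
  obtain ⟨w, hw, rfl⟩ := h'
  exact ⟨z * w, O_mul hz hw, by ring⟩

theorem le_of_ord {c : LaurentSeries (ZMod p)} (hc : c ≠ 0) {r : ℤ} (h : c.order ≤ r) :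
    Le c (HahnSeries.single r (1 : ZMod p)) := by
  rw [le_iff hc (HahnSeries.single_ne_zero one_ne_zero), HahnSeries.order_single one_ne_zero]
  exact h

theorem fin_Cl {c : LaurentSeries (ZMod p)} (hc : c ≠ 0) {X : Set (LaurentSeries (ZMod p))}
    (hX : ∀ x ∈ X, x ∈ OO p) : (Cl c X).Finite := by
  obtain ⟨N, hN⟩ : ∃ N : ℕ, c.order ≤ N := ⟨c.order.toNat, Int.self_le_toNat _⟩
  refine (Set.finite_range fun a : Fin N → ZMod p => (Quotient.mk (sd c) (pol N a))).subset ?_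
  rintro _ ⟨x, hx, rfl⟩
  refine ⟨fun i => x.coeff (i : ℕ), ?_⟩
  beta_reduce
  rw [mk_eq]
  refine le_trans' (le_of_ord hc hN) (le_single_sub.2 fun k hk => ?_)
  by_cases h0 : k < 0
  · rw [pol_neg _ _ _ h0, (Pool.Agent.Y155.UF.mem_OO x).1 (hX x hx) _ h0]
  · obtain ⟨i, rfl⟩ := Int.eq_ofNat_of_zero_le (not_lt.1 h0)
    have hi : i < N := by exact_mod_cast hk
    rw [pol_coeff, dif_pos hi]

variable (R : LaurentSeries (ZMod p) → (ℕ → LaurentSeries (ZMod p)) → Prop)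

/-- the number of classes -/
noncomputable def nu (r : ℕ → LaurentSeries (ZMod p)) : ℕ := (Cl (r 0) {x | Mm R x r}).ncard

variable {R}

theorem fin_nu {r : ℕ → LaurentSeries (ZMod p)} (hr : r 0 ≠ 0) : (Cl (r 0) {x | Mm R x r}).Finite :=
  fin_Cl hr fun _ hx => hx.1

/-- the relation induced on the classes -/
def iR (B : LaurentSeries (ZMod p) → LaurentSeries (ZMod p) → Prop)
    (X Y : Set (LaurentSeries (ZMod p))) (c d : LaurentSeries (ZMod p)) (α : Quotient (sd c))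
    (β : Quotient (sd d)) : Prop :=
  ∃ x ∈ X, ∃ y ∈ Y, α = (Quotient.mk (sd c) x) ∧ β = (Quotient.mk (sd d) y) ∧ B x y

theorem E0.nu_eq {r r' : ℕ → LaurentSeries (ZMod p)} (h : E0 R r r') : nu R r = nu R r' := by
  obtain ⟨q, h1, h2, h3⟩ := h
  refine ncard_rel (iR (Bb q 3) {x | Mm R x r} {x | Mm R x r'} (r 0) (r' 0)) ?_ ?_ ?_
  · rintro _ ⟨x, hx, rfl⟩
    obtain ⟨f, hf, hf2⟩ := h1 (fun _ => x) hx
    exact ⟨_, ⟨f 0, hf, rfl⟩, x, hx, f 0, hf, rfl, rfl, hf2⟩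
  · rintro _ ⟨y, hy, rfl⟩
    obtain ⟨f, hf, hf2⟩ := h2 (fun _ => y) hy
    exact ⟨_, ⟨f 0, hf, rfl⟩, f 0, hf, y, hy, rfl, rfl, hf2⟩
  · rintro _ - _ - _ - _ - ⟨x, hx, y, hy, rfl, rfl, hb⟩ ⟨x', hx', y', hy', rfl, rfl, hb'⟩
    rw [mk_eq, mk_eq]
    have h4 := h3 (cns x (cns x' (cns y (fun _ => y')))) hx hx' hy hy' hb hb'
    exact ⟨h4.1, h4.2⟩

theorem T0.nu_eq {r1 r2 r3 r4 : ℕ → LaurentSeries (ZMod p)} (h : T0 R r1 r2 r3 r4)
    (h4 : r4 0 ≠ 0) : nu R r1 * nu R r2 + nu R r3 = nu R r4 := by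
  obtain ⟨q, a1, a2, a3, a4, a5, a6, a7, a8⟩ := h
  have e1 : Cl (r4 0) {x | Mm R x r4} = Cl (r4 0) {x | Mm R x r4 ∧ Bb q 6 x x} ∪
      Cl (r4 0) {x | Mm R x r4 ∧ ¬ Bb q 6 x x} := by
    unfold Cl
    rw [← Set.image_union]
    congr 1
    ext x
    simp only [Set.mem_ofPred_eq, Set.mem_union]
    tauto
  have e2 : Disjoint (Cl (r4 0) {x | Mm R x r4 ∧ Bb q 6 x x})
      (Cl (r4 0) {x | Mm R x r4 ∧ ¬ Bb q 6 x x}) := by
    rw [Set.disjoint_left]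
    rintro _ ⟨x, hx, rfl⟩ ⟨y, hy, hxy⟩
    beta_reduce at hxy
    rw [mk_eq] at hxy
    exact hy.2 (a1 (cns x (fun _ => y)) hx.1 hy.1 (cg_symm hxy) hx.2)
  have f1 : (Cl (r4 0) {x | Mm R x r4 ∧ Bb q 6 x x}).Finite := fin_Cl h4 fun _ hx => hx.1.1
  have f2 : (Cl (r4 0) {x | Mm R x r4 ∧ ¬ Bb q 6 x x}).Finite := fin_Cl h4 fun _ hx => hx.1.1
  have g1 : (Cl (r4 0) {x | Mm R x r4 ∧ Bb q 6 x x}).ncard = nu R r1 * nu R r2 := by
    unfold nu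
    rw [← Set.ncard_prod]
    refine ncard_rel (fun α β => ∃ z, (Mm R z r4 ∧ Bb q 6 z z) ∧ ∃ x, Mm R x r1 ∧ ∃ y, Mm R y r2 ∧
      α = (Quotient.mk (sd (r4 0)) z) ∧ β = ((Quotient.mk (sd (r1 0)) x),
        (Quotient.mk (sd (r2 0)) y)) ∧ Bb q 3 z x ∧ Bb q 4 z y) ?_ ?_ ?_
    · rintro _ ⟨z, hz, rfl⟩
      obtain ⟨f, hf, hf2⟩ := a2 (fun _ => z) hz.1 hz.2
      obtain ⟨g, hg, hg2⟩ := a3 (fun _ => z) hz.1 hz.2
      exact ⟨(_, _), ⟨⟨f 0, hf, rfl⟩, ⟨g 0, hg, rfl⟩⟩, z, hz, f 0, hf, g 0, hg, rfl, rfl, hf2, hg2⟩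
    · rintro ⟨_, _⟩ ⟨⟨x, hx, rfl⟩, ⟨y, hy, rfl⟩⟩
      obtain ⟨f, hf, hf2, hf3, hf4⟩ := a4 (cns x (fun _ => y)) hx hy
      exact ⟨_, ⟨f 0, ⟨hf, hf2⟩, rfl⟩, f 0, ⟨hf, hf2⟩, x, hx, y, hy, rfl, rfl, hf3, hf4⟩
    · rintro _ - _ - _ - _ - ⟨z, hz, x, hx, y, hy, rfl, rfl, hb, hc⟩
        ⟨z', hz', x', hx', y', hy', rfl, rfl, hb', hc'⟩
      rw [Prod.mk.injEq, mk_eq, mk_eq, mk_eq]
      have h5 := a5 (cns z (cns z' (cns x (cns x' (cns y (fun _ => y')))))) hz.1 hz'.1 hx hx' hy hy'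
        hz.2 hz'.2 hb hb' hc hc'
      exact ⟨h5.1, fun h => h5.2 h.1 h.2⟩
  have g2 : (Cl (r4 0) {x | Mm R x r4 ∧ ¬ Bb q 6 x x}).ncard = nu R r3 := by
    refine ncard_rel (iR (Bb q 5) {x | Mm R x r4 ∧ ¬ Bb q 6 x x} {x | Mm R x r3} (r4 0) (r3 0))
      ?_ ?_ ?_
    · rintro _ ⟨x, hx, rfl⟩
      obtain ⟨f, hf, hf2⟩ := a6 (fun _ => x) hx.1 hx.2
      exact ⟨_, ⟨f 0, hf, rfl⟩, x, hx, f 0, hf, rfl, rfl, hf2⟩
    · rintro _ ⟨y, hy, rfl⟩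
      obtain ⟨f, hf, hf2, hf3⟩ := a7 (fun _ => y) hy
      exact ⟨_, ⟨f 0, ⟨hf, hf2⟩, rfl⟩, f 0, ⟨hf, hf2⟩, y, hy, rfl, rfl, hf3⟩
    · rintro _ - _ - _ - _ - ⟨x, hx, y, hy, rfl, rfl, hb⟩ ⟨x', hx', y', hy', rfl, rfl, hb'⟩
      rw [mk_eq, mk_eq]
      have h5 := a8 (cns x (cns x' (cns y (fun _ => y')))) hx.1 hx'.1 hy hy' hx.2 hx'.2 hb hb'
      exact ⟨h5.1, h5.2⟩
  rw [← g1, ← g2]
  unfold nu
  rw [e1, Set.ncard_union_eq e2 f1 f2]

theorem T.nu_eq {r1 r2 r3 r4 : ℕ → LaurentSeries (ZMod p)} (h : T R r1 r2 r3 r4)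
    (h4 : r4 0 ≠ 0) : nu R r1 * nu R r2 + nu R r3 = nu R r4 := by
  obtain ⟨a, ha, b, hb, c, hc, d, hd, h5⟩ := h
  rw [ha.2.nu_eq, hb.2.nu_eq, hc.2.nu_eq, hd.2.nu_eq]
  exact h5.nu_eq (by rw [hd.1]; exact h4)

theorem on_iff {r : ℕ → LaurentSeries (ZMod p)} : On R r ↔ nu R r = 1 := by
  unfold nu
  rw [Set.ncard_eq_one]
  constructor
  · rintro ⟨e, he, h⟩
    refine ⟨Quotient.mk (sd (r 0)) (e 0), ?_⟩
    ext α
    constructor
    · rintro ⟨x, hx, rfl⟩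
      exact mk_eq.2 (h (fun _ => x) hx)
    · rintro rfl
      exact ⟨e 0, he, rfl⟩
  · rintro ⟨α, h⟩
    have h1 : α ∈ Cl (r 0) {x | Mm R x r} := by rw [h]; exact Set.mem_singleton _
    obtain ⟨x, hx, rfl⟩ := h1
    refine ⟨fun _ => x, hx, fun f hf => ?_⟩
    have h2 : (Quotient.mk (sd (r 0)) (f 0)) ∈ Cl (r 0) {x | Mm R x r} := ⟨f 0, hf, rfl⟩
    rw [h] at h2
    exact mk_eq.1 h2

theorem zr_iff {r : ℕ → LaurentSeries (ZMod p)} (hr : r 0 ≠ 0) : Zr R r ↔ nu R r = 0 := by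
  unfold nu
  rw [Set.ncard_eq_zero (fin_nu hr)]
  constructor
  · intro h
    rw [Set.eq_empty_iff_forall_notMem]
    rintro _ ⟨x, hx, rfl⟩
    exact h (fun _ => x) hx
  · intro h e he
    have h2 : (Quotient.mk (sd (r 0)) (e 0)) ∈ Cl (r 0) {x | Mm R x r} := ⟨e 0, he, rfl⟩
    rw [h] at h2
    exact h2

end Pool.Agent.K9h38.VL
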