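import Pool.Agent.K9h38.VL.Poly
import Pool.Agent.K9h38.VG.Sec2

/-! # Sets of the values of quadratic functions in the value group -/

set_option autoImplicit false

namespace Pool.Agent.K9h38.VL

open Function Pool.Agent.Y924.EL Pool.Agent.Y924.UF Pool.Agent.K9h38.VG

variable {p : ℕ} [Fact p.Prime] {P : Set (LaurentSeries (ZMod p))}

/-- the valuation of `x` is the valuation of an element of the set -/
def IV (R : LaurentSeries (ZMod p) → (ℕ → LaurentSeries (ZMod p)) → Prop)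
    (x : LaurentSeries (ZMod p)) (u : ℕ → LaurentSeries (ZMod p)) : Prop :=
  ∃ z, z ≠ 0 ∧ Eqv z x ∧ R z u

/-- `w` is the index of the element `x` of a sequence with gaps `β, β w, ...` -/
def Ix (R : LaurentSeries (ZMod p) → (ℕ → LaurentSeries (ZMod p)) → Prop) (c : ℕ)
    (w x : LaurentSeries (ZMod p)) (u : ℕ → LaurentSeries (ZMod p)) : Prop :=
  Le (u 1) x ∧ IV R x (fun n => u (n + 3)) ∧ ∃ x', x' ≠ 0 ∧ Le x' (u 2) ∧
    IV R x' (fun n => u (n + 3)) ∧ ¬ Le x' x ∧
    (∀ y, y ≠ 0 → IV R y (fun n => u (n + 3)) → ¬ Le y x → Le x' y) ∧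
    Eqv x' (x * (u 0 * w ^ c))

variable {R : LaurentSeries (ZMod p) → (ℕ → LaurentSeries (ZMod p)) → Prop}

theorem iv_iff {x : LaurentSeries (ZMod p)} (hx : x ≠ 0) (u : ℕ → LaurentSeries (ZMod p)) :
    IV R x u ↔ x.order ∈ Vals {z | R z u} := by
  constructor
  · rintro ⟨z, h1, h2, h3⟩
    exact ⟨z, h3, h1, (eqv_iff h1 hx).1 h2⟩
  · rintro ⟨z, h3, h1, h2⟩
    exact ⟨z, h1, (eqv_iff h1 hx).2 h2, h3⟩

theorem df_IV (hR : Df P (fun w => R (w 0) (fun n => w (n + 1))))
    {f : (ℕ → LaurentSeries (ZMod p)) → LaurentSeries (ZMod p)} (hf : DFn P f) (σ : ℕ → ℕ) :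
    Df P (fun v => IV R (f v) (fun n => v (σ n))) := by
  have h0 : Df P (fun v => IV R (v 0) (fun n => v (n + 1))) := by
    refine Df.ex1 (R := fun z v => z ≠ 0 ∧ Eqv z (v 0) ∧ R z (fun n => v (n + 1))) ?_
    exact (Df.ne (DFn.var 0) DFn.zero).and ((df_Eqv (DFn.var 0) (DFn.var 1)).and
      (df_R hR (DFn.var 0) (fun n => n + 2)))
  exact df_R h0 hf σ

theorem d2_Ix (hR : Df P (fun w => R (w 0) (fun n => w (n + 1)))) (c : ℕ) : D2 P (Ix R c) := by
  refine (df_Le (DFn.var 3) (DFn.var 1)).and ((df_IV hR (DFn.var 1) (fun n => n + 5)).and ?_)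
  refine Df.ex1 (R := fun x' v => x' ≠ 0 ∧ Le x' (v 4) ∧
    IV R x' (fun n => v (n + 5)) ∧ ¬ Le x' (v 1) ∧
    (∀ y, y ≠ 0 → IV R y (fun n => v (n + 5)) → ¬ Le y (v 1) → Le x' y) ∧
    Eqv x' (v 1 * (v 2 * v 0 ^ c))) ?_
  refine (Df.ne (DFn.var 0) DFn.zero).and ((df_Le (DFn.var 0) (DFn.var 5)).and
    ((df_IV hR (DFn.var 0) (fun n => n + 6)).and ((df_Le (DFn.var 0) (DFn.var 2)).not.and
    (Df.and ?_ (df_Eqv (DFn.var 0) ((DFn.var 2).mul ((DFn.var 3).mul
      ((DFn.var 1).pow c))))))))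
  refine Df.all1 (R := fun y v => y ≠ 0 → IV R y (fun n => v (n + 6)) → ¬ Le y (v 2) →
    Le (v 0) y) ?_
  exact (Df.ne (DFn.var 0) DFn.zero).imp ((df_IV hR (DFn.var 0) (fun n => n + 7)).imp
    ((df_Le (DFn.var 0) (DFn.var 3)).not.imp (df_Le (DFn.var 1) (DFn.var 0))))

theorem vr_Ix (c : ℕ) {u : ℕ → LaurentSeries (ZMod p)} (h0 : u 0 ≠ 0) (h1 : u 1 ≠ 0)
    (h2 : u 2 ≠ 0) (i j : ℤ) : VR (Ix R c) u i j ↔
      (u 1).order ≤ j ∧ j ∈ Vals {z | R z (fun n => u (n + 3))} ∧ ∃ j', j' ≤ (u 2).order ∧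
        j' ∈ Vals {z | R z (fun n => u (n + 3))} ∧ j < j' ∧
        (∀ k ∈ Vals {z | R z (fun n => u (n + 3))}, j < k → j' ≤ k) ∧
        j' = j + ((u 0).order + c * i) := by
  have om : ∀ {s t : LaurentSeries (ZMod p)}, s ≠ 0 → t ≠ 0 → (s * t).order = s.order + t.order :=
    fun hs ht => Pool.Agent.Y748.UF.ord_mul hs ht
  constructor
  · rintro ⟨w, x, hw, hx, rfl, rfl, a1, a2, x', a3, a4, a5, a6, a7, a8⟩
    refine ⟨(le_iff h1 hx).1 a1, (iv_iff hx _).1 a2, x'.order, (le_iff a3 h2).1 a4,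
      (iv_iff a3 _).1 a5, ?_, fun k hk hjk => ?_, ?_⟩
    · rw [le_iff a3 hx] at a6
      omega
    · obtain ⟨y, hy, hy1⟩ := exists_ord (p := p) k
      have h3 := a7 y hy ((iv_iff hy _).2 (by rw [hy1]; exact hk)) (by
        rw [le_iff hy hx, hy1]; omega)
      rw [le_iff a3 hy, hy1] at h3
      exact h3
    · rw [eqv_iff a3 (mul_ne_zero hx (mul_ne_zero h0 (pow_ne_zero _ hw))),
        om hx (mul_ne_zero h0 (pow_ne_zero _ hw)), om h0 (pow_ne_zero _ hw),
        Pool.Agent.Y748.UF.ord_pow hw] at a8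
      exact a8
  · rintro ⟨a1, a2, j', a3, a4, a5, a6, a7⟩
    obtain ⟨w, hw, hw1⟩ := exists_ord (p := p) i
    obtain ⟨x, hx, hx1⟩ := exists_ord (p := p) j
    obtain ⟨x', hx', hx1'⟩ := exists_ord (p := p) j'
    refine ⟨w, x, hw, hx, hw1, hx1, (le_iff h1 hx).2 (by omega), (iv_iff hx _).2 (by
      rw [hx1]; exact a2), x', hx', (le_iff hx' h2).2 (by omega), (iv_iff hx' _).2 (by
      rw [hx1']; exact a4), ?_, fun y hy hy1 hy2 => ?_, ?_⟩
    · rw [le_iff hx' hx]
      omega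
    · rw [le_iff hy hx, hx1] at hy2
      rw [le_iff hx' hy, hx1']
      exact a6 _ ((iv_iff hy _).1 hy1) (by omega)
    · rw [eqv_iff hx' (mul_ne_zero hx (mul_ne_zero h0 (pow_ne_zero _ hw))),
        om hx (mul_ne_zero h0 (pow_ne_zero _ hw)), om h0 (pow_ne_zero _ hw),
        Pool.Agent.Y748.UF.ord_pow hw, hx1, hx1', hw1]
      exact a7

/-- true arithmetic is reducible to the theory if the sets of values of quadratic functions
with a fixed leading coefficient are traces of the sets of valuations of a definable family -/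
theorem arith_of_squares (hR : Df P (fun w => R (w 0) (fun n => w (n + 1)))) (c : ℕ) (hc : c ≠ 0)
    (h : ∀ k : ℕ, ∃ (u : ℕ → LaurentSeries (ZMod p)) (f : ℕ → ℤ),
      (∀ n, n < k → f n < f (n + 1)) ∧ (∀ n, f n + f (n + 2) = c + 2 * f (n + 1)) ∧
      Vals {z | R z u} ∩ Set.Icc (f 0) (f k) = {j | ∃ n, n ≤ k ∧ j = f n}) :
    ∃ F : ℕ → ℕ, Primrec F ∧ ∀ ψ : Fm, ψ.fv = ∅ → ((∀ n : ℕ → ℕ, Sat (∅ : Set ℕ) ψ n) ↔
      ∃ χ : Fm, χ.code = F ψ.code ∧ χ.fv = ∅ ∧ ∀ v, Sat P χ v) := by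
  refine arith_of_quad (d2_Ix hR c) fun H => ?_
  obtain ⟨u, f, h1, h2, h3⟩ := h H
  obtain ⟨β, hβ, hβ1⟩ := exists_ord (p := p) (f 1 - f 0)
  obtain ⟨μ, hμ, hμ1⟩ := exists_ord (p := p) (f 0)
  obtain ⟨M, hM, hM1⟩ := exists_ord (p := p) (f H)
  have hgap : ∀ n : ℕ, f (n + 1) = f n + ((f 1 - f 0) + c * n) := by
    intro n
    induction n with
    | zero => simp
    | succ n ih =>
      have := h2 n
      rw [show n + 1 + 1 = n + 2 by ring]
      push_cast
      linarith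
  have hmono : ∀ a b : ℕ, a < b → b ≤ H → f a < f b := by
    intro a b hab
    induction b with
    | zero => omega
    | succ b ih =>
      intro hb
      rcases Nat.lt_succ_iff_lt_or_eq.1 hab with h4 | rfl
      · exact (ih h4 (by omega)).trans (h1 b (by omega))
      · exact h1 a (by omega)
  have hmem : ∀ j : ℤ, f 0 ≤ j → j ≤ f H → (j ∈ Vals {z | R z u} ↔ ∃ n, n ≤ H ∧ j = f n) := by
    intro j hj1 hj2
    have h4 : j ∈ Vals {z | R z u} ∩ Set.Icc (f 0) (f H) ↔ j ∈ {j | ∃ n, n ≤ H ∧ j = f n} := by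
      rw [h3]
    constructor
    · intro h5
      exact h4.1 ⟨h5, hj1, hj2⟩
    · intro h5
      exact (h4.2 h5).1
  refine ⟨cns β (cns μ (cns M u)), 0, fun i => f i.toNat, c, by exact_mod_cast hc, ?_, ?_⟩
  · intro i hi0 hi1 j
    obtain ⟨n, rfl⟩ := Int.eq_ofNat_of_zero_le hi0
    have hnH : n < H := by
      rw [zero_add] at hi1
      exact_mod_cast hi1
    rw [vr_Ix (u := cns β (cns μ (cns M u))) c hβ hμ hM]
    change μ.order ≤ j ∧ j ∈ Vals {z | R z u} ∧ (∃ j', j' ≤ M.order ∧ j' ∈ Vals {z | R z u} ∧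
      j < j' ∧ (∀ k ∈ Vals {z | R z u}, j < k → j' ≤ k) ∧ j' = j + (β.order + c * n)) ↔ j = f n
    rw [hμ1, hM1, hβ1]
    constructor
    · rintro ⟨a1, a2, j', a3, a4, a5, a6, a7⟩
      obtain ⟨k, hk, rfl⟩ := (hmem j a1 (by omega)).1 a2
      have hkH : k < H := by
        by_contra hc
        have : k = H := by omega
        subst this
        omega
      have h5 := a6 (f (k + 1)) ((hmem _ (by
        rcases Nat.eq_zero_or_pos k with h0 | h0
        · subst h0; exact (h1 0 (by omega)).le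
        · exact ((hmono 0 k h0 hk).trans (h1 k hkH)).le) (by
        rcases Nat.lt_or_ge (k + 1) H with h0 | h0
        · exact (hmono _ _ h0 le_rfl).le
        · have : k + 1 = H := by omega
          rw [this])).2 ⟨k + 1, by omega, rfl⟩) (h1 k hkH)
      obtain ⟨l, hl, rfl⟩ := (hmem j' (by omega) a3).1 a4
      have h6 : f l = f (k + 1) := by
        rcases lt_trichotomy l (k + 1) with h7 | h7 | h7
        · rcases Nat.lt_succ_iff_lt_or_eq.1 h7 with h8 | h8
          · have := hmono l k h8 hk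
            omega
          · subst h8
            omega
        · rw [h7]
        · have := hmono (k + 1) l h7 hl
          omega
      have h7 := hgap k
      have h8 : (c : ℤ) * k = c * n := by linarith
      have h9 : (k : ℤ) = n := mul_left_cancel₀ (by exact_mod_cast hc) h8
      have h10 : k = n := by exact_mod_cast h9
      rw [h10]
    · rintro rfl
      have b1 : f 0 ≤ f n := by
        rcases Nat.eq_zero_or_pos n with h0 | h0
        · rw [h0]
        · exact (hmono 0 n h0 hnH.le).le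
      have b2 : f (n + 1) ≤ f H := by
        rcases Nat.lt_or_ge (n + 1) H with h0 | h0
        · exact (hmono _ _ h0 le_rfl).le
        · have : n + 1 = H := by omega
          rw [this]
      have b3 := h1 n hnH
      refine ⟨b1, (hmem _ b1 (by omega)).2 ⟨n, hnH.le, rfl⟩, f (n + 1), b2,
        (hmem _ (by omega) b2).2 ⟨n + 1, by omega, rfl⟩, b3, fun k hk hk2 => ?_, hgap n⟩
      by_contra hc
      push Not at hc
      obtain ⟨l, hl, rfl⟩ := (hmem k (by omega) (by omega)).1 hk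
      rcases lt_trichotomy l n with h7 | h7 | h7
      · have := hmono l n h7 hnH.le
        omega
      · subst h7
        omega
      · rcases Nat.lt_or_ge (n + 1) l with h8 | h8
        · have := hmono (n + 1) l h8 hl
          omega
        · have : l = n + 1 := by omega
          subst this
          omega
  · intro i hi _
    obtain ⟨n, rfl⟩ := Int.eq_ofNat_of_zero_le hi
    have e1 : ((n : ℤ) + 2).toNat = n + 2 := by omega
    have e2 : ((n : ℤ) + 1).toNat = n + 1 := by omega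
    have e3 : (n : ℤ).toNat = n := by omega
    change f (n : ℤ).toNat + f ((n : ℤ) + 2).toNat = c + 2 * f ((n : ℤ) + 1).toNat
    rw [e1, e2, e3]
    exact h2 n

end Pool.Agent.K9h38.VL
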