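import Pool.Agent.K9h38.VL.Blk

/-! # Thick finite sets: definitions -/

set_option autoImplicit false

namespace Pool.Agent.K9h38.VL

open Function Pool.Agent.Y924.EL Pool.Agent.Y924.UF Pool.Agent.K9h38.VG

section

variable {p : ℕ} [Fact p.Prime]

/-- the elements of the valuation ring in the set with the parameters `r 1, r 2, ...` -/
def Mm (R : LaurentSeries (ZMod p) → (ℕ → LaurentSeries (ZMod p)) → Prop)
    (x : LaurentSeries (ZMod p)) (r : ℕ → LaurentSeries (ZMod p)) : Prop :=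
  x ∈ OO p ∧ R x (fun n => r (n + 1))

/-- the relation with the code `q m` -/
def Bb (q : ℕ → LaurentSeries (ZMod p)) (m : ℕ) (x y : LaurentSeries (ZMod p)) : Prop :=
  BB (q 0) p (q 1) (q 2) (q m) x y

variable (R : LaurentSeries (ZMod p) → (ℕ → LaurentSeries (ZMod p)) → Prop)

/-- the code `q` defines a bijection of the classes -/
def EE (q r r' : ℕ → LaurentSeries (ZMod p)) : Prop :=
  (∀ e : ℕ → LaurentSeries (ZMod p), Mm R (e 0) r →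
    ∃ f : ℕ → LaurentSeries (ZMod p), Mm R (f 0) r' ∧ Bb q 3 (e 0) (f 0)) ∧
  (∀ f : ℕ → LaurentSeries (ZMod p), Mm R (f 0) r' →
    ∃ e : ℕ → LaurentSeries (ZMod p), Mm R (e 0) r ∧ Bb q 3 (e 0) (f 0)) ∧
  ∀ e : ℕ → LaurentSeries (ZMod p), Mm R (e 0) r → Mm R (e 1) r → Mm R (e 2) r' →
    Mm R (e 3) r' → Bb q 3 (e 0) (e 2) → Bb q 3 (e 1) (e 3) →
    ((Le (r 0) (e 0 - e 1) → Le (r' 0) (e 2 - e 3)) ∧
      (Le (r' 0) (e 2 - e 3) → Le (r 0) (e 0 - e 1)))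

def E0 (r r' : ℕ → LaurentSeries (ZMod p)) : Prop := ∃ q, EE R q r r'

/-- the number of classes of `r4` is the product of those for `r1`, `r2`, plus that for `r3` -/
def TT (q r1 r2 r3 r4 : ℕ → LaurentSeries (ZMod p)) : Prop :=
  (∀ e : ℕ → LaurentSeries (ZMod p), Mm R (e 0) r4 → Mm R (e 1) r4 → Le (r4 0) (e 0 - e 1) →
    Bb q 6 (e 0) (e 0) → Bb q 6 (e 1) (e 1)) ∧
  (∀ e : ℕ → LaurentSeries (ZMod p), Mm R (e 0) r4 → Bb q 6 (e 0) (e 0) →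
    ∃ f : ℕ → LaurentSeries (ZMod p), Mm R (f 0) r1 ∧ Bb q 3 (e 0) (f 0)) ∧
  (∀ e : ℕ → LaurentSeries (ZMod p), Mm R (e 0) r4 → Bb q 6 (e 0) (e 0) →
    ∃ f : ℕ → LaurentSeries (ZMod p), Mm R (f 0) r2 ∧ Bb q 4 (e 0) (f 0)) ∧
  (∀ e : ℕ → LaurentSeries (ZMod p), Mm R (e 0) r1 → Mm R (e 1) r2 →
    ∃ f : ℕ → LaurentSeries (ZMod p), Mm R (f 0) r4 ∧ Bb q 6 (f 0) (f 0) ∧
      Bb q 3 (f 0) (e 0) ∧ Bb q 4 (f 0) (e 1)) ∧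
  (∀ e : ℕ → LaurentSeries (ZMod p), Mm R (e 0) r4 → Mm R (e 1) r4 → Mm R (e 2) r1 →
    Mm R (e 3) r1 → Mm R (e 4) r2 → Mm R (e 5) r2 → Bb q 6 (e 0) (e 0) → Bb q 6 (e 1) (e 1) →
    Bb q 3 (e 0) (e 2) → Bb q 3 (e 1) (e 3) → Bb q 4 (e 0) (e 4) → Bb q 4 (e 1) (e 5) →
    ((Le (r4 0) (e 0 - e 1) → Le (r1 0) (e 2 - e 3) ∧ Le (r2 0) (e 4 - e 5)) ∧
      (Le (r1 0) (e 2 - e 3) → Le (r2 0) (e 4 - e 5) → Le (r4 0) (e 0 - e 1)))) ∧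
  (∀ e : ℕ → LaurentSeries (ZMod p), Mm R (e 0) r4 → ¬ Bb q 6 (e 0) (e 0) →
    ∃ f : ℕ → LaurentSeries (ZMod p), Mm R (f 0) r3 ∧ Bb q 5 (e 0) (f 0)) ∧
  (∀ e : ℕ → LaurentSeries (ZMod p), Mm R (e 0) r3 →
    ∃ f : ℕ → LaurentSeries (ZMod p), Mm R (f 0) r4 ∧ ¬ Bb q 6 (f 0) (f 0) ∧
      Bb q 5 (f 0) (e 0)) ∧
  ∀ e : ℕ → LaurentSeries (ZMod p), Mm R (e 0) r4 → Mm R (e 1) r4 → Mm R (e 2) r3 →
    Mm R (e 3) r3 → ¬ Bb q 6 (e 0) (e 0) → ¬ Bb q 6 (e 1) (e 1) →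
    Bb q 5 (e 0) (e 2) → Bb q 5 (e 1) (e 3) →
    ((Le (r4 0) (e 0 - e 1) → Le (r3 0) (e 2 - e 3)) ∧
      (Le (r3 0) (e 2 - e 3) → Le (r4 0) (e 0 - e 1)))

def T0 (r1 r2 r3 r4 : ℕ → LaurentSeries (ZMod p)) : Prop := ∃ q, TT R q r1 r2 r3 r4

/-- another set with the same number of classes -/
def Ch (r r' : ℕ → LaurentSeries (ZMod p)) : Prop := r' 0 = r 0 ∧ E0 R r r'

def T (r1 r2 r3 r4 : ℕ → LaurentSeries (ZMod p)) : Prop :=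
  ∃ a, Ch R r1 a ∧ ∃ b, Ch R r2 b ∧ ∃ c, Ch R r3 c ∧ ∃ d, Ch R r4 d ∧ T0 R a b c d

/-- there are sets with the same number of arbitrarily small classes -/
def Good (r : ℕ → LaurentSeries (ZMod p)) : Prop :=
  r 0 ≠ 0 ∧ ∀ d : ℕ → LaurentSeries (ZMod p), d 0 ≠ 0 → ∃ r', Ch R r r' ∧
    ∀ e : ℕ → LaurentSeries (ZMod p), Mm R (e 0) r' → Mm R (e 1) r' → Le (r' 0) (e 0 - e 1) →
      Le (d 0) (e 0 - e 1)

def On (r : ℕ → LaurentSeries (ZMod p)) : Prop :=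
  ∃ e : ℕ → LaurentSeries (ZMod p), Mm R (e 0) r ∧
    ∀ f : ℕ → LaurentSeries (ZMod p), Mm R (f 0) r → Le (r 0) (f 0 - e 0)

def Zr (r : ℕ → LaurentSeries (ZMod p)) : Prop :=
  ∀ e : ℕ → LaurentSeries (ZMod p), ¬ Mm R (e 0) r

def REq (r1 r2 : ℕ → LaurentSeries (ZMod p)) : Prop :=
  ∃ e, (Good R e ∧ On R e) ∧ ∃ z, (Good R z ∧ Zr R z) ∧ T R e r1 z r2

def RAdd (r1 r2 r3 : ℕ → LaurentSeries (ZMod p)) : Prop :=
  ∃ e, (Good R e ∧ On R e) ∧ T R e r1 r2 r3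

def RMul (r1 r2 r3 : ℕ → LaurentSeries (ZMod p)) : Prop :=
  ∃ z, (Good R z ∧ Zr R z) ∧ T R r1 r2 z r3

end

section

variable {p : ℕ} [Fact p.Prime] {P : Set (LaurentSeries (ZMod p))}
  {R : LaurentSeries (ZMod p) → (ℕ → LaurentSeries (ZMod p)) → Prop}

theorem db_B (i m j a k c : ℕ) : DB P (fun b => Bb (b i) m (b j a) (b k c)) :=
  df_BB p (DFn.var _) (DFn.var _) (DFn.var _) (DFn.var _) (DFn.var _) (DFn.var _)

theorem db_L (k i j i' j' : ℕ) : DB P (fun b => Le (b k 0) (b i j - b i' j')) :=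
  df_Le (DFn.var _) ((DFn.var _).sub' (DFn.var _))

variable (hR : Df P (fun w => R (w 0) (fun n => w (n + 1))))

include hR

theorem db_M (i j k : ℕ) : DB P (fun b => Mm R (b i j) (b k)) :=
  (df_O (DFn.var _)).and (df_R hR (DFn.var _) (fun n => Nat.pair k (n + 1)))

theorem db_EE : DB P (fun b => EE R (b 0) (b 1) (b 2)) := by
  refine DB.and ?_ (DB.and ?_ ?_)
  · refine DB.all (R := fun e b => Mm R (e 0) (b 1) →
      ∃ f : ℕ → LaurentSeries (ZMod p), Mm R (f 0) (b 2) ∧ Bb (b 0) 3 (e 0) (f 0)) ?_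
    refine (db_M hR 0 0 2).imp ?_
    refine DB.ex (R := fun f b => Mm R (f 0) (b 3) ∧ Bb (b 1) 3 (b 0 0) (f 0)) ?_
    exact (db_M hR 0 0 4).and (db_B 2 3 1 0 0 0)
  · refine DB.all (R := fun f b => Mm R (f 0) (b 2) →
      ∃ e : ℕ → LaurentSeries (ZMod p), Mm R (e 0) (b 1) ∧ Bb (b 0) 3 (e 0) (f 0)) ?_
    refine (db_M hR 0 0 3).imp ?_
    refine DB.ex (R := fun e b => Mm R (e 0) (b 2) ∧ Bb (b 1) 3 (e 0) (b 0 0)) ?_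
    exact (db_M hR 0 0 3).and (db_B 2 3 0 0 1 0)
  · refine DB.all (R := fun e b => Mm R (e 0) (b 1) → Mm R (e 1) (b 1) → Mm R (e 2) (b 2) →
      Mm R (e 3) (b 2) → Bb (b 0) 3 (e 0) (e 2) → Bb (b 0) 3 (e 1) (e 3) →
      ((Le (b 1 0) (e 0 - e 1) → Le (b 2 0) (e 2 - e 3)) ∧
      (Le (b 2 0) (e 2 - e 3) → Le (b 1 0) (e 0 - e 1)))) ?_
    exact (db_M hR 0 0 2).imp ((db_M hR 0 1 2).imp ((db_M hR 0 2 3).imp ((db_M hR 0 3 3).imp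
      ((db_B 1 3 0 0 0 2).imp ((db_B 1 3 0 1 0 3).imp
      (((db_L 2 0 0 0 1).imp (db_L 3 0 2 0 3)).and
        ((db_L 3 0 2 0 3).imp (db_L 2 0 0 0 1))))))))

theorem db_E0 : DB P (fun b => E0 R (b 0) (b 1)) :=
  DB.ex (R := fun q b => EE R q (b 0) (b 1)) (db_EE hR)

theorem db_Ch (i j : ℕ) : DB P (fun b => Ch R (b i) (b j)) := by
  have h : DB P (fun b => Ch R (b 0) (b 1)) :=
    DB.and (Df.eq (DFn.var _) (DFn.var _)) (db_E0 hR)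
  exact h.ren (cns i (fun _ => j))

theorem db_TT : DB P (fun b => TT R (b 0) (b 1) (b 2) (b 3) (b 4)) := by
  refine DB.and ?_ (DB.and ?_ (DB.and ?_ (DB.and ?_ (DB.and ?_ (DB.and ?_ (DB.and ?_ ?_))))))
  · refine DB.all (R := fun e b => Mm R (e 0) (b 4) → Mm R (e 1) (b 4) → Le (b 4 0) (e 0 - e 1) →
      Bb (b 0) 6 (e 0) (e 0) → Bb (b 0) 6 (e 1) (e 1)) ?_
    exact (db_M hR 0 0 5).imp ((db_M hR 0 1 5).imp ((db_L 5 0 0 0 1).imp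
      ((db_B 1 6 0 0 0 0).imp (db_B 1 6 0 1 0 1))))
  · refine DB.all (R := fun e b => Mm R (e 0) (b 4) → Bb (b 0) 6 (e 0) (e 0) →
      ∃ f : ℕ → LaurentSeries (ZMod p), Mm R (f 0) (b 1) ∧ Bb (b 0) 3 (e 0) (f 0)) ?_
    refine (db_M hR 0 0 5).imp ((db_B 1 6 0 0 0 0).imp ?_)
    refine DB.ex (R := fun f b => Mm R (f 0) (b 2) ∧ Bb (b 1) 3 (b 0 0) (f 0)) ?_
    exact (db_M hR 0 0 3).and (db_B 2 3 1 0 0 0)
  · refine DB.all (R := fun e b => Mm R (e 0) (b 4) → Bb (b 0) 6 (e 0) (e 0) →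
      ∃ f : ℕ → LaurentSeries (ZMod p), Mm R (f 0) (b 2) ∧ Bb (b 0) 4 (e 0) (f 0)) ?_
    refine (db_M hR 0 0 5).imp ((db_B 1 6 0 0 0 0).imp ?_)
    refine DB.ex (R := fun f b => Mm R (f 0) (b 3) ∧ Bb (b 1) 4 (b 0 0) (f 0)) ?_
    exact (db_M hR 0 0 4).and (db_B 2 4 1 0 0 0)
  · refine DB.all (R := fun e b => Mm R (e 0) (b 1) → Mm R (e 1) (b 2) →
      ∃ f : ℕ → LaurentSeries (ZMod p), Mm R (f 0) (b 4) ∧ Bb (b 0) 6 (f 0) (f 0) ∧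
      Bb (b 0) 3 (f 0) (e 0) ∧ Bb (b 0) 4 (f 0) (e 1)) ?_
    refine (db_M hR 0 0 2).imp ((db_M hR 0 1 3).imp ?_)
    refine DB.ex (R := fun f b => Mm R (f 0) (b 5) ∧ Bb (b 1) 6 (f 0) (f 0) ∧
      Bb (b 1) 3 (f 0) (b 0 0) ∧ Bb (b 1) 4 (f 0) (b 0 1)) ?_
    exact (db_M hR 0 0 6).and ((db_B 2 6 0 0 0 0).and ((db_B 2 3 0 0 1 0).and
      (db_B 2 4 0 0 1 1)))
  · refine DB.all (R := fun e b => Mm R (e 0) (b 4) → Mm R (e 1) (b 4) → Mm R (e 2) (b 1) →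
      Mm R (e 3) (b 1) → Mm R (e 4) (b 2) → Mm R (e 5) (b 2) → Bb (b 0) 6 (e 0) (e 0) →
      Bb (b 0) 6 (e 1) (e 1) → Bb (b 0) 3 (e 0) (e 2) → Bb (b 0) 3 (e 1) (e 3) →
      Bb (b 0) 4 (e 0) (e 4) → Bb (b 0) 4 (e 1) (e 5) →
      ((Le (b 4 0) (e 0 - e 1) → Le (b 1 0) (e 2 - e 3) ∧ Le (b 2 0) (e 4 - e 5)) ∧
      (Le (b 1 0) (e 2 - e 3) → Le (b 2 0) (e 4 - e 5) → Le (b 4 0) (e 0 - e 1)))) ?_
    refine (db_M hR 0 0 5).imp ((db_M hR 0 1 5).imp ((db_M hR 0 2 2).imp ((db_M hR 0 3 2).imp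
      ((db_M hR 0 4 3).imp ((db_M hR 0 5 3).imp ?_)))))
    refine (db_B 1 6 0 0 0 0).imp ((db_B 1 6 0 1 0 1).imp ((db_B 1 3 0 0 0 2).imp
      ((db_B 1 3 0 1 0 3).imp ((db_B 1 4 0 0 0 4).imp ((db_B 1 4 0 1 0 5).imp ?_)))))
    exact ((db_L 5 0 0 0 1).imp ((db_L 2 0 2 0 3).and (db_L 3 0 4 0 5))).and
      ((db_L 2 0 2 0 3).imp ((db_L 3 0 4 0 5).imp (db_L 5 0 0 0 1)))
  · refine DB.all (R := fun e b => Mm R (e 0) (b 4) → ¬ Bb (b 0) 6 (e 0) (e 0) →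
      ∃ f : ℕ → LaurentSeries (ZMod p), Mm R (f 0) (b 3) ∧ Bb (b 0) 5 (e 0) (f 0)) ?_
    refine (db_M hR 0 0 5).imp ((db_B 1 6 0 0 0 0).not.imp ?_)
    refine DB.ex (R := fun f b => Mm R (f 0) (b 4) ∧ Bb (b 1) 5 (b 0 0) (f 0)) ?_
    exact (db_M hR 0 0 5).and (db_B 2 5 1 0 0 0)
  · refine DB.all (R := fun e b => Mm R (e 0) (b 3) →
      ∃ f : ℕ → LaurentSeries (ZMod p), Mm R (f 0) (b 4) ∧ ¬ Bb (b 0) 6 (f 0) (f 0) ∧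
      Bb (b 0) 5 (f 0) (e 0)) ?_
    refine (db_M hR 0 0 4).imp ?_
    refine DB.ex (R := fun f b => Mm R (f 0) (b 5) ∧ ¬ Bb (b 1) 6 (f 0) (f 0) ∧
      Bb (b 1) 5 (f 0) (b 0 0)) ?_
    exact (db_M hR 0 0 6).and ((db_B 2 6 0 0 0 0).not.and (db_B 2 5 0 0 1 0))
  · refine DB.all (R := fun e b => Mm R (e 0) (b 4) → Mm R (e 1) (b 4) → Mm R (e 2) (b 3) →
      Mm R (e 3) (b 3) → ¬ Bb (b 0) 6 (e 0) (e 0) → ¬ Bb (b 0) 6 (e 1) (e 1) →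
      Bb (b 0) 5 (e 0) (e 2) → Bb (b 0) 5 (e 1) (e 3) →
      ((Le (b 4 0) (e 0 - e 1) → Le (b 3 0) (e 2 - e 3)) ∧
      (Le (b 3 0) (e 2 - e 3) → Le (b 4 0) (e 0 - e 1)))) ?_
    refine (db_M hR 0 0 5).imp ((db_M hR 0 1 5).imp ((db_M hR 0 2 4).imp ((db_M hR 0 3 4).imp
      ((db_B 1 6 0 0 0 0).not.imp ((db_B 1 6 0 1 0 1).not.imp ((db_B 1 5 0 0 0 2).imp
      ((db_B 1 5 0 1 0 3).imp ?_)))))))
    exact ((db_L 5 0 0 0 1).imp (db_L 4 0 2 0 3)).and ((db_L 4 0 2 0 3).imp (db_L 5 0 0 0 1))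

theorem db_T0 : DB P (fun b => T0 R (b 0) (b 1) (b 2) (b 3)) :=
  DB.ex (R := fun q b => TT R q (b 0) (b 1) (b 2) (b 3)) (db_TT hR)

theorem db_T : DB P (fun b => T R (b 0) (b 1) (b 2) (b 3)) := by
  refine DB.ex (R := fun x b => Ch R (b 0) x ∧ ∃ y, Ch R (b 1) y ∧ ∃ z, Ch R (b 2) z ∧
    ∃ w, Ch R (b 3) w ∧ T0 R x y z w) ?_
  refine DB.and (db_Ch hR 1 0) ?_
  refine DB.ex (R := fun y b => Ch R (b 2) y ∧ ∃ z, Ch R (b 3) z ∧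
    ∃ w, Ch R (b 4) w ∧ T0 R (b 0) y z w) ?_
  refine DB.and (db_Ch hR 3 0) ?_
  refine DB.ex (R := fun z b => Ch R (b 4) z ∧ ∃ w, Ch R (b 5) w ∧ T0 R (b 1) (b 0) z w) ?_
  refine DB.and (db_Ch hR 5 0) ?_
  refine DB.ex (R := fun w b => Ch R (b 6) w ∧ T0 R (b 2) (b 1) (b 0) w) ?_
  refine DB.and (db_Ch hR 7 0) ?_
  exact (db_T0 hR).ren (cns 3 (cns 2 (cns 1 (fun _ => 0))))

theorem db_Good (k : ℕ) : DB P (fun b => Good R (b k)) := by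
  have h : DB P (fun b => Good R (b 0)) := by
    refine DB.and (Df.ne (DFn.var _) DFn.zero) ?_
    refine DB.all (R := fun d b => d 0 ≠ 0 → ∃ r', Ch R (b 0) r' ∧
      ∀ e : ℕ → LaurentSeries (ZMod p), Mm R (e 0) r' → Mm R (e 1) r' → Le (r' 0) (e 0 - e 1) →
      Le (d 0) (e 0 - e 1)) ?_
    refine DB.imp (Df.ne (DFn.var _) DFn.zero) ?_
    refine DB.ex (R := fun r' b => Ch R (b 1) r' ∧
      ∀ e : ℕ → LaurentSeries (ZMod p), Mm R (e 0) r' → Mm R (e 1) r' → Le (r' 0) (e 0 - e 1) →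
      Le (b 0 0) (e 0 - e 1)) ?_
    refine DB.and (db_Ch hR 2 0) ?_
    refine DB.all (R := fun e b => Mm R (e 0) (b 0) → Mm R (e 1) (b 0) → Le (b 0 0) (e 0 - e 1) →
      Le (b 1 0) (e 0 - e 1)) ?_
    exact (db_M hR 0 0 1).imp ((db_M hR 0 1 1).imp ((db_L 1 0 0 0 1).imp (db_L 2 0 0 0 1)))
  exact h.ren (fun _ => k)

theorem db_On (k : ℕ) : DB P (fun b => On R (b k)) := by
  have h : DB P (fun b => On R (b 0)) := by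
    refine DB.ex (R := fun e b => Mm R (e 0) (b 0) ∧
      ∀ f : ℕ → LaurentSeries (ZMod p), Mm R (f 0) (b 0) → Le (b 0 0) (f 0 - e 0)) ?_
    refine DB.and (db_M hR 0 0 1) ?_
    refine DB.all (R := fun f b => Mm R (f 0) (b 1) → Le (b 1 0) (f 0 - b 0 0)) ?_
    exact (db_M hR 0 0 2).imp (db_L 2 0 0 1 0)
  exact h.ren (fun _ => k)

theorem db_Zr (k : ℕ) : DB P (fun b => Zr R (b k)) := by
  have h : DB P (fun b => Zr R (b 0)) := by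
    refine DB.all (R := fun e b => ¬ Mm R (e 0) (b 0)) ?_
    exact (db_M hR 0 0 1).not
  exact h.ren (fun _ => k)

theorem df_Good : Df3 P (fun x _ _ => Good R x) := DB.d3 (R := fun x _ _ => Good R x) (db_Good hR 0)

theorem df_On : Df3 P (fun x _ _ => On R x) := DB.d3 (R := fun x _ _ => On R x) (db_On hR 0)

theorem df_REq : Df3 P (fun x y _ => REq R x y) := by
  refine DB.d3 (R := fun x y _ => REq R x y) ?_
  refine DB.ex (R := fun e b => (Good R e ∧ On R e) ∧ ∃ z, (Good R z ∧ Zr R z) ∧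
    T R e (b 0) z (b 1)) ?_
  refine DB.and (DB.and (db_Good hR 0) (db_On hR 0)) ?_
  refine DB.ex (R := fun z b => (Good R z ∧ Zr R z) ∧ T R (b 0) (b 1) z (b 2)) ?_
  refine DB.and (DB.and (db_Good hR 0) (db_Zr hR 0)) ?_
  exact (db_T hR).ren (cns 1 (cns 2 (cns 0 (fun _ => 3))))

theorem df_RAdd : Df3 P (RAdd R) := by
  refine DB.d3 (R := RAdd R) ?_
  refine DB.ex (R := fun e b => (Good R e ∧ On R e) ∧ T R e (b 0) (b 1) (b 2)) ?_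
  exact DB.and (DB.and (db_Good hR 0) (db_On hR 0)) (db_T hR)

theorem df_RMul : Df3 P (RMul R) := by
  refine DB.d3 (R := RMul R) ?_
  refine DB.ex (R := fun z b => (Good R z ∧ Zr R z) ∧ T R (b 0) (b 1) z (b 2)) ?_
  refine DB.and (DB.and (db_Good hR 0) (db_Zr hR 0)) ?_
  exact (db_T hR).ren (cns 1 (cns 2 (cns 0 (fun _ => 3))))

end

end Pool.Agent.K9h38.VL
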